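import Mathlib

/-!
Linear circuits with few gates compute only matrices in a proper algebraic subset.
-/

open MvPolynomial

namespace Pool.Agent.H598R2

section Lin

variable {A B : Type*} [CommRing A] [CommRing B] {m : ℕ}

/-- append a gate to a linear circuit over `A` with `m` inputs -/
def linStep (L : List (Fin m → A)) (g : (ℕ × ℕ) × (A × A)) : List (Fin m → A) :=
  L ++ [g.2.1 • L.getD g.1.1 0 + g.2.2 • L.getD g.1.2 0]

/-- run a linear circuit -/
def lin (L : List (Fin m → A)) (gs : List ((ℕ × ℕ) × (A × A))) : List (Fin m → A) :=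
  gs.foldl linStep L

/-- the input gates -/
def linInit (A : Type*) [CommRing A] (m : ℕ) : List (Fin m → A) :=
  List.ofFn (fun c : Fin m => (Pi.single c 1 : Fin m → A))

@[simp] theorem lin_nil (L : List (Fin m → A)) : lin L [] = L := rfl

@[simp] theorem lin_cons (L : List (Fin m → A)) (g) (gs) :
    lin L (g :: gs) = lin (linStep L g) gs := rfl

theorem lin_append (L : List (Fin m → A)) (gs gs') :
    lin L (gs ++ gs') = lin (lin L gs) gs' := by
  simp [lin]

@[simp] theorem length_linStep (L : List (Fin m → A)) (g) :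
    (linStep L g).length = L.length + 1 := by simp [linStep]

@[simp] theorem length_lin (L : List (Fin m → A)) (gs) :
    (lin L gs).length = L.length + gs.length := by
  induction gs generalizing L with
  | nil => simp
  | cons g gs ih => simp [ih]; omega

theorem getD_linStep_of_lt (L : List (Fin m → A)) (g) {i : ℕ} (hi : i < L.length) :
    (linStep L g).getD i 0 = L.getD i 0 := by
  rw [linStep, List.getD_append _ _ _ _ hi]

theorem getD_linStep_self (L : List (Fin m → A)) (g) :
    (linStep L g).getD L.length 0 = g.2.1 • L.getD g.1.1 0 + g.2.2 • L.getD g.1.2 0 := by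
  simp [linStep]

theorem getD_lin_of_lt (L : List (Fin m → A)) (gs) {i : ℕ} (hi : i < L.length) :
    (lin L gs).getD i 0 = L.getD i 0 := by
  induction gs generalizing L with
  | nil => simp
  | cons g gs ih =>
    rw [lin_cons, ih _ (by rw [length_linStep]; omega), getD_linStep_of_lt _ _ hi]

theorem getD_of_le (L : List (Fin m → A)) {i : ℕ} (hi : L.length ≤ i) :
    L.getD i 0 = 0 := by
  rw [List.getD_eq_default _ _ hi]

/-- image of a list of vectors under a ring homomorphism -/
def mapL (f : A →+* B) (L : List (Fin m → A)) : List (Fin m → B) := L.map (fun x => f ∘ x)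

theorem getD_mapL (f : A →+* B) (L : List (Fin m → A)) (i : ℕ) :
    (mapL f L).getD i 0 = f ∘ (L.getD i 0) := by
  have h0 : (0 : Fin m → B) = f ∘ (0 : Fin m → A) := by
    ext; simp
  rw [mapL, h0, List.getD_map]

theorem mapL_linStep (f : A →+* B) (L : List (Fin m → A)) (g) :
    mapL f (linStep L g) = linStep (mapL f L) (g.1, (f g.2.1, f g.2.2)) := by
  simp only [linStep, getD_mapL]
  simp only [mapL, List.map_append, List.map_cons, List.map_nil]
  congr 2
  ext i
  simp

theorem mapL_lin (f : A →+* B) (L : List (Fin m → A)) (gs : List ((ℕ × ℕ) × (A × A))) :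
    mapL f (lin L gs) = lin (mapL f L) (gs.map (fun g => (g.1, (f g.2.1, f g.2.2)))) := by
  induction gs generalizing L with
  | nil => simp
  | cons g gs ih => rw [lin_cons, ih, mapL_linStep, List.map_cons, lin_cons]

theorem mapL_linInit (f : A →+* B) : mapL f (linInit A m) = linInit B m := by
  simp only [mapL, linInit, List.map_ofFn]
  congr 1
  ext c i
  simp only [Function.comp_apply, Pi.single_apply]
  split_ifs <;> simp

end Lin

/-- `m × m` matrices computed by linear circuits with exactly `n` gates; the index `m + n` is a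
constant zero gate -/
def LinSet (m n : ℕ) : Set (Fin m → Fin m → ℂ) :=
  {M | ∃ gs : List ((ℕ × ℕ) × (ℂ × ℂ)), gs.length = n ∧ (∀ g ∈ gs, g.1.1 ≤ m + n ∧ g.1.2 ≤ m + n) ∧
    ∃ out : Fin m → ℕ, (∀ j, out j ≤ m + n) ∧
      ∀ j, M j = (lin (linInit ℂ m) gs).getD (out j) 0}

/-- circuits may be padded -/
theorem mem_linSet_of_le {m n : ℕ} {M : Fin m → Fin m → ℂ} (gs : List ((ℕ × ℕ) × (ℂ × ℂ)))
    (h1 : gs.length ≤ n) (h2 : ∀ g ∈ gs, g.1.1 ≤ m + n ∧ g.1.2 ≤ m + n) (out : Fin m → ℕ)
    (h3 : ∀ j, out j ≤ m + n) (h4 : ∀ j, M j = (lin (linInit ℂ m) gs).getD (out j) 0) :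
    M ∈ LinSet m n := by
  have hZ : (linInit ℂ m).length = m := by simp [linInit]
  refine ⟨gs ++ List.replicate (n - gs.length) ((m + n, m + n), (0, 0)), ?_, ?_,
    fun j => if out j < m + gs.length then out j else m + n, ?_, ?_⟩
  · simp; omega
  · intro g hg
    rw [List.mem_append] at hg
    rcases hg with hg | hg
    · exact h2 g hg
    · rw [List.eq_of_mem_replicate hg]
      simp
  · intro j
    dsimp only
    split_ifs
    · exact h3 j
    · exact le_rfl
  · intro j
    rw [h4 j, lin_append]
    dsimp only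
    split_ifs with h
    · rw [getD_lin_of_lt (lin (linInit ℂ m) gs)]
      rw [length_lin, hZ]
      exact h
    · rw [getD_of_le, getD_of_le]
      · simp only [length_lin, hZ, List.length_replicate]
        omega
      · simp only [length_lin, hZ]
        omega

/-- parameters of a circuit with `n` gates and of a scaling factor -/
abbrev Par (n : ℕ) := Option (Fin n × Bool)

/-- the generic circuit with given wiring -/
noncomputable def genCirc {n N : ℕ} (τ : Fin n → Fin N × Fin N) :
    List ((ℕ × ℕ) × (MvPolynomial (Par n) ℂ × MvPolynomial (Par n) ℂ)) :=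
  List.ofFn fun i => ((((τ i).1 : ℕ), ((τ i).2 : ℕ)), (X (some (i, false)), X (some (i, true))))

noncomputable def genPoly {m n N : ℕ} (τ : Fin n → Fin N × Fin N) (out : Fin m → Fin N)
    (p : Fin m × Fin m) : MvPolynomial (Par n) ℂ :=
  X none * (lin (linInit (MvPolynomial (Par n) ℂ) m) (genCirc τ)).getD (out p.1) 0 p.2

theorem exists_annihilator_wiring {m n N : ℕ} (hmn : 2 * n + 1 < m ^ 2)
    (τ : Fin n → Fin N × Fin N) (out : Fin m → Fin N) :
    ∃ H : MvPolynomial (Fin m × Fin m) ℂ, H ≠ 0 ∧ aeval (genPoly τ out) H = 0 := by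
  by_contra hcon
  push Not at hcon
  have hai : AlgebraicIndependent ℂ (genPoly τ out) := by
    rw [algebraicIndependent_iff]
    intro p hp
    by_contra h
    exact hcon p h hp
  have h1 := hai.cardinalMk_le_trdeg
  rw [MvPolynomial.trdeg_of_isDomain] at h1
  simp only [Cardinal.mk_fintype, Fintype.card_prod, Fintype.card_fin, Fintype.card_option,
    Fintype.card_bool, Cardinal.lift_natCast, Nat.cast_le] at h1
  nlinarith

theorem eval_aeval' {σ τ : Type*} (g : σ → MvPolynomial τ ℂ) (a : τ → ℂ)
    (H : MvPolynomial σ ℂ) : eval a (aeval g H) = eval (fun p => eval a (g p)) H := by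
  induction H using MvPolynomial.induction_on with
  | C c => simp
  | add p q hp hq => rw [map_add, map_add, hp, hq, map_add]
  | mul_X p i hp => rw [map_mul, map_mul, hp, map_mul, aeval_X, eval_X]

theorem exists_annihilator {m n : ℕ} (hmn : 2 * n + 1 < m ^ 2) :
    ∃ H : MvPolynomial (Fin m × Fin m) ℂ, H ≠ 0 ∧
      ∀ M ∈ LinSet m n, ∀ s : ℂ, eval (fun p : Fin m × Fin m => s * M p.1 p.2) H = 0 := by
  classical
  choose H hH0 hH using fun τo : (Fin n → Fin (m + n + 1) × Fin (m + n + 1)) ×
    (Fin m → Fin (m + n + 1)) => exists_annihilator_wiring hmn τo.1 τo.2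
  refine ⟨∏ τo, H τo, Finset.prod_ne_zero_iff.2 fun τo _ => hH0 τo, ?_⟩
  rintro M ⟨gs, hlen, hgs, out, hout, hM⟩ s
  subst hlen
  let τ : Fin gs.length → Fin (m + gs.length + 1) × Fin (m + gs.length + 1) := fun i =>
    (⟨(gs.get i).1.1, Nat.lt_succ_of_le (hgs _ (List.get_mem gs i)).1⟩,
      ⟨(gs.get i).1.2, Nat.lt_succ_of_le (hgs _ (List.get_mem gs i)).2⟩)
  let out' : Fin m → Fin (m + gs.length + 1) := fun j => ⟨out j, Nat.lt_succ_of_le (hout j)⟩
  rw [map_prod]
  apply Finset.prod_eq_zero (Finset.mem_univ (τ, out'))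
  let a : Par gs.length → ℂ := fun o => match o with
    | none => s
    | some (i, false) => (gs.get i).2.1
    | some (i, true) => (gs.get i).2.2
  have key : ∀ p : Fin m × Fin m, eval a (genPoly τ out' p) = s * M p.1 p.2 := by
    intro p
    rw [genPoly, map_mul, eval_X]
    have h2 := mapL_lin (eval a) (linInit (MvPolynomial (Par gs.length) ℂ) m) (genCirc τ)
    rw [mapL_linInit] at h2
    have h3 : (genCirc τ).map (fun g => (g.1, (eval a g.2.1, eval a g.2.2))) = gs := by
      rw [genCirc, List.map_ofFn]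
      apply List.ext_get
      · simp
      · intro i h h'
        simp [τ, a]
    rw [h3] at h2
    have h4 := getD_mapL (eval a)
      (lin (linInit (MvPolynomial (Par gs.length) ℂ) m) (genCirc τ)) (out' p.1 : ℕ)
    rw [h2] at h4
    have h5 := hM p.1
    change M p.1 = (lin (linInit ℂ m) gs).getD ((out' p.1 : Fin _) : ℕ) 0 at h5
    rw [h5, h4]
    rfl
  have h6 := congrArg (eval a) (hH (τ, out'))
  rw [map_zero] at h6
  rw [← h6]
  have h7 : (fun p : Fin m × Fin m => s * M p.1 p.2) = fun p => eval a (genPoly τ out' p) := by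
    ext p; rw [key]
  rw [h7, eval_aeval']

end Pool.Agent.H598R2
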