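import Mathlib
import Pool.Agent.NPC.Dec

/-!
A polynomial-time algorithm computing a number whose threshold problem is hard collapses NP to P.
-/

namespace Pool.Agent.NPC.H598R2

/-- If deciding `c a ≤ s` is hard for instances satisfying a promise, and some polynomial-time
function on bit strings computes `c a` from `a` whenever `(a, s)` satisfies the promise, then every
language in `NP` is in `P`. -/
theorem collapse_fun {α : Type} [TEnc α] {Pr Q : α × ℕ → Prop} {c : α → ℕ} (h : HardPr Pr Q)
    (hQ : ∀ I, Pr I → (Q I ↔ c I.1 ≤ I.2)) {A : List Bool → List Bool} (hA : PolyTime A)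
    (hc : ∀ I, Pr I → A (bits I.1) = bits (c I.1)) : ∀ L, InNP L → InP L := by
  intro L hL
  obtain ⟨f, hf, hpr, hfL⟩ := h L hL
  have h1 : PolyTime (fun x => bits (f x).1) := PC.toPolyTime
    (show PC (fun x : List Bool => x) (bits : α → List Bool) (fun x => (f x).1) from
      PC.comp (g := fun I : α × ℕ => I.1) (f := f) (Poly.fst Poly.id) hf)
  have h2 : PolyTime (fun x => A (bits (f x).1)) := H642R2.TMSim.polyTime_comp hA h1
  have h3 : PC (fun x : List Bool => x) (fun x : List Bool => x) (fun x => A (bits (f x).1)) :=
    H642R2.TMSim.polyTime_toPC h2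
  have h4 : PC (fun x : List Bool => x) (bits : List Bool → List Bool)
      (fun x => A (bits (f x).1)) :=
    PC.comp (g := fun x => x) (f := fun x => A (bits (f x).1)) PC.rawIn h3
  have h5 : PC (fun x : List Bool => x) (bits : ℕ → List Bool) (fun x => (f x).2) :=
    PC.comp (g := fun I : α × ℕ => I.2) (f := f) (Poly.snd Poly.id) hf
  have h6 : PC (fun x : List Bool => x) (bits : List Bool × ℕ → List Bool)
      (fun x => (A (bits (f x).1), (f x).2)) := PC.node h4 h5
  let d : List Bool × ℕ → Bool := fun p => match unbits ℕ p.1 with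
    | none => false
    | some m => decide (m ≤ p.2)
  have h7 : Poly d := (Poly.optCases (o := fun p : List Bool × ℕ => unbits ℕ p.1)
    (g := fun _ => false) (h := fun p m => decide (m ≤ p.2))
    (poly_unbits.comp (Poly.fst Poly.id)) (Poly.const false)
    (Poly.decide_le (Poly.snd Poly.id) (Poly.snd (Poly.fst Poly.id)))).congr fun p => by
      simp only [d]; cases unbits ℕ p.1 <;> rfl
  have h8 : PC (fun x : List Bool => x) (bits : Bool → List Bool)
      (fun x => d (A (bits (f x).1), (f x).2)) :=
    PC.comp (g := d) (f := fun x => (A (bits (f x).1), (f x).2)) h7 h6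
  refine ⟨fun x => [d (A (bits (f x).1), (f x).2)], PC.toPolyTime
    (PC.comp (g := fun b => [b]) (f := fun x => d (A (bits (f x).1), (f x).2)) PC.rawBool h8),
    fun x => ?_⟩
  rw [hfL x, hQ _ (hpr x)]
  simp only [d, hc _ (hpr x), unbits_bits, List.cons.injEq, and_true, decide_eq_true_eq]

end Pool.Agent.NPC.H598R2
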