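import Mathlib

/-!
The (2,3)-count matroid on pairs of vertices: independent sets, rigid vertex sets, equicardinality of
maximal independent sets, closure and gluing.
-/

namespace Pool.Agent.H598R2.Cnt

variable {V : Type*} [DecidableEq V]

/-- number of members of `I` inside `X` -/
def ins (I : Finset (Finset V)) (X : Finset V) : ℕ := (I.filter (· ⊆ X)).card

/-- `(2,3)`-sparse -/
def Sp (I : Finset (Finset V)) : Prop := ∀ X : Finset V, 2 ≤ X.card → ins I X + 3 ≤ 2 * X.card

/-- all members are pairs -/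
def Pairs (Γ : Finset (Finset V)) : Prop := ∀ p ∈ Γ, p.card = 2

/-- `X` is rigid in `Γ` -/
def Rig (Γ : Finset (Finset V)) (X : Finset V) : Prop :=
  ∃ I ⊆ Γ, Sp I ∧ (∀ p ∈ I, p ⊆ X) ∧ I.card + 3 = 2 * X.card

theorem ins_mono {I J : Finset (Finset V)} (h : I ⊆ J) (X : Finset V) : ins I X ≤ ins J X :=
  Finset.card_le_card (Finset.filter_subset_filter _ h)

theorem ins_le_card (I : Finset (Finset V)) (X : Finset V) : ins I X ≤ I.card :=
  Finset.card_filter_le _ _

theorem Sp.mono {I J : Finset (Finset V)} (hJ : Sp J) (h : I ⊆ J) : Sp I := fun X hX =>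
  (Nat.add_le_add_right (ins_mono h X) 3).trans (hJ X hX)

theorem ins_submod (I : Finset (Finset V)) (X Y : Finset V) :
    ins I X + ins I Y ≤ ins I (X ∪ Y) + ins I (X ∩ Y) := by
  unfold ins
  rw [← Finset.card_union_add_card_inter]
  refine Nat.add_le_add (Finset.card_le_card ?_) (Finset.card_le_card ?_)
  · intro p hp
    simp only [Finset.mem_union, Finset.mem_filter] at hp ⊢
    rcases hp with ⟨h1, h2⟩ | ⟨h1, h2⟩
    · exact ⟨h1, h2.trans Finset.subset_union_left⟩
    · exact ⟨h1, h2.trans Finset.subset_union_right⟩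
  · intro p hp
    simp only [Finset.mem_inter, Finset.mem_filter] at hp ⊢
    exact ⟨hp.1.1, Finset.subset_inter hp.1.2 hp.2.2⟩

/-- tight sets -/
def Tight (I : Finset (Finset V)) (X : Finset V) : Prop := 2 ≤ X.card ∧ ins I X + 3 = 2 * X.card

theorem Tight.union {I : Finset (Finset V)} (hI : Sp I) {X Y : Finset V} (hX : Tight I X)
    (hY : Tight I Y) (h : 2 ≤ (X ∩ Y).card) : Tight I (X ∪ Y) := by
  have h1 := ins_submod I X Y
  have h2 := hI (X ∩ Y) h
  have h3 : 2 ≤ (X ∪ Y).card := hX.1.trans (Finset.card_le_card Finset.subset_union_left)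
  have h4 := hI (X ∪ Y) h3
  have h5 := Finset.card_union_add_card_inter X Y
  have h6 := hX.2
  have h7 := hY.2
  exact ⟨h3, by omega⟩

/-- a pair is tight if it is a member -/
theorem tight_pair {I : Finset (Finset V)} (hI : Sp I) {p : Finset V} (hp : p ∈ I)
    (hc : p.card = 2) : Tight I p := by
  refine ⟨hc.ge, ?_⟩
  have h1 := hI p hc.ge
  have h2 : 1 ≤ ins I p := Finset.card_pos.2 ⟨p, Finset.mem_filter.2 ⟨hp, subset_rfl⟩⟩
  omega

/-- if adding a pair destroys sparsity then the pair is inside a tight set -/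
theorem exists_tight_of_not_sp {I : Finset (Finset V)} (hI : Sp I) {p : Finset V}
    (h : ¬ Sp (insert p I)) : ∃ X, Tight I X ∧ p ⊆ X := by
  unfold Sp at h
  push Not at h
  obtain ⟨X, hX, h⟩ := h
  have h1 := hI X hX
  have hpX : p ⊆ X := by
    by_contra hn
    have : ins (insert p I) X = ins I X := by
      unfold ins
      rw [Finset.filter_insert, if_neg hn]
    omega
  refine ⟨X, ⟨hX, ?_⟩, hpX⟩
  have h2 : ins (insert p I) X ≤ ins I X + 1 := by
    unfold ins
    rw [Finset.filter_insert, if_pos hpX]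
    exact Finset.card_insert_le _ _
  omega

theorem not_sp_of_tight {I : Finset (Finset V)} {p X : Finset V} (hX : Tight I X) (hp : p ⊆ X)
    (hpI : p ∉ I) : ¬ Sp (insert p I) := by
  intro h
  have h1 := h X hX.1
  have h2 : ins (insert p I) X = ins I X + 1 := by
    unfold ins
    rw [Finset.filter_insert, if_pos hp, Finset.card_insert_of_notMem]
    exact fun hh => hpI (Finset.mem_filter.1 hh).1
  have := hX.2
  omega

/-- maximal independent subset -/
def Maxl (Γ I : Finset (Finset V)) : Prop := I ⊆ Γ ∧ Sp I ∧ ∀ p ∈ Γ, p ∉ I → ¬ Sp (insert p I)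

theorem exists_maxl {Γ J : Finset (Finset V)} (hJ : J ⊆ Γ) (hs : Sp J) :
    ∃ I, J ⊆ I ∧ Maxl Γ I := by
  classical
  obtain ⟨I, hI, hmax⟩ := Finset.exists_max_image
    (Γ.powerset.filter (fun I => J ⊆ I ∧ Sp I)) Finset.card ⟨J, by simp [hJ, hs]⟩
  simp only [Finset.mem_filter, Finset.mem_powerset] at hI hmax
  refine ⟨I, hI.2.1, hI.1, hI.2.2, fun p hp hpI hsp => ?_⟩
  have := hmax (insert p I) ⟨Finset.insert_subset hp hI.1, hI.2.1.trans (Finset.subset_insert _ _),
    hsp⟩
  rw [Finset.card_insert_of_notMem hpI] at this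
  omega

/-- every member of `Γ` is inside a tight set of a maximal independent set -/
theorem Maxl.exists_tight {Γ I : Finset (Finset V)} (h : Maxl Γ I) (hΓ : Pairs Γ) {p : Finset V}
    (hp : p ∈ Γ) : ∃ X, Tight I X ∧ p ⊆ X := by
  by_cases hpI : p ∈ I
  · exact ⟨p, tight_pair h.2.1 hpI (hΓ p hp), subset_rfl⟩
  · exact exists_tight_of_not_sp h.2.1 (h.2.2 p hp hpI)

/-- there is a largest tight set containing a given pair, inside a finite universe -/
theorem exists_largest {I : Finset (Finset V)} (hI : Sp I) (U : Finset V)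
    (hU : ∀ p ∈ I, p ⊆ U) {p : Finset V} (hp : p.card = 2) (h : ∃ X, Tight I X ∧ p ⊆ X) :
    ∃ X, Tight I X ∧ p ⊆ X ∧ ∀ Y, Tight I Y → p ⊆ Y → Y ⊆ X := by
  classical
  -- tight sets are contained in `U ∪ p`-ish sets; we bound the cardinality by the count
  have hb : ∀ X, Tight I X → X.card ≤ I.card + 3 := by
    intro X hX
    have h1 := ins_le_card I X
    have h2 := hX.2
    have h3 := hX.1
    omega
  obtain ⟨X, hX, hmax⟩ : ∃ X, (Tight I X ∧ p ⊆ X) ∧ ∀ Y, Tight I Y ∧ p ⊆ Y → Y.card ≤ X.card := by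
    by_contra hcon
    push Not at hcon
    have : ∀ n : ℕ, ∃ X, (Tight I X ∧ p ⊆ X) ∧ n ≤ X.card := by
      intro n
      induction n with
      | zero =>
        obtain ⟨X, hX⟩ := h
        exact ⟨X, hX, Nat.zero_le _⟩
      | succ n ih =>
        obtain ⟨X, hX, hn⟩ := ih
        obtain ⟨Y, hY, hlt⟩ := hcon X hX
        exact ⟨Y, hY, by omega⟩
    obtain ⟨X, hX, hn⟩ := this (I.card + 4)
    have := hb X hX.1
    omega
  refine ⟨X, hX.1, hX.2, fun Y hY hpY => ?_⟩
  have h1 : 2 ≤ (X ∩ Y).card := by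
    rw [← hp]
    exact Finset.card_le_card (Finset.subset_inter hX.2 hpY)
  have h2 := hX.1.union hI hY h1
  have h3 := hmax (X ∪ Y) ⟨h2, hX.2.trans Finset.subset_union_left⟩
  have h4 : X ∪ Y = X :=
    (Finset.eq_of_subset_of_card_le Finset.subset_union_left h3).symm
  rw [← h4]
  exact Finset.subset_union_right

/-- **Equicardinality**: a maximal independent subset of `Γ` is a maximum independent subset. -/
theorem Maxl.card_le {Γ I : Finset (Finset V)} (h : Maxl Γ I) (hΓ : Pairs Γ)
    {J : Finset (Finset V)} (hJ : J ⊆ Γ) (hs : Sp J) : J.card ≤ I.card := by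
  classical
  have hI := h.2.1
  have hex : ∀ p : Finset V, ∃ X, p ∈ Γ → (Tight I X ∧ p ⊆ X ∧ ∀ Y, Tight I Y → p ⊆ Y → Y ⊆ X) := by
    intro p
    by_cases hp : p ∈ Γ
    · obtain ⟨X, hX⟩ := exists_largest hI (I.biUnion id)
        (fun q hq => Finset.subset_biUnion_of_mem id hq) (hΓ p hp) (h.exists_tight hΓ hp)
      exact ⟨X, fun _ => hX⟩
    · exact ⟨∅, fun hh => absurd hh hp⟩
  choose φ hφ using hex
  -- the family of maximal tight sets
  let 𝒳 : Finset (Finset V) := Γ.image φ
  have hself : ∀ X ∈ 𝒳, ∀ p ∈ Γ, p ⊆ X → φ p = X := by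
    intro X hX p hp hpX
    obtain ⟨q, hq, rfl⟩ := Finset.mem_image.1 hX
    have h1 := hφ q hq
    have h2 := hφ p hp
    have h3 : φ q ⊆ φ p := h2.2.2 _ h1.1 hpX
    have h4 : φ p ⊆ φ q := h1.2.2 _ h2.1 (h1.2.1.trans h3)
    exact subset_antisymm h4 h3
  have hsum : ∀ K : Finset (Finset V), K ⊆ Γ → K.card = ∑ X ∈ 𝒳, ins K X := by
    intro K hK
    rw [Finset.card_eq_sum_card_fiberwise (f := φ) (t := 𝒳)
      (fun p hp => Finset.mem_image_of_mem _ (hK hp))]
    refine Finset.sum_congr rfl fun X hX => ?_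
    unfold ins
    congr 1
    ext p
    simp only [Finset.mem_filter]
    constructor
    · rintro ⟨h1, rfl⟩
      exact ⟨h1, (hφ p (hK h1)).2.1⟩
    · rintro ⟨h1, h2⟩
      exact ⟨h1, hself X hX p (hK h1) h2⟩
  rw [hsum J hJ, hsum I h.1]
  refine Finset.sum_le_sum fun X hX => ?_
  obtain ⟨q, hq, rfl⟩ := Finset.mem_image.1 hX
  have h1 := (hφ q hq).1
  have h2 := hs _ h1.1
  have h3 := h1.2
  omega

theorem Rig.mono {Γ Δ : Finset (Finset V)} {X : Finset V} (h : Rig Γ X) (hs : Γ ⊆ Δ) :
    Rig Δ X := by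
  obtain ⟨I, h1, h2⟩ := h
  exact ⟨I, h1.trans hs, h2⟩

/-- 0-extension -/
theorem Rig.extend {Γ : Finset (Finset V)} (hΓ : Pairs Γ) {X : Finset V} (h : Rig Γ X) {v a b : V}
    (hv : v ∉ X) (ha : a ∈ X) (hb : b ∈ X) (hab : a ≠ b) (h1 : {v, a} ∈ Γ) (h2 : {v, b} ∈ Γ) :
    Rig Γ (insert v X) := by
  obtain ⟨I, hI, hs, hin, hc⟩ := h
  have hva : ({v, a} : Finset V) ∉ I := fun hh => hv (hin _ hh (by simp))
  have hvb : ({v, b} : Finset V) ∉ I := fun hh => hv (hin _ hh (by simp))
  have hne : ({v, a} : Finset V) ≠ {v, b} := by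
    intro he
    have : a ∈ ({v, b} : Finset V) := he ▸ (by simp)
    simp only [Finset.mem_insert, Finset.mem_singleton] at this
    rcases this with rfl | rfl
    · exact hv ha
    · exact hab rfl
  refine ⟨insert {v, a} (insert {v, b} I), ?_, ?_, ?_, ?_⟩
  · exact Finset.insert_subset h1 (Finset.insert_subset h2 hI)
  · intro Z hZ
    by_cases hvZ : v ∈ Z
    · have e1 : ins (insert {v, a} (insert {v, b} I)) Z ≤
          ins I (Z.erase v) + (({a, b} : Finset V) ∩ (Z.erase v)).card := by
        unfold ins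
        have hsub : (insert {v, a} (insert {v, b} I)).filter (· ⊆ Z) ⊆
            I.filter (· ⊆ Z.erase v) ∪
              ((({a, b} : Finset V) ∩ (Z.erase v)).image (fun x => ({v, x} : Finset V))) := by
          intro p hp
          simp only [Finset.mem_filter, Finset.mem_insert] at hp
          simp only [Finset.mem_union, Finset.mem_filter, Finset.mem_image, Finset.mem_inter,
            Finset.mem_insert, Finset.mem_singleton, Finset.mem_erase]
          rcases hp with ⟨rfl | rfl | hpI, hpZ⟩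
          · right
            refine ⟨a, ⟨Or.inl rfl, ?_, hpZ (by simp)⟩, rfl⟩
            rintro rfl; exact hv ha
          · right
            refine ⟨b, ⟨Or.inr rfl, ?_, hpZ (by simp)⟩, rfl⟩
            rintro rfl; exact hv hb
          · left
            refine ⟨hpI, fun x hx => Finset.mem_erase.2 ⟨?_, hpZ hx⟩⟩
            rintro rfl
            exact hv (hin _ hpI hx)
        refine (Finset.card_le_card hsub).trans ((Finset.card_union_le _ _).trans ?_)
        exact Nat.add_le_add_left Finset.card_image_le _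
      have e2 : (Z.erase v).card + 1 = Z.card := Finset.card_erase_add_one hvZ
      have e3 : (({a, b} : Finset V) ∩ (Z.erase v)).card ≤ 2 :=
        (Finset.card_le_card Finset.inter_subset_left).trans Finset.card_le_two
      have e4 : (({a, b} : Finset V) ∩ (Z.erase v)).card ≤ (Z.erase v).card :=
        Finset.card_le_card Finset.inter_subset_right
      by_cases hc2 : 2 ≤ (Z.erase v).card
      · have := hs _ hc2
        omega
      · have e5 : ins I (Z.erase v) = 0 := by
          unfold ins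
          rw [Finset.card_eq_zero, Finset.filter_eq_empty_iff]
          intro p hp hpZ
          have := hΓ p (hI hp)
          have := Finset.card_le_card hpZ
          omega
        omega
    · have e1 : ins (insert {v, a} (insert {v, b} I)) Z = ins I Z := by
        unfold ins
        rw [Finset.filter_insert, if_neg (fun hh => hvZ (hh (by simp))),
          Finset.filter_insert, if_neg (fun hh => hvZ (hh (by simp)))]
      rw [e1]
      exact hs Z hZ
  · intro p hp
    simp only [Finset.mem_insert] at hp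
    rcases hp with rfl | rfl | hp
    · exact Finset.insert_subset (Finset.mem_insert_self _ _)
        (Finset.singleton_subset_iff.2 (Finset.mem_insert_of_mem ha))
    · exact Finset.insert_subset (Finset.mem_insert_self _ _)
        (Finset.singleton_subset_iff.2 (Finset.mem_insert_of_mem hb))
    · exact (hin p hp).trans (Finset.subset_insert _ _)
  · rw [Finset.card_insert_of_notMem (by simp [hva, hne]), Finset.card_insert_of_notMem hvb,
      Finset.card_insert_of_notMem hv]
    omega

/-- adding one pair inside a rigid set does not create rigidity -/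
theorem rig_of_rig_insert {Γ : Finset (Finset V)} (hΓ : Pairs Γ) {X U e : Finset V}
    (hX : Rig Γ X) (he : e.card = 2) (heX : e ⊆ X) (hU : ∀ p ∈ Γ, p ⊆ U)
    (h : Rig (insert e Γ) U) : Rig Γ U := by
  classical
  obtain ⟨J, hJΓ, hJs, hJX, hJc⟩ := hX
  obtain ⟨I, hJI, hI⟩ := exists_maxl hJΓ hJs
  have hX2 : 2 ≤ X.card := he ▸ Finset.card_le_card heX
  have hXt : Tight I X := by
    refine ⟨hX2, le_antisymm (hI.2.1 X hX2) ?_⟩
    rw [← hJc]
    refine Nat.add_le_add_right ?_ 3
    calc J.card = ins J X := by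
          unfold ins
          rw [Finset.filter_true_of_mem hJX]
      _ ≤ ins I X := ins_mono hJI X
  have hI' : Maxl (insert e Γ) I := by
    refine ⟨hI.1.trans (Finset.subset_insert _ _), hI.2.1, fun p hp hpI => ?_⟩
    rcases Finset.mem_insert.1 hp with rfl | hp
    · exact not_sp_of_tight hXt heX hpI
    · exact hI.2.2 p hp hpI
  have hΓ' : Pairs (insert e Γ) := by
    intro p hp
    rcases Finset.mem_insert.1 hp with rfl | hp
    · exact he
    · exact hΓ p hp
  obtain ⟨K, hK, hKs, hKU, hKc⟩ := h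
  have h1 := hI'.card_le hΓ' hK hKs
  have hUI : ∀ p ∈ I, p ⊆ U := fun p hp => hU p (hI.1 hp)
  refine ⟨I, hI.1, hI.2.1, hUI, ?_⟩
  by_cases hU2 : 2 ≤ U.card
  · have h2 := hI.2.1 U hU2
    have h3 : ins I U = I.card := by
      unfold ins
      rw [Finset.filter_true_of_mem hUI]
    omega
  · have h4 : X ⊆ U ∨ True := Or.inr trivial
    -- `U` has at most one element: impossible since `J` is nonempty
    exfalso
    have h5 : 0 < J.card := by omega
    obtain ⟨p, hp⟩ := Finset.card_pos.1 h5
    have h6 := Finset.card_le_card (hU p (hJΓ hp))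
    have h7 := hΓ p (hJΓ hp)
    omega

/-- adding pairs inside rigid sets does not create rigidity -/
theorem rig_of_rig_union {Γ Δ : Finset (Finset V)} (hΓ : Pairs Γ) {U : Finset V}
    (hU : ∀ p ∈ Γ, p ⊆ U) (hΔ : ∀ e ∈ Δ, e.card = 2 ∧ e ⊆ U ∧ ∃ X, Rig Γ X ∧ e ⊆ X)
    (h : Rig (Γ ∪ Δ) U) : Rig Γ U := by
  classical
  induction Δ using Finset.induction_on with
  | empty => simpa using h
  | insert e Δ heΔ ih =>
    apply ih (fun e' he' => hΔ e' (Finset.mem_insert_of_mem he'))
    obtain ⟨hc, heU, X, hX, heX⟩ := hΔ e (Finset.mem_insert_self _ _)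
    refine rig_of_rig_insert (X := X) (e := e) ?_ (hX.mono Finset.subset_union_left) hc heX ?_ ?_
    · intro p hp
      rcases Finset.mem_union.1 hp with hp | hp
      · exact hΓ p hp
      · exact (hΔ p (Finset.mem_insert_of_mem hp)).1
    · intro p hp
      rcases Finset.mem_union.1 hp with hp | hp
      · exact hU p hp
      · exact (hΔ p (Finset.mem_insert_of_mem hp)).2.1
    · rwa [Finset.union_insert] at h

end Pool.Agent.H598R2.Cnt
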