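import Mathlib
import Pool.Agent.H598R2.Count

/-!
Further facts on the (2,3)-count matroid: complete graphs minus few edges, gluing, structure of
non-rigid graphs all of whose dependencies contain a given pair.
-/

namespace Pool.Agent.H598R2.Cnt

variable {V : Type*} [DecidableEq V]

theorem Rig.extend_many {Γ : Finset (Finset V)} (hΓ : Pairs Γ) {X : Finset V} (h : Rig Γ X)
    {a b : V} (ha : a ∈ X) (hb : b ∈ X) (hab : a ≠ b) (S : Finset V)
    (h1 : ∀ v ∈ S, v ∉ X → {v, a} ∈ Γ) (h2 : ∀ v ∈ S, v ∉ X → {v, b} ∈ Γ) : Rig Γ (X ∪ S) := by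
  induction S using Finset.induction_on with
  | empty => simpa using h
  | insert v S hv ih =>
    have ih' := ih (fun x hx => h1 x (Finset.mem_insert_of_mem hx))
      (fun x hx => h2 x (Finset.mem_insert_of_mem hx))
    rw [Finset.union_insert]
    by_cases hvX : v ∈ X ∪ S
    · rwa [Finset.insert_eq_of_mem hvX]
    · have hvX' : v ∉ X := fun hh => hvX (Finset.mem_union_left _ hh)
      exact ih'.extend hΓ hvX (Finset.mem_union_left _ ha) (Finset.mem_union_left _ hb) hab
        (h1 v (Finset.mem_insert_self _ _) hvX') (h2 v (Finset.mem_insert_self _ _) hvX')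

/-- restriction of `Γ` to the pairs inside a set containing `X` -/
theorem Rig.filter {Γ : Finset (Finset V)} {X Z : Finset V} (h : Rig Γ X) (hXZ : X ⊆ Z) :
    Rig (Γ.filter (· ⊆ Z)) X := by
  obtain ⟨I, hI, hs, hin, hc⟩ := h
  exact ⟨I, fun p hp => Finset.mem_filter.2 ⟨hI hp, (hin p hp).trans hXZ⟩, hs, hin, hc⟩

/-- gluing two rigid sets with two common elements -/
theorem Rig.glue {Γ : Finset (Finset V)} (hΓ : Pairs Γ) {X Y : Finset V} (hX : Rig Γ X)
    (hY : Rig Γ Y) (h : 2 ≤ (X ∩ Y).card) : Rig Γ (X ∪ Y) := by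
  obtain ⟨a, ha, b, hb, hab⟩ := Finset.one_lt_card.1 h
  rw [Finset.mem_inter] at ha hb
  have hΓ' : Pairs (Γ.filter (· ⊆ X ∪ Y)) := fun p hp => hΓ p (Finset.mem_filter.1 hp).1
  have hX' := hX.filter (Z := X ∪ Y) Finset.subset_union_left
  have hY' := hY.filter (Z := X ∪ Y) Finset.subset_union_right
  refine Rig.mono (Γ := Γ.filter (· ⊆ X ∪ Y)) ?_ (Finset.filter_subset _ _)
  refine rig_of_rig_union (Δ := Y.powersetCard 2) hΓ' (fun p hp => (Finset.mem_filter.1 hp).2)
    (fun e he => ?_) ?_
  · rw [Finset.mem_powersetCard] at he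
    exact ⟨he.2, he.1.trans Finset.subset_union_right, Y, hY', he.1⟩
  · have hP : Pairs (Γ.filter (· ⊆ X ∪ Y) ∪ Y.powersetCard 2) := by
      intro p hp
      rcases Finset.mem_union.1 hp with hp | hp
      · exact hΓ' p hp
      · exact (Finset.mem_powersetCard.1 hp).2
    have hpair : ∀ v ∈ Y, v ∉ X → ∀ c ∈ X, c ∈ Y →
        ({v, c} : Finset V) ∈ Γ.filter (· ⊆ X ∪ Y) ∪ Y.powersetCard 2 := by
      intro v hv hvX c hc hcY
      refine Finset.mem_union_right _ (Finset.mem_powersetCard.2 ⟨?_, ?_⟩)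
      · intro x hx
        simp only [Finset.mem_insert, Finset.mem_singleton] at hx
        rcases hx with rfl | rfl <;> assumption
      · rw [Finset.card_pair]
        rintro rfl
        exact hvX hc
    exact (hX'.mono Finset.subset_union_left).extend_many hP ha.1 hb.1 hab Y
      (fun v hv hvX => hpair v hv hvX a ha.1 ha.2) (fun v hv hvX => hpair v hv hvX b hb.1 hb.2)

/-- gluing many rigid sets to a given one -/
theorem Rig.glue_many {Γ : Finset (Finset V)} (hΓ : Pairs Γ) {X : Finset V} (hX : Rig Γ X)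
    {κ : Type*} (K : Finset κ) (Q : κ → Finset V) (hQ : ∀ i ∈ K, Rig Γ (Q i))
    (h : ∀ i ∈ K, 2 ≤ (X ∩ Q i).card) : Rig Γ (X ∪ K.biUnion Q) := by
  classical
  induction K using Finset.induction_on with
  | empty => simpa using hX
  | insert i K hi ih =>
    have ih' := ih (fun j hj => hQ j (Finset.mem_insert_of_mem hj))
      (fun j hj => h j (Finset.mem_insert_of_mem hj))
    have h1 := ih'.glue hΓ (hQ i (Finset.mem_insert_self _ _))
      ((h i (Finset.mem_insert_self _ _)).trans (Finset.card_le_card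
        (Finset.inter_subset_inter_right Finset.subset_union_left)))
    rw [Finset.biUnion_insert]
    have : X ∪ (Q i ∪ K.biUnion Q) = X ∪ K.biUnion Q ∪ Q i := by
      rw [Finset.union_comm (Q i), Finset.union_assoc]
    rwa [this]

theorem rig_pair {Γ : Finset (Finset V)} {p : Finset V} (hp : p ∈ Γ) (hc : p.card = 2) :
    Rig Γ p := by
  refine ⟨{p}, Finset.singleton_subset_iff.2 hp, ?_, ?_, ?_⟩
  · intro X hX
    have : ins {p} X ≤ 1 := (ins_le_card _ _).trans (by simp)
    by_cases h2 : X.card = 2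
    · omega
    · omega
  · intro q hq
    rw [Finset.mem_singleton.1 hq]
  · rw [Finset.card_singleton, hc]

/-- a complete graph with few edges removed is rigid -/
theorem rig_complete : ∀ (n : ℕ) (Q : Finset V) (F : Finset (Finset V)), Q.card = n + 2 →
    (F.card ≤ n - 1) → (∀ p ∈ F, p ∈ Q.powersetCard 2) → (n = 0 → F = ∅) →
    Rig (Q.powersetCard 2 \ F) Q := by
  intro n
  induction n with
  | zero =>
    intro Q F hQ _ _ hF0
    rw [hF0 rfl, Finset.sdiff_empty]
    exact rig_pair (Finset.mem_powersetCard.2 ⟨subset_rfl, hQ⟩) hQ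
  | succ n ih =>
    intro Q F hQ hF hFQ _
    have hQne : Q.Nonempty := Finset.card_pos.1 (by omega)
    -- choose the vertex to be removed
    obtain ⟨v, hv, hvF⟩ : ∃ v ∈ Q, F = ∅ ∨ ∃ p ∈ F, v ∈ p := by
      by_cases hFe : F = ∅
      · obtain ⟨v, hv⟩ := hQne
        exact ⟨v, hv, Or.inl hFe⟩
      · obtain ⟨p, hp⟩ := Finset.nonempty_iff_ne_empty.2 hFe
        have h1 := Finset.mem_powersetCard.1 (hFQ p hp)
        obtain ⟨v, hv⟩ : p.Nonempty := Finset.card_pos.1 (by omega)
        exact ⟨v, h1.1 hv, Or.inr ⟨p, hp, hv⟩⟩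
    set F' := F.filter (fun p => v ∉ p) with hF'
    have hF'c : F'.card ≤ n - 1 ∧ (n = 0 → F' = ∅) := by
      rcases hvF with h0 | ⟨p, hp, hvp⟩
      · have : F' = ∅ := by rw [hF', h0]; rfl
        rw [this]
        simp
      · have h1 : F'.card < F.card := by
          apply Finset.card_lt_card
          refine ⟨Finset.filter_subset _ _, fun hh => ?_⟩
          have := hh hp
          rw [hF', Finset.mem_filter] at this
          exact this.2 hvp
        refine ⟨by omega, fun h0 => Finset.card_eq_zero.1 (by omega)⟩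
    have hQ' : (Q.erase v).card = n + 2 := by
      rw [Finset.card_erase_of_mem hv]; omega
    have hrig := ih (Q.erase v) F' hQ' hF'c.1 (by
      intro p hp
      rw [hF', Finset.mem_filter] at hp
      have h1 := Finset.mem_powersetCard.1 (hFQ p hp.1)
      refine Finset.mem_powersetCard.2 ⟨fun x hx => Finset.mem_erase.2 ⟨?_, h1.1 hx⟩, h1.2⟩
      rintro rfl
      exact hp.2 hx) hF'c.2
    have hsub : (Q.erase v).powersetCard 2 \ F' ⊆ Q.powersetCard 2 \ F := by
      intro p hp
      rw [Finset.mem_sdiff, Finset.mem_powersetCard] at hp ⊢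
      refine ⟨⟨hp.1.1.trans (Finset.erase_subset _ _), hp.1.2⟩, fun hh => hp.2 ?_⟩
      rw [hF', Finset.mem_filter]
      exact ⟨hh, fun hvp => Finset.notMem_erase v Q (hp.1.1 hvp)⟩
    have hrig' := hrig.mono hsub
    -- two neighbours of `v`
    have hnb : 2 ≤ ((Q.erase v).filter (fun a => ({v, a} : Finset V) ∉ F)).card := by
      have h1 : ((Q.erase v).filter (fun a => ¬ ({v, a} : Finset V) ∉ F)).card ≤ F.card := by
        apply Finset.card_le_card_of_injOn (fun a => ({v, a} : Finset V))
        · intro a ha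
          have := (Finset.mem_filter.1 ha).2
          push Not at this
          exact this
        · intro a ha b hb hab
          have ha' := Finset.mem_erase.1 (Finset.mem_filter.1 ha).1
          have hb' := Finset.mem_erase.1 (Finset.mem_filter.1 hb).1
          have : a ∈ ({v, b} : Finset V) := by
            have h2 : ({v, a} : Finset V) = {v, b} := hab
            rw [← h2]
            simp
          simp only [Finset.mem_insert, Finset.mem_singleton] at this
          exact this.resolve_left ha'.1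
      have h2 := Finset.card_filter_add_card_filter_not (s := Q.erase v)
        (fun a => ({v, a} : Finset V) ∉ F)
      omega
    obtain ⟨a, ha, b, hb, hab⟩ := Finset.one_lt_card.1 hnb
    rw [Finset.mem_filter, Finset.mem_erase] at ha hb
    have hmem : ∀ c, (c ≠ v ∧ c ∈ Q) ∧ ({v, c} : Finset V) ∉ F →
        ({v, c} : Finset V) ∈ Q.powersetCard 2 \ F := by
      rintro c ⟨⟨h1, h2⟩, h3⟩
      refine Finset.mem_sdiff.2 ⟨Finset.mem_powersetCard.2 ⟨?_, ?_⟩, h3⟩
      · intro x hx
        simp only [Finset.mem_insert, Finset.mem_singleton] at hx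
        rcases hx with rfl | rfl <;> assumption
      · rw [Finset.card_pair h1.symm]
    have hP : Pairs (Q.powersetCard 2 \ F) := fun p hp =>
      (Finset.mem_powersetCard.1 (Finset.mem_sdiff.1 hp).1).2
    have := hrig'.extend hP (Finset.notMem_erase v Q) (Finset.mem_erase.2 ha.1)
      (Finset.mem_erase.2 hb.1) hab (hmem a ha) (hmem b hb)
    rwa [Finset.insert_erase hv] at this

/-- A non-rigid graph all of whose dependencies contain a given pair `β` has a set `Y` touching few
pairs. -/
theorem exists_loose {Γ : Finset (Finset V)} (hΓ : Pairs Γ) {U β : Finset V}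
    (hU : ∀ p ∈ Γ, p ⊆ U) (hβ : β ∈ Γ)
    (hS : ∀ X : Finset V, 2 ≤ X.card → ¬ β ⊆ X → ins Γ X + 3 ≤ 2 * X.card)
    (hR : ¬ Rig Γ U) :
    ∃ Y ⊆ U, Y.Nonempty ∧ Disjoint β Y ∧
      (Γ.filter (fun p => ¬ Disjoint p Y)).card + 1 ≤ 2 * Y.card := by
  classical
  have hβc := hΓ β hβ
  have hsβ : Sp ({β} : Finset (Finset V)) := by
    intro X hX
    have : ins {β} X ≤ 1 := (ins_le_card _ _).trans (by simp)
    omega
  obtain ⟨I, hβI, hI⟩ := exists_maxl (Finset.singleton_subset_iff.2 hβ) hsβ
  have hβI' : β ∈ I := hβI (Finset.mem_singleton_self _)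
  have hIU : ∀ p ∈ I, p ⊆ U := fun p hp => hU p (hI.1 hp)
  obtain ⟨X, hX, hβX, hmax⟩ := exists_largest hI.2.1 U hIU hβc
    ⟨β, tight_pair hI.2.1 hβI' hβc, subset_rfl⟩
  have hβU : β ⊆ U := hU β hβ
  have hXU : X ⊆ U := by
    by_contra hn
    obtain ⟨x, hx, hxU⟩ := Finset.not_subset.1 hn
    have h1 : β ⊆ X.erase x := fun y hy => Finset.mem_erase.2
      ⟨fun he => hxU (he ▸ hβU hy), hβX hy⟩
    have h2 : 2 ≤ (X.erase x).card := hβc ▸ Finset.card_le_card h1
    have h3 := hI.2.1 _ h2
    have h4 : ins I (X.erase x) = ins I X := by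
      unfold ins
      congr 1
      ext p
      simp only [Finset.mem_filter]
      refine and_congr_right fun hp => ⟨fun h => h.trans (Finset.erase_subset _ _), fun h y hy => ?_⟩
      exact Finset.mem_erase.2 ⟨fun he => hxU (he ▸ hIU p hp hy), h hy⟩
    have h5 := hX.2
    have h6 := Finset.card_erase_of_mem hx
    have h7 := hX.1
    omega
  -- pairs outside `X` are all in `I`
  have hout : ∀ p ∈ Γ, ¬ p ⊆ X → p ∈ I := by
    intro p hp hpX
    by_contra hpI
    obtain ⟨Z, hZ, hpZ⟩ := exists_tight_of_not_sp hI.2.1 (hI.2.2 p hp hpI)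
    by_cases hβZ : β ⊆ Z
    · exact hpX (hpZ.trans (hmax Z hZ hβZ))
    · have h1 := hS Z hZ.1 hβZ
      have h2 : ins I Z + 1 ≤ ins Γ Z := by
        unfold ins
        rw [← Finset.card_insert_of_notMem (s := I.filter (· ⊆ Z)) (a := p)
          (fun hh => hpI (Finset.mem_filter.1 hh).1)]
        apply Finset.card_le_card
        intro q hq
        rcases Finset.mem_insert.1 hq with rfl | hq
        · exact Finset.mem_filter.2 ⟨hp, hpZ⟩
        · exact Finset.mem_filter.2 ⟨hI.1 (Finset.mem_filter.1 hq).1, (Finset.mem_filter.1 hq).2⟩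
      have h3 := hZ.2
      omega
  have hcardI : I.card = ins I X + (I.filter (fun p => ¬ p ⊆ X)).card :=
    (Finset.card_filter_add_card_filter_not (s := I) (fun p => p ⊆ X)).symm
  have hU2 : 2 ≤ U.card := hβc ▸ Finset.card_le_card hβU
  have hIle := hI.2.1 U hU2
  have hinsU : ins I U = I.card := by
    unfold ins
    rw [Finset.filter_true_of_mem hIU]
  have hlt : I.card + 3 ≠ 2 * U.card := fun he => hR ⟨I, hI.1, hI.2.1, hIU, he⟩
  have hXt := hX.2
  have hdiff : (U \ X).card + X.card = U.card := Finset.card_sdiff_add_card_eq_card hXU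
  have hYeq : (Γ.filter (fun p => ¬ Disjoint p (U \ X))) = I.filter (fun p => ¬ p ⊆ X) := by
    ext p
    simp only [Finset.mem_filter]
    have hiff : p ∈ Γ → (¬ Disjoint p (U \ X) ↔ ¬ p ⊆ X) := by
      intro hp
      rw [not_iff_not, Finset.disjoint_left]
      constructor
      · intro h x hx
        by_contra hxX
        exact h hx (Finset.mem_sdiff.2 ⟨hU p hp hx, hxX⟩)
      · intro h x hx hx'
        exact (Finset.mem_sdiff.1 hx').2 (h hx)
    constructor
    · rintro ⟨h1, h2⟩
      have h3 := (hiff h1).1 h2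
      exact ⟨hout p h1 h3, h3⟩
    · rintro ⟨h1, h2⟩
      exact ⟨hI.1 h1, (hiff (hI.1 h1)).2 h2⟩
  refine ⟨U \ X, Finset.sdiff_subset, ?_, ?_, ?_⟩
  · rw [← Finset.card_pos]
    by_contra h0
    omega
  · exact Finset.disjoint_left.2 fun x hx hx' => (Finset.mem_sdiff.1 hx').2 (hβX hx)
  · rw [hYeq]
    omega

end Pool.Agent.H598R2.Cnt
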