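import Mathlib
import Pool.Agent.H598R2.Count2

/-!
Replacing heavy pairs by large complete graphs.
-/

namespace Pool.Agent.H598R2.Cnt

variable {α κ : Type*} [DecidableEq α] [DecidableEq κ]

/-- lifting a set of old vertices -/
def up (p : Finset α) : Finset (α ⊕ (κ × ℕ)) := p.image Sum.inl

/-- new vertices of the cluster `i` -/
def inner (W : ℕ) (i : κ) : Finset (α ⊕ (κ × ℕ)) := (Finset.range W).image (fun j => Sum.inr (i, j))

/-- the cluster replacing the heavy pair `e i` -/
def clus (e : κ → Finset α) (W : ℕ) (i : κ) : Finset (α ⊕ (κ × ℕ)) := up (e i) ∪ inner W i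

/-- all vertices -/
def bigU (U : Finset α) (K : Finset κ) (W : ℕ) : Finset (α ⊕ (κ × ℕ)) :=
  up U ∪ K.biUnion (inner W)

/-- all pairs -/
def bigG (L : Finset (Finset α)) (K : Finset κ) (e : κ → Finset α) (W : ℕ) :
    Finset (Finset (α ⊕ (κ × ℕ))) :=
  L.image up ∪ K.biUnion (fun i => (clus e W i).powersetCard 2)

theorem up_injective : Function.Injective (up (α := α) (κ := κ)) :=
  Finset.image_injective Sum.inl_injective

theorem card_up (p : Finset α) : (up (κ := κ) p).card = p.card :=
  Finset.card_image_of_injective _ Sum.inl_injective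

theorem up_subset {p q : Finset α} : up (κ := κ) p ⊆ up q ↔ p ⊆ q :=
  Finset.image_subset_image_iff Sum.inl_injective

theorem card_inner (W : ℕ) (i : κ) : (inner (α := α) W i).card = W := by
  rw [inner, Finset.card_image_of_injective, Finset.card_range]
  intro a b h
  simpa using h

theorem mem_up {p : Finset α} {x : α ⊕ (κ × ℕ)} : x ∈ up p ↔ ∃ a ∈ p, x = Sum.inl a := by
  simp [up, eq_comm]

theorem mem_inner {W : ℕ} {i : κ} {x : α ⊕ (κ × ℕ)} :
    x ∈ inner W i ↔ ∃ j < W, x = Sum.inr (i, j) := by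
  simp [inner, eq_comm]

theorem disjoint_up_inner (p : Finset α) (W : ℕ) (i : κ) :
    Disjoint (up (κ := κ) p) (inner W i) := by
  rw [Finset.disjoint_left]
  intro x h h'
  obtain ⟨a, _, rfl⟩ := mem_up.1 h
  obtain ⟨j, _, h2⟩ := mem_inner.1 h'
  simp at h2

theorem card_clus {e : κ → Finset α} {W : ℕ} {i : κ} (h : (e i).card = 2) :
    (clus e W i).card = W + 2 := by
  rw [clus, Finset.card_union_of_disjoint (disjoint_up_inner _ _ _), card_up, h, card_inner]
  omega

theorem card_biUnion_inner (K : Finset κ) (W : ℕ) :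
    (K.biUnion (inner (α := α) W)).card = K.card * W := by
  rw [Finset.card_biUnion, Finset.sum_congr rfl (fun i _ => card_inner W i), Finset.sum_const,
    smul_eq_mul]
  intro i _ j _ hne
  change Disjoint _ _
  rw [Finset.disjoint_left]
  intro x h h'
  obtain ⟨a, _, rfl⟩ := mem_inner.1 h
  obtain ⟨b, _, h2⟩ := mem_inner.1 h'
  simp only [Sum.inr.injEq, Prod.mk.injEq] at h2
  exact hne h2.1

theorem card_bigU (U : Finset α) (K : Finset κ) (W : ℕ) :
    (bigU U K W).card = U.card + K.card * W := by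
  rw [bigU, Finset.card_union_of_disjoint, card_up, card_biUnion_inner]
  rw [Finset.disjoint_left]
  intro x h h'
  obtain ⟨i, _, h2⟩ := Finset.mem_biUnion.1 h'
  exact Finset.disjoint_left.1 (disjoint_up_inner U W i) h h2

theorem pairs_bigG {L : Finset (Finset α)} (hL : Pairs L) (K : Finset κ) (e : κ → Finset α)
    (W : ℕ) : Pairs (bigG L K e W) := by
  intro p hp
  rcases Finset.mem_union.1 hp with hp | hp
  · obtain ⟨q, hq, rfl⟩ := Finset.mem_image.1 hp
    rw [card_up, hL q hq]
  · obtain ⟨i, _, h⟩ := Finset.mem_biUnion.1 hp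
    exact (Finset.mem_powersetCard.1 h).2

theorem clus_subset {e : κ → Finset α} {U : Finset α} {K : Finset κ} {W : ℕ} {i : κ} (hi : i ∈ K)
    (h : e i ⊆ U) : clus e W i ⊆ bigU U K W := by
  intro x hx
  rcases Finset.mem_union.1 hx with hx | hx
  · exact Finset.mem_union_left _ (up_subset.2 h hx)
  · exact Finset.mem_union_right _ (Finset.mem_biUnion.2 ⟨i, hi, hx⟩)

theorem bigG_subset {L : Finset (Finset α)} {U : Finset α} (hL : ∀ p ∈ L, p ⊆ U)
    {K : Finset κ} {e : κ → Finset α} (he : ∀ i ∈ K, e i ⊆ U) {W : ℕ} {p : Finset (α ⊕ (κ × ℕ))}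
    (hp : p ∈ bigG L K e W) : p ⊆ bigU U K W := by
  rcases Finset.mem_union.1 hp with hp | hp
  · obtain ⟨q, hq, rfl⟩ := Finset.mem_image.1 hp
    exact (up_subset.2 (hL q hq)).trans Finset.subset_union_left
  · obtain ⟨i, hi, h⟩ := Finset.mem_biUnion.1 hp
    exact (Finset.mem_powersetCard.1 h).1.trans (clus_subset hi (he i hi))

/-- sparsity is preserved by lifting -/
theorem sp_up {I : Finset (Finset α)} (hP : Pairs I) (hI : Sp I) :
    Sp (I.image (up (κ := κ))) := by
  intro X hX
  classical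
  set X' : Finset α := X.preimage Sum.inl Sum.inl_injective.injOn with hX'
  have h1 : ins (I.image (up (κ := κ))) X ≤ ins I X' := by
    unfold ins
    have : (I.image (up (κ := κ))).filter (· ⊆ X) ⊆ (I.filter (· ⊆ X')).image up := by
      intro p hp
      rw [Finset.mem_filter] at hp
      obtain ⟨q, hq, rfl⟩ := Finset.mem_image.1 hp.1
      refine Finset.mem_image_of_mem _ (Finset.mem_filter.2 ⟨hq, fun a ha => ?_⟩)
      rw [hX', Finset.mem_preimage]
      exact hp.2 (mem_up.2 ⟨a, ha, rfl⟩)
    exact (Finset.card_le_card this).trans Finset.card_image_le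
  have h2 : X'.card ≤ X.card := by
    rw [← card_up (κ := κ) X']
    apply Finset.card_le_card
    intro x hx
    obtain ⟨a, ha, rfl⟩ := mem_up.1 hx
    rwa [hX', Finset.mem_preimage] at ha
  by_cases h3 : 2 ≤ X'.card
  · have := hI X' h3
    omega
  · have h4 : ins I X' = 0 := by
      unfold ins
      rw [Finset.card_eq_zero, Finset.filter_eq_empty_iff]
      intro p hp hpX
      have h5 := hP p hp
      have h6 := Finset.card_le_card hpX
      omega
    omega

theorem rig_up {Γ : Finset (Finset α)} (hP : Pairs Γ) {X : Finset α} (h : Rig Γ X) :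
    Rig (Γ.image (up (κ := κ))) (up X) := by
  obtain ⟨I, hI, hs, hin, hc⟩ := h
  refine ⟨I.image up, Finset.image_subset_image hI, sp_up (fun p hp => hP p (hI hp)) hs, ?_, ?_⟩
  · intro p hp
    obtain ⟨q, hq, rfl⟩ := Finset.mem_image.1 hp
    exact up_subset.2 (hin q hq)
  · rw [Finset.card_image_of_injective _ up_injective, card_up, hc]

theorem expand_rigid {L : Finset (Finset α)} {U : Finset α} (hLP : Pairs L)
    (hL : ∀ p ∈ L, p ⊆ U) {K : Finset κ} {e : κ → Finset α} (he : ∀ i ∈ K, e i ⊆ U)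
    (hec : ∀ i ∈ K, (e i).card = 2) {W : ℕ} (hW : 1 ≤ W) {F : Finset (Finset (α ⊕ (κ × ℕ)))}
    (hF : F.card ≤ W - 1) (h : Rig (K.image e ∪ L.filter (fun p => up p ∉ F)) U) :
    Rig (bigG L K e W \ F) (bigU U K W) := by
  have hPG : Pairs (bigG L K e W \ F) := fun p hp =>
    pairs_bigG hLP K e W p (Finset.mem_sdiff.1 hp).1
  have hclus : ∀ i ∈ K, Rig (bigG L K e W \ F) (clus e W i) := by
    intro i hi
    have h1 := rig_complete W (clus e W i) (F ∩ (clus e W i).powersetCard 2)
      (card_clus (hec i hi)) ((Finset.card_le_card Finset.inter_subset_left).trans hF)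
      (fun p hp => (Finset.mem_inter.1 hp).2) (fun h0 => by omega)
    refine h1.mono ?_
    intro p hp
    rw [Finset.mem_sdiff, Finset.mem_inter] at hp
    refine Finset.mem_sdiff.2 ⟨Finset.mem_union_right _ (Finset.mem_biUnion.2 ⟨i, hi, hp.1⟩), ?_⟩
    exact fun hpF => hp.2 ⟨hpF, hp.1⟩
  refine rig_of_rig_union (Δ := (K.image e).image up) hPG
    (fun p hp => bigG_subset hL he (Finset.mem_sdiff.1 hp).1) ?_ ?_
  · intro p hp
    obtain ⟨q, hq, rfl⟩ := Finset.mem_image.1 hp
    obtain ⟨i, hi, rfl⟩ := Finset.mem_image.1 hq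
    exact ⟨by rw [card_up, hec i hi], (up_subset.2 (he i hi)).trans Finset.subset_union_left,
      clus e W i, hclus i hi, Finset.subset_union_left⟩
  · have hP0 : Pairs (K.image e ∪ L.filter (fun p => up (κ := κ) p ∉ F)) := by
      intro p hp
      rcases Finset.mem_union.1 hp with hp | hp
      · obtain ⟨i, hi, rfl⟩ := Finset.mem_image.1 hp
        exact hec i hi
      · exact hLP p (Finset.mem_filter.1 hp).1
    have h1 := rig_up (κ := κ) hP0 h
    have hsub : (K.image e ∪ L.filter (fun p => up (κ := κ) p ∉ F)).image up ⊆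
        (bigG L K e W \ F) ∪ (K.image e).image up := by
      intro p hp
      obtain ⟨q, hq, rfl⟩ := Finset.mem_image.1 hp
      rcases Finset.mem_union.1 hq with hq | hq
      · exact Finset.mem_union_right _ (Finset.mem_image_of_mem _ hq)
      · rw [Finset.mem_filter] at hq
        exact Finset.mem_union_left _ (Finset.mem_sdiff.2
          ⟨Finset.mem_union_left _ (Finset.mem_image_of_mem _ hq.1), hq.2⟩)
    have h2 := h1.mono hsub
    have hP2 : Pairs ((bigG L K e W \ F) ∪ (K.image e).image up) := by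
      intro p hp
      rcases Finset.mem_union.1 hp with hp | hp
      · exact hPG p hp
      · obtain ⟨q, hq, rfl⟩ := Finset.mem_image.1 hp
        obtain ⟨i, hi, rfl⟩ := Finset.mem_image.1 hq
        rw [card_up, hec i hi]
    have h3 := h2.glue_many hP2 K (clus e W)
      (fun i hi => (hclus i hi).mono Finset.subset_union_left) (fun i hi => by
        rw [← hec i hi, ← card_up (κ := κ) (e i)]
        apply Finset.card_le_card
        exact Finset.subset_inter (up_subset.2 (he i hi)) Finset.subset_union_left)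
    have h4 : up U ∪ K.biUnion (clus e W) = bigU U K W := by
      ext x
      simp only [bigU, clus, Finset.mem_union, Finset.mem_biUnion]
      constructor
      · rintro (hx | ⟨i, hi, hx | hx⟩)
        · exact Or.inl hx
        · exact Or.inl (up_subset.2 (he i hi) hx)
        · exact Or.inr ⟨i, hi, hx⟩
      · rintro (hx | ⟨i, hi, hx⟩)
        · exact Or.inl hx
        · exact Or.inr ⟨i, hi, Or.inr hx⟩
    rwa [h4] at h3

theorem expand_flexible {L : Finset (Finset α)} {U : Finset α}
    (hL : ∀ p ∈ L, p ⊆ U) {K : Finset κ} {e : κ → Finset α} (he : ∀ i ∈ K, e i ⊆ U)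
    (hec : ∀ i ∈ K, (e i).card = 2) {W : ℕ} {F : Finset (Finset (α ⊕ (κ × ℕ)))}
    {Y : Finset α} (hY : Y ⊆ U) (hY2 : 2 ≤ (U \ Y).card)
    (hK : (K.filter (fun i => ¬ Disjoint (e i) Y)).card + 1 ≤ 2 * Y.card)
    (hLY : ∀ p ∈ L, up p ∉ F → Disjoint p Y) :
    ¬ Rig (bigG L K e W \ F) (bigU U K W) := by
  rintro ⟨I, hI, hs, hin, hc⟩
  set K1 := K.filter (fun i => ¬ Disjoint (e i) Y) with hK1
  set K0 := K.filter (fun i => Disjoint (e i) Y) with hK0
  set X0 : Finset (α ⊕ (κ × ℕ)) := bigU (U \ Y) K0 W with hX0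
  have hKc : K0.card + K1.card = K.card := Finset.card_filter_add_card_filter_not _
  have hdis : ∀ p : Finset α, p ⊆ U → Disjoint p Y → p ⊆ U \ Y := fun p hp hd x hx =>
    Finset.mem_sdiff.2 ⟨hp hx, Finset.disjoint_left.1 hd hx⟩
  have hcover : I ⊆ I.filter (· ⊆ X0) ∪ K1.biUnion (fun i => I.filter (· ⊆ clus e W i)) := by
    intro p hp
    have hpG := Finset.mem_sdiff.1 (hI hp)
    rw [Finset.mem_union]
    rcases Finset.mem_union.1 hpG.1 with h | h
    · left
      obtain ⟨q, hq, rfl⟩ := Finset.mem_image.1 h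
      refine Finset.mem_filter.2 ⟨hp, ?_⟩
      exact (up_subset.2 (hdis q (hL q hq) (hLY q hq hpG.2))).trans Finset.subset_union_left
    · obtain ⟨i, hi, h⟩ := Finset.mem_biUnion.1 h
      have h1 := (Finset.mem_powersetCard.1 h).1
      by_cases hd : Disjoint (e i) Y
      · left
        refine Finset.mem_filter.2 ⟨hp, h1.trans ?_⟩
        exact clus_subset (Finset.mem_filter.2 ⟨hi, hd⟩) (hdis _ (he i hi) hd)
      · right
        exact Finset.mem_biUnion.2 ⟨i, Finset.mem_filter.2 ⟨hi, hd⟩,
          Finset.mem_filter.2 ⟨hp, h1⟩⟩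
  have h1 : I.card ≤ ins I X0 + ∑ i ∈ K1, ins I (clus e W i) :=
    (Finset.card_le_card hcover).trans ((Finset.card_union_le _ _).trans
      (Nat.add_le_add_left Finset.card_biUnion_le _))
  have hX0c : X0.card = (U \ Y).card + K0.card * W := card_bigU _ _ _
  have h2 := hs X0 (by omega)
  have h3 : ∑ i ∈ K1, ins I (clus e W i) ≤ ∑ i ∈ K1, (2 * W + 1) := by
    refine Finset.sum_le_sum fun i hi => ?_
    have hi' := (Finset.mem_filter.1 hi).1
    have h4 := card_clus (W := W) (hec i hi')
    have h5 := hs (clus e W i) (by omega)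
    omega
  rw [Finset.sum_const, smul_eq_mul] at h3
  rw [card_bigU] at hc
  have h6 : (U \ Y).card + Y.card = U.card := Finset.card_sdiff_add_card_eq_card hY
  rw [hX0c] at h2
  have h7 : K.card * W = K0.card * W + K1.card * W := by rw [← hKc]; ring
  have h8 : K1.card * (2 * W + 1) = 2 * (K1.card * W) + K1.card := by ring
  rw [h7] at hc
  rw [h8] at h3
  omega

end Pool.Agent.H598R2.Cnt
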