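import Mathlib
import Pool.Agent.H598R2.Count2

/-!
The base gadget: a graph built from a graph `H` (vertex set `VH`, edge set `EH`) and a number `k`,
with undeletable (heavy) pairs and one light pair for each edge of `H`.
-/

namespace Pool.Agent.H598R2.Cnt

/-- vertices of the base gadget -/
inductive Vx
  | b (i : Bool)
  | r (i : ℕ)
  | w (t j : ℕ)
  | z (u v : ℕ)
  | g (u v : ℕ)
  deriving DecidableEq, Inhabited

open Vx

/-- heavy in-neighbours -/
def inn (k : ℕ) : Vx → Finset Vx
  | b false => ∅
  | b true => {b false}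
  | r _ => {b false}
  | w t j => {if j = 0 then r 0 else w t (j - 1), if j < k then r (j + 1) else b true}
  | z u v => {w u k, w v k}
  | g _ _ => {b false, b true}

/-- light in-neighbours -/
def lin' : Vx → Finset Vx
  | g u v => {z u v}
  | _ => ∅

/-- height -/
def ht (k : ℕ) : Vx → ℕ
  | b false => 0
  | b true => 1
  | r _ => 2
  | w _ j => 3 + j
  | z _ _ => k + 4
  | g _ _ => k + 5

/-- vertex set -/
def US (VH : Finset ℕ) (EH : Finset (ℕ × ℕ)) (k : ℕ) : Finset Vx :=
  {b false, b true} ∪ (Finset.range (k + 1)).image r ∪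
    (VH ×ˢ Finset.range (k + 1)).image (fun p => w p.1 p.2) ∪
    EH.image (fun e => z e.1 e.2) ∪ EH.image (fun e => g e.1 e.2)

/-- heavy arcs -/
def arcs (VH : Finset ℕ) (EH : Finset (ℕ × ℕ)) (k : ℕ) : Finset (Vx × Vx) :=
  (US VH EH k).biUnion (fun x => (inn k x).image (fun y => (x, y)))

/-- the pair of an arc -/
def pr (a : Vx × Vx) : Finset Vx := {a.1, a.2}

/-- heavy pairs -/
def Hv (VH : Finset ℕ) (EH : Finset (ℕ × ℕ)) (k : ℕ) : Finset (Finset Vx) :=
  (arcs VH EH k).image pr

/-- the light pair of an edge -/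
def lp (e : ℕ × ℕ) : Finset Vx := {z e.1 e.2, g e.1 e.2}

/-- light pairs -/
def Lt (EH : Finset (ℕ × ℕ)) : Finset (Finset Vx) := EH.image lp

theorem lp_inj : Function.Injective lp := by
  intro e f h
  have : z e.1 e.2 ∈ lp f := h ▸ (by simp [lp])
  simp only [lp, Finset.mem_insert, Finset.mem_singleton, z.injEq, reduceCtorEq, or_false] at this
  exact Prod.ext this.1 this.2

variable {VH : Finset ℕ} {EH : Finset (ℕ × ℕ)} {k : ℕ}

theorem mem_arcs {a : Vx × Vx} : a ∈ arcs VH EH k ↔ a.1 ∈ US VH EH k ∧ a.2 ∈ inn k a.1 := by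
  simp only [arcs, Finset.mem_biUnion, Finset.mem_image]
  constructor
  · rintro ⟨x, hx, y, hy, rfl⟩
    exact ⟨hx, hy⟩
  · rintro ⟨h1, h2⟩
    exact ⟨a.1, h1, a.2, h2, rfl⟩

theorem ht_inn {x y : Vx} (h : y ∈ inn k x) : ht k y < ht k x := by
  cases x with
  | b i =>
    cases i
    · simp [inn] at h
    · simp only [inn, Finset.mem_singleton] at h
      subst h
      simp [ht]
  | r i =>
    simp only [inn, Finset.mem_singleton] at h
    subst h
    simp [ht]
  | w t j =>
    simp only [inn, Finset.mem_insert, Finset.mem_singleton] at h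
    rcases h with rfl | rfl
    · split_ifs with h0
      · simp [ht]; omega
      · simp [ht]; omega
    · split_ifs with h0
      · simp [ht]; omega
      · simp [ht]; omega
  | z u v =>
    simp only [inn, Finset.mem_insert, Finset.mem_singleton] at h
    rcases h with rfl | rfl <;> simp only [ht] <;> omega
  | g u v =>
    simp only [inn, Finset.mem_insert, Finset.mem_singleton] at h
    rcases h with rfl | rfl <;> simp only [ht] <;> omega

theorem ht_lin {x y : Vx} (h : y ∈ lin' x) : ht k y < ht k x := by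
  cases x <;> simp only [lin', Finset.notMem_empty, Finset.mem_singleton] at h
  subst h
  simp [ht]

theorem pr_inj {a a' : Vx × Vx} (h : ht k a.2 < ht k a.1) (h' : ht k a'.2 < ht k a'.1)
    (he : pr a = pr a') : a = a' := by
  have h1 : a.1 ∈ pr a' := he ▸ (by simp [pr])
  have h2 : a.2 ∈ pr a' := he ▸ (by simp [pr])
  simp only [pr, Finset.mem_insert, Finset.mem_singleton] at h1 h2
  rcases h1 with h1 | h1 <;> rcases h2 with h2 | h2
  · rw [h1, h2] at h; omega
  · exact Prod.ext h1 h2
  · rw [h1, h2] at h; omega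
  · rw [h1, h2] at h; omega

theorem card_pr {a : Vx × Vx} (h : ht k a.2 < ht k a.1) : (pr a).card = 2 := by
  rw [pr, Finset.card_pair]
  intro he
  rw [he] at h
  omega

theorem pairs_HL (VH : Finset ℕ) (EH : Finset (ℕ × ℕ)) (k : ℕ) :
    Pairs (Hv VH EH k ∪ Lt EH) := by
  intro p hp
  rcases Finset.mem_union.1 hp with hp | hp
  · obtain ⟨a, ha, rfl⟩ := Finset.mem_image.1 hp
    exact card_pr (ht_inn (mem_arcs.1 ha).2)
  · obtain ⟨e, he, rfl⟩ := Finset.mem_image.1 hp
    rw [lp, Finset.card_pair (by simp)]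

/-- the ground pair -/
def gp : Finset Vx := {b true, b false}

theorem gp_mem : gp ∈ Hv VH EH k := by
  refine Finset.mem_image.2 ⟨(b true, b false), mem_arcs.2 ⟨?_, ?_⟩, rfl⟩
  · simp [US]
  · simp [inn]

theorem mem_US {x : Vx} : x ∈ US VH EH k ↔ match x with
    | b _ => True
    | r i => i ≤ k
    | w t j => t ∈ VH ∧ j ≤ k
    | z u v => (u, v) ∈ EH
    | g u v => (u, v) ∈ EH := by
  cases x with
  | b i => cases i <;> simp [US]
  | r i => simp [US, Nat.lt_succ_iff]
  | w t j => simp [US, Nat.lt_succ_iff]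
  | z u v => simp [US]
  | g u v => simp [US]

/-- hypotheses on `H` -/
structure GoodH (VH : Finset ℕ) (EH : Finset (ℕ × ℕ)) (k : ℕ) : Prop where
  lt : ∀ e ∈ EH, e.1 < e.2
  left : ∀ e ∈ EH, e.1 ∈ VH
  right : ∀ e ∈ EH, e.2 ∈ VH
  pos : 1 ≤ k

theorem inn_subset (hH : GoodH VH EH k) {x : Vx} (hx : x ∈ US VH EH k) :
    inn k x ⊆ US VH EH k := by
  intro y hy
  have hk := hH.pos
  cases x with
  | b i =>
    cases i
    · simp [inn] at hy
    · simp only [inn, Finset.mem_singleton] at hy
      subst hy
      simp [mem_US]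
  | r i =>
    simp only [inn, Finset.mem_singleton] at hy
    subst hy
    simp [mem_US]
  | w t j =>
    simp only [mem_US] at hx
    simp only [inn, Finset.mem_insert, Finset.mem_singleton] at hy
    rcases hy with rfl | rfl
    · split_ifs with h0
      · simp [mem_US]
      · simp only [mem_US]
        exact ⟨hx.1, by omega⟩
    · split_ifs with h0
      · simp only [mem_US]; omega
      · simp [mem_US]
  | z u v =>
    simp only [mem_US] at hx
    simp only [inn, Finset.mem_insert, Finset.mem_singleton] at hy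
    rcases hy with rfl | rfl
    · simp only [mem_US]
      exact ⟨hH.left _ hx, le_rfl⟩
    · simp only [mem_US]
      exact ⟨hH.right _ hx, le_rfl⟩
  | g u v =>
    simp only [inn, Finset.mem_insert, Finset.mem_singleton] at hy
    rcases hy with rfl | rfl <;> simp [mem_US]

theorem HL_subset (hH : GoodH VH EH k) {p : Finset Vx} (hp : p ∈ Hv VH EH k ∪ Lt EH) :
    p ⊆ US VH EH k := by
  rcases Finset.mem_union.1 hp with hp | hp
  · obtain ⟨a, ha, rfl⟩ := Finset.mem_image.1 hp
    have h1 := mem_arcs.1 ha
    intro y hy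
    simp only [pr, Finset.mem_insert, Finset.mem_singleton] at hy
    rcases hy with rfl | rfl
    · exact h1.1
    · exact inn_subset hH h1.1 h1.2
  · obtain ⟨e, he, rfl⟩ := Finset.mem_image.1 hp
    intro y hy
    simp only [lp, Finset.mem_insert, Finset.mem_singleton] at hy
    rcases hy with rfl | rfl <;> simpa [mem_US] using he

theorem card_inn_le (x : Vx) : (inn k x).card ≤ 2 := by
  cases x with
  | b i => cases i <;> simp [inn]
  | r i => simp [inn]
  | w t j => exact Finset.card_le_two
  | z u v => exact Finset.card_le_two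
  | g u v => exact Finset.card_le_two

/-- dependencies contain the ground pair -/
theorem sparse_away {X : Finset Vx} (hX : 2 ≤ X.card) (hg : ¬ gp ⊆ X) :
    ins (Hv VH EH k ∪ Lt EH) X + 3 ≤ 2 * X.card := by
  -- number of in-neighbours inside `X`
  have h1 : ins (Hv VH EH k ∪ Lt EH) X ≤ ∑ x ∈ X, ((inn k x ∪ lin' x) ∩ X).card := by
    have hsub : (Hv VH EH k ∪ Lt EH).filter (· ⊆ X) ⊆
        X.biUnion (fun x => ((inn k x ∪ lin' x) ∩ X).image (fun y => pr (x, y))) := by
      intro p hp
      rw [Finset.mem_filter] at hp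
      obtain ⟨hp, hpX⟩ := hp
      rw [Finset.mem_biUnion]
      rcases Finset.mem_union.1 hp with hp | hp
      · obtain ⟨a, ha, rfl⟩ := Finset.mem_image.1 hp
        have h1 := mem_arcs.1 ha
        refine ⟨a.1, hpX (by simp [pr]), Finset.mem_image.2 ⟨a.2, ?_, rfl⟩⟩
        exact Finset.mem_inter.2 ⟨Finset.mem_union_left _ h1.2, hpX (by simp [pr])⟩
      · obtain ⟨e, he, rfl⟩ := Finset.mem_image.1 hp
        refine ⟨g e.1 e.2, hpX (by simp [lp]), Finset.mem_image.2 ⟨z e.1 e.2, ?_, ?_⟩⟩
        · exact Finset.mem_inter.2 ⟨Finset.mem_union_right _ (by simp [lin']),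
            hpX (by simp [lp])⟩
        · simp [pr, lp, Finset.pair_comm]
    refine (Finset.card_le_card hsub).trans (Finset.card_biUnion_le.trans ?_)
    exact Finset.sum_le_sum fun x _ => Finset.card_image_le
  have hlow : ∀ x y : Vx, y ∈ inn k x ∪ lin' x → ht k y < ht k x := by
    intro x y h
    rcases Finset.mem_union.1 h with h | h
    · exact ht_inn h
    · exact ht_lin h
  have hd : ∀ x ∈ X, ((inn k x ∪ lin' x) ∩ X).card ≤ 2 := by
    intro x hx
    cases x with
    | g u v =>
      have : (inn k (g u v) ∪ lin' (g u v)) ∩ X ⊆ (gp ∩ X) ∪ {z u v} := by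
        intro y hy
        simp only [inn, lin', gp, Finset.mem_inter, Finset.mem_union, Finset.mem_insert,
          Finset.mem_singleton] at hy ⊢
        tauto
      refine (Finset.card_le_card this).trans ((Finset.card_union_le _ _).trans ?_)
      have h2 : (gp ∩ X).card < 2 := by
        have h3 : gp.card = 2 := by simp [gp]
        rw [← h3]
        refine Finset.card_lt_card ⟨Finset.inter_subset_left, fun h => hg ?_⟩
        exact fun y hy => (Finset.mem_inter.1 (h hy)).2
      rw [Finset.card_singleton]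
      omega
    | b i =>
      refine (Finset.card_le_card Finset.inter_subset_left).trans ?_
      simpa [lin'] using card_inn_le (k := k) (b i)
    | r i =>
      refine (Finset.card_le_card Finset.inter_subset_left).trans ?_
      simpa [lin'] using card_inn_le (k := k) (r i)
    | w t j =>
      refine (Finset.card_le_card Finset.inter_subset_left).trans ?_
      simpa [lin'] using card_inn_le (k := k) (w t j)
    | z u v =>
      refine (Finset.card_le_card Finset.inter_subset_left).trans ?_
      simpa [lin'] using card_inn_le (k := k) (z u v)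
  obtain ⟨x0, hx0, hmin0⟩ := Finset.exists_min_image X (ht k) (Finset.card_pos.1 (by omega))
  obtain ⟨x1, hx1, hmin1⟩ := Finset.exists_min_image (X.erase x0) (ht k)
    (Finset.card_pos.1 (by rw [Finset.card_erase_of_mem hx0]; omega))
  have hx1' := Finset.mem_erase.1 hx1
  have hd0 : ((inn k x0 ∪ lin' x0) ∩ X).card = 0 := by
    rw [Finset.card_eq_zero, Finset.eq_empty_iff_forall_notMem]
    intro y hy
    rw [Finset.mem_inter] at hy
    have h2 := hlow _ _ hy.1
    have h3 := hmin0 y hy.2
    omega
  have hd1 : ((inn k x1 ∪ lin' x1) ∩ X).card ≤ 1 := by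
    rw [← Finset.card_singleton x0]
    apply Finset.card_le_card
    intro y hy
    rw [Finset.mem_inter] at hy
    have h2 := hlow _ _ hy.1
    rw [Finset.mem_singleton]
    by_contra hne
    have h3 := hmin1 y (Finset.mem_erase.2 ⟨hne, hy.2⟩)
    omega
  have hsum : ∑ x ∈ X, ((inn k x ∪ lin' x) ∩ X).card ≤ 1 + 2 * (X.card - 2) := by
    rw [← Finset.add_sum_erase X _ hx0, ← Finset.add_sum_erase (X.erase x0) _ hx1, hd0]
    have h2 : ∑ x ∈ (X.erase x0).erase x1, ((inn k x ∪ lin' x) ∩ X).card ≤
        ∑ x ∈ (X.erase x0).erase x1, 2 := by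
      refine Finset.sum_le_sum fun x hx => hd x ?_
      exact Finset.mem_of_mem_erase (Finset.mem_of_mem_erase hx)
    rw [Finset.sum_const, smul_eq_mul, Finset.card_erase_of_mem hx1,
      Finset.card_erase_of_mem hx0] at h2
    omega
  omega

end Pool.Agent.H598R2.Cnt
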