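import Mathlib
import Pool.Agent.H598R2.Gadget

/-!
The two counting theorems on the base gadget.
-/

namespace Pool.Agent.H598R2.Cnt

open Vx

variable {VH : Finset ℕ} {EH : Finset (ℕ × ℕ)} {k : ℕ}

/-- number of edges of `H` inside `A` -/
def eIn (EH : Finset (ℕ × ℕ)) (A : Finset ℕ) : ℕ := (EH.filter (fun e => e.1 ∈ A ∧ e.2 ∈ A)).card

theorem card_inn (hH : GoodH VH EH k) {x : Vx} (hx : x ∈ US VH EH k) (hb : x ∉ gp)
    (hr : ∀ i, x ≠ r i) : (inn k x).card = 2 := by
  have hk := hH.pos
  cases x with
  | b i => cases i <;> simp [gp] at hb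
  | r i => exact absurd rfl (hr i)
  | w t j =>
    rw [inn, Finset.card_pair]
    split_ifs with h1 h2 h2
    · simp
    · omega
    · simp
    · simp
  | z u v =>
    rw [inn, Finset.card_pair]
    simp only [mem_US] at hx
    have := hH.lt _ hx
    simp only [ne_eq, w.injEq, and_true]
    exact this.ne
  | g u v =>
    rw [inn, Finset.card_pair]
    simp

/-- the arc leaving `Y` on the chain of `t` -/
theorem exists_out {Y : Finset Vx} {i t : ℕ} (hi : i ≤ k) (hiY : r i ∈ Y) (ht : w t k ∉ Y) :
    ∃ j ≤ k, w t j ∉ Y ∧ ∃ y ∈ inn k (w t j), y ∈ Y := by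
  classical
  obtain ⟨j0, hj0, hrj⟩ : ∃ j0 ≤ k, r i ∈ inn k (w t j0) := by
    rcases Nat.eq_zero_or_pos i with rfl | hpos
    · exact ⟨0, Nat.zero_le _, by simp [inn]⟩
    · refine ⟨i - 1, by omega, ?_⟩
      have h1 : i - 1 < k := by omega
      have h2 : i - 1 + 1 = i := by omega
      simp [inn, h1, h2]
  by_cases hw : w t j0 ∈ Y
  · have hex : ∃ j, j0 < j ∧ w t j ∉ Y :=
      ⟨k, lt_of_le_of_ne hj0 (fun h => ht (h ▸ hw)), ht⟩
    obtain ⟨h1, h2⟩ := Nat.find_spec hex
    set j := Nat.find hex with hj
    have hjk : j ≤ k := Nat.find_min' hex ⟨lt_of_le_of_ne hj0 (fun h => ht (h ▸ hw)), ht⟩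
    refine ⟨j, hjk, h2, w t (j - 1), ?_, ?_⟩
    · have : j ≠ 0 := by omega
      simp [inn, this]
    · by_contra hn
      rcases Nat.lt_or_ge j0 (j - 1) with h3 | h3
      · exact Nat.find_min hex (show j - 1 < Nat.find hex by omega) ⟨h3, hn⟩
      · have : j - 1 = j0 := by omega
        rw [this] at hn
        exact hn hw
  · exact ⟨j0, hj0, hw, r i, hrj, hiY⟩

theorem lower (hH : GoodH VH EH k) (Fl : Finset (Finset Vx))
    (hR : ¬ Rig (Hv VH EH k ∪ (Lt EH \ Fl)) (US VH EH k)) :
    ∃ A ⊆ VH, A.card ≤ k ∧ EH.card ≤ (Lt EH ∩ Fl).card + eIn EH A + (k - A.card) := by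
  classical
  set Γ := Hv VH EH k ∪ (Lt EH \ Fl) with hΓ
  have hsub : Γ ⊆ Hv VH EH k ∪ Lt EH := Finset.union_subset_union_right Finset.sdiff_subset
  obtain ⟨Y, hYU, hYne, hYg, hYc⟩ := exists_loose (Γ := Γ) (β := gp)
    (fun p hp => pairs_HL VH EH k p (hsub hp)) (fun p hp => HL_subset hH (hsub hp))
    (Finset.mem_union_left _ gp_mem)
    (fun X hX hg => (Nat.add_le_add_right (ins_mono hsub X) 3).trans (sparse_away hX hg)) hR
  have hYg' : ∀ x ∈ Y, x ∉ gp := fun x hx hx' => Finset.disjoint_left.1 hYg hx' hx
  set A := VH.filter (fun t => w t k ∉ Y) with hA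
  set a1 := (arcs VH EH k).filter (fun a => a.1 ∈ Y) with ha1
  set a2 := (arcs VH EH k).filter (fun a => a.1 ∉ Y ∧ a.2 ∈ Y) with ha2
  set E2 := EH.filter (fun e => z e.1 e.2 ∉ Y ∧ (w e.1 k ∈ Y ∨ w e.2 k ∈ Y)) with hE2
  set E3 := EH.filter (fun e => lp e ∉ Fl ∧ z e.1 e.2 ∈ Y) with hE3
  set E4 := EH.filter (fun e => lp e ∈ Fl) with hE4
  set R := Y.filter (fun x => ∃ i, x = r i) with hR'
  -- pairs touching `Y`
  have hcount : a1.card + a2.card + E3.card ≤
      (Γ.filter (fun p => ¬ Disjoint p Y)).card := by
    have hdisj12 : Disjoint a1 a2 := by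
      rw [Finset.disjoint_left]
      intro a h1 h2
      exact (Finset.mem_filter.1 h2).2.1 (Finset.mem_filter.1 h1).2
    have hinj : Set.InjOn pr ((a1 ∪ a2 : Finset (Vx × Vx)) : Set (Vx × Vx)) := by
      intro a ha a' ha' he
      have h1 : a ∈ arcs VH EH k := by
        rcases Finset.mem_union.1 (Finset.mem_coe.1 ha) with h | h
        · exact (Finset.mem_filter.1 h).1
        · exact (Finset.mem_filter.1 h).1
      have h2 : a' ∈ arcs VH EH k := by
        rcases Finset.mem_union.1 (Finset.mem_coe.1 ha') with h | h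
        · exact (Finset.mem_filter.1 h).1
        · exact (Finset.mem_filter.1 h).1
      exact pr_inj (ht_inn (mem_arcs.1 h1).2) (ht_inn (mem_arcs.1 h2).2) he
    have hc1 : ((a1 ∪ a2).image pr).card = a1.card + a2.card := by
      rw [Finset.card_image_of_injOn hinj, Finset.card_union_of_disjoint hdisj12]
    have hc2 : (E3.image lp).card = E3.card := Finset.card_image_of_injective _ lp_inj
    have hdisj : Disjoint ((a1 ∪ a2).image pr) (E3.image lp) := by
      rw [Finset.disjoint_left]
      intro p h1 h2
      obtain ⟨a, ha, rfl⟩ := Finset.mem_image.1 h1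
      obtain ⟨e, he, h3⟩ := Finset.mem_image.1 h2
      have h4 : a ∈ arcs VH EH k := by
        rcases Finset.mem_union.1 ha with h | h
        · exact (Finset.mem_filter.1 h).1
        · exact (Finset.mem_filter.1 h).1
      have h5 := (mem_arcs.1 h4).2
      have h6 : g e.1 e.2 ∈ pr a := h3 ▸ (by simp [lp])
      have h7 : z e.1 e.2 ∈ pr a := h3 ▸ (by simp [lp])
      simp only [pr, Finset.mem_insert, Finset.mem_singleton] at h6 h7
      rcases h6 with h6 | h6
      · rw [← h6] at h5 h7
        simp only [reduceCtorEq, false_or] at h7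
        rw [← h7] at h5
        simp [inn] at h5
      · rw [← h6] at h5 h7
        simp only [reduceCtorEq, or_false] at h7
        rw [← h7] at h5
        simp [inn] at h5
    rw [← hc1, ← hc2, ← Finset.card_union_of_disjoint hdisj]
    apply Finset.card_le_card
    intro p hp
    rw [Finset.mem_filter]
    rcases Finset.mem_union.1 hp with hp | hp
    · obtain ⟨a, ha, rfl⟩ := Finset.mem_image.1 hp
      rcases Finset.mem_union.1 ha with h | h
      · have h1 := Finset.mem_filter.1 h
        exact ⟨Finset.mem_union_left _ (Finset.mem_image_of_mem _ h1.1),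
          Finset.not_disjoint_iff.2 ⟨a.1, by simp [pr], h1.2⟩⟩
      · have h1 := Finset.mem_filter.1 h
        exact ⟨Finset.mem_union_left _ (Finset.mem_image_of_mem _ h1.1),
          Finset.not_disjoint_iff.2 ⟨a.2, by simp [pr], h1.2.2⟩⟩
    · obtain ⟨e, he, rfl⟩ := Finset.mem_image.1 hp
      have h1 := Finset.mem_filter.1 he
      exact ⟨Finset.mem_union_right _ (Finset.mem_sdiff.2 ⟨Finset.mem_image_of_mem _ h1.1, h1.2.1⟩),
        Finset.not_disjoint_iff.2 ⟨z e.1 e.2, by simp [lp], h1.2.2⟩⟩
  -- arcs with upper end in `Y`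
  have hR2 : R.card + (Y.filter (fun x => ¬ ∃ i, x = r i)).card = Y.card :=
    Finset.card_filter_add_card_filter_not _
  have ha1c : 2 * Y.card ≤ a1.card + R.card := by
    have h1 : a1.card = ∑ x ∈ Y, (inn k x).card := by
      have h2 : a1 = Y.biUnion (fun x => (inn k x).image (fun y => (x, y))) := by
        ext a
        rw [ha1, Finset.mem_filter, mem_arcs, Finset.mem_biUnion]
        constructor
        · rintro ⟨⟨h1, h2⟩, h3⟩
          exact ⟨a.1, h3, Finset.mem_image.2 ⟨a.2, h2, rfl⟩⟩
        · rintro ⟨x, hx, h⟩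
          obtain ⟨y, hy, rfl⟩ := Finset.mem_image.1 h
          exact ⟨⟨hYU hx, hy⟩, hx⟩
      rw [h2, Finset.card_biUnion]
      · refine Finset.sum_congr rfl fun x _ => ?_
        rw [Finset.card_image_of_injective]
        intro y y' h
        exact (Prod.ext_iff.1 h).2
      · intro x _ x' _ hne
        change Disjoint _ _
        rw [Finset.disjoint_left]
        intro a h h'
        obtain ⟨y, _, rfl⟩ := Finset.mem_image.1 h
        obtain ⟨y', _, h2⟩ := Finset.mem_image.1 h'
        exact hne (Prod.ext_iff.1 h2).1.symm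
    have h3 : ∀ x ∈ R, (inn k x).card = 1 := by
      intro x hx
      obtain ⟨i, rfl⟩ := (Finset.mem_filter.1 hx).2
      simp [inn]
    have h4 : ∀ x ∈ Y.filter (fun x => ¬ ∃ i, x = r i), (inn k x).card = 2 := by
      intro x hx
      rw [Finset.mem_filter] at hx
      exact card_inn hH (hYU hx.1) (hYg' x hx.1) (fun i hi => hx.2 ⟨i, hi⟩)
    rw [h1, ← Finset.sum_filter_add_sum_filter_not Y (fun x => ∃ i, x = r i),
      Finset.sum_congr rfl h3, Finset.sum_congr rfl h4, Finset.sum_const, Finset.sum_const]
    simp only [smul_eq_mul]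
    omega
  have hRk : R.card ≤ k + 1 := by
    have : R ⊆ (Finset.range (k + 1)).image r := by
      intro x hx
      rw [hR', Finset.mem_filter] at hx
      obtain ⟨hxY, i, rfl⟩ := hx
      have := hYU hxY
      simp only [mem_US] at this
      exact Finset.mem_image.2 ⟨i, Finset.mem_range.2 (by omega), rfl⟩
    refine (Finset.card_le_card this).trans (Finset.card_image_le.trans ?_)
    rw [Finset.card_range]
  have hRpos : 0 < R.card := by omega
  obtain ⟨x, hx⟩ := Finset.card_pos.1 hRpos
  rw [hR', Finset.mem_filter] at hx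
  obtain ⟨hxY, i, rfl⟩ := hx
  have hik : i ≤ k := by
    have := hYU hxY
    simpa only [mem_US] using this
  -- arcs leaving `Y`
  have ha2c : A.card + E2.card ≤ a2.card := by
    have hout : ∀ t ∈ A, ∃ j ≤ k, w t j ∉ Y ∧ ∃ y ∈ inn k (w t j), y ∈ Y := by
      intro t ht
      exact exists_out hik hxY (Finset.mem_filter.1 ht).2
    choose! j hj hjY y hy hyY using hout
    have hS : A.image (fun t => w t (j t)) ∪ E2.image (fun e => z e.1 e.2) ⊆
        a2.image Prod.fst := by
      intro x hx
      rcases Finset.mem_union.1 hx with hx | hx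
      · obtain ⟨t, ht, rfl⟩ := Finset.mem_image.1 hx
        refine Finset.mem_image.2 ⟨(w t (j t), y t), ?_, rfl⟩
        rw [ha2, Finset.mem_filter, mem_arcs]
        refine ⟨⟨?_, hy t ht⟩, hjY t ht, hyY t ht⟩
        simp only [mem_US]
        exact ⟨(Finset.mem_filter.1 ht).1, hj t ht⟩
      · obtain ⟨e, he, rfl⟩ := Finset.mem_image.1 hx
        rw [hE2, Finset.mem_filter] at he
        obtain ⟨heE, hz, hw⟩ := he
        rcases hw with hw | hw
        · refine Finset.mem_image.2 ⟨(z e.1 e.2, w e.1 k), ?_, rfl⟩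
          rw [ha2, Finset.mem_filter, mem_arcs]
          refine ⟨⟨?_, by simp [inn]⟩, hz, hw⟩
          simpa only [mem_US] using heE
        · refine Finset.mem_image.2 ⟨(z e.1 e.2, w e.2 k), ?_, rfl⟩
          rw [ha2, Finset.mem_filter, mem_arcs]
          refine ⟨⟨?_, by simp [inn]⟩, hz, hw⟩
          simpa only [mem_US] using heE
    have h1 : (A.image (fun t => w t (j t)) ∪ E2.image (fun e => z e.1 e.2)).card =
        A.card + E2.card := by
      rw [Finset.card_union_of_disjoint, Finset.card_image_of_injective,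
        Finset.card_image_of_injective]
      · intro e f h
        simp only [z.injEq] at h
        exact Prod.ext h.1 h.2
      · intro t t' h
        simp only [w.injEq] at h
        exact h.1
      · rw [Finset.disjoint_left]
        intro x h h'
        obtain ⟨t, _, rfl⟩ := Finset.mem_image.1 h
        obtain ⟨e, _, h2⟩ := Finset.mem_image.1 h'
        simp at h2
    rw [← h1]
    exact (Finset.card_le_card hS).trans Finset.card_image_le
  have hcover : EH ⊆ EH.filter (fun e => e.1 ∈ A ∧ e.2 ∈ A) ∪ E2 ∪ E3 ∪ E4 := by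
    intro e he
    simp only [Finset.mem_union, hE2, hE3, hE4, hA, Finset.mem_filter, he, true_and,
      hH.left e he, hH.right e he]
    tauto
  have hM := (Finset.card_le_card hcover).trans ((Finset.card_union_le _ _).trans
    (Nat.add_le_add_right ((Finset.card_union_le _ _).trans
      (Nat.add_le_add_right (Finset.card_union_le _ _) _)) _))
  have hE4c : E4.card ≤ (Lt EH ∩ Fl).card := by
    rw [← Finset.card_image_of_injective E4 lp_inj]
    apply Finset.card_le_card
    intro p hp
    obtain ⟨e, he, rfl⟩ := Finset.mem_image.1 hp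
    have h1 := Finset.mem_filter.1 he
    exact Finset.mem_inter.2 ⟨Finset.mem_image_of_mem _ h1.1, h1.2⟩
  refine ⟨A, Finset.filter_subset _ _, by omega, ?_⟩
  unfold eIn
  omega

/-- the loose set belonging to a set `A` of at most `k` vertices of `H` -/
theorem upper {A : Finset ℕ} (hAk : A.card ≤ k) :
    ∃ Y ⊆ US VH EH k, Disjoint gp Y ∧
      (∀ e ∈ EH, e.1 ∈ A → e.2 ∈ A → Disjoint (lp e) Y) ∧
      ((arcs VH EH k).filter (fun a => ¬ Disjoint (pr a) Y)).card + 1 ≤ 2 * Y.card := by
  classical
  set Y := (US VH EH k).filter (fun x => match x with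
    | b _ => False
    | r _ => True
    | w t j => ¬ (j = k ∧ t ∈ A)
    | z u v => ¬ (u ∈ A ∧ v ∈ A)
    | g _ _ => False) with hY
  have hYg : Disjoint gp Y := by
    rw [Finset.disjoint_left]
    intro x hx hxY
    rw [hY, Finset.mem_filter] at hxY
    simp only [gp, Finset.mem_insert, Finset.mem_singleton] at hx
    rcases hx with rfl | rfl <;> exact hxY.2
  refine ⟨Y, Finset.filter_subset _ _, hYg, ?_, ?_⟩
  · intro e he h1 h2
    rw [Finset.disjoint_left]
    intro x hx hxY
    rw [hY, Finset.mem_filter] at hxY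
    simp only [lp, Finset.mem_insert, Finset.mem_singleton] at hx
    rcases hx with rfl | rfl
    · exact hxY.2 ⟨h1, h2⟩
    · exact hxY.2
  · -- arcs touching `Y`
    have hsub : (arcs VH EH k).filter (fun a => ¬ Disjoint (pr a) Y) ⊆
        Y.biUnion (fun x => (inn k x).image (fun y => (x, y))) ∪
          A.image (fun t => (w t k, if k = 0 then r 0 else w t (k - 1))) := by
      intro a ha
      rw [Finset.mem_filter, mem_arcs] at ha
      obtain ⟨⟨h1, h2⟩, h3⟩ := ha
      rw [Finset.mem_union]
      by_cases haY : a.1 ∈ Y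
      · left
        exact Finset.mem_biUnion.2 ⟨a.1, haY, Finset.mem_image.2 ⟨a.2, h2, rfl⟩⟩
      · right
        have h4 : a.2 ∈ Y := by
          obtain ⟨x, hx, hxY⟩ := Finset.not_disjoint_iff.1 h3
          simp only [pr, Finset.mem_insert, Finset.mem_singleton] at hx
          rcases hx with rfl | rfl
          · exact absurd hxY haY
          · exact hxY
        obtain ⟨x, y⟩ := a
        simp only at h1 h2 h4 haY
        rw [hY, Finset.mem_filter] at haY h4
        cases x with
        | b i =>
          cases i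
          · simp [inn] at h2
          · simp only [inn, Finset.mem_singleton] at h2
            subst h2
            exact absurd h4.2 (by simp)
        | r i => exact absurd ⟨h1, trivial⟩ haY
        | w t j =>
          have h5 : j = k ∧ t ∈ A := by
            by_contra hn
            exact haY ⟨h1, hn⟩
          obtain ⟨rfl, htA⟩ := h5
          simp only [inn, lt_self_iff_false, if_false, Finset.mem_insert,
            Finset.mem_singleton] at h2
          rcases h2 with rfl | rfl
          · exact Finset.mem_image.2 ⟨t, htA, rfl⟩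
          · exact absurd h4.2 (by simp)
        | z u v =>
          have h5 : u ∈ A ∧ v ∈ A := by
            by_contra hn
            exact haY ⟨h1, hn⟩
          simp only [inn, Finset.mem_insert, Finset.mem_singleton] at h2
          rcases h2 with rfl | rfl
          · exact absurd ⟨rfl, h5.1⟩ h4.2
          · exact absurd ⟨rfl, h5.2⟩ h4.2
        | g u v =>
          simp only [inn, Finset.mem_insert, Finset.mem_singleton] at h2
          rcases h2 with rfl | rfl <;> exact absurd h4.2 (by simp)
    have hR2 : (Y.filter (fun x => ∃ i, x = r i)).card +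
        (Y.filter (fun x => ¬ ∃ i, x = r i)).card = Y.card :=
      Finset.card_filter_add_card_filter_not _
    have hRk : k + 1 ≤ (Y.filter (fun x => ∃ i, x = r i)).card := by
      have : (Finset.range (k + 1)).image r ⊆ Y.filter (fun x => ∃ i, x = r i) := by
        intro x hx
        obtain ⟨i, hi, rfl⟩ := Finset.mem_image.1 hx
        rw [Finset.mem_filter, hY, Finset.mem_filter, mem_US]
        exact ⟨⟨by simpa [Nat.lt_succ_iff] using hi, trivial⟩, i, rfl⟩
      calc k + 1 = ((Finset.range (k + 1)).image r).card := by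
            rw [Finset.card_image_of_injective _ (fun i j h => by simpa using h),
              Finset.card_range]
        _ ≤ _ := Finset.card_le_card this
    have hc : (Y.biUnion (fun x => (inn k x).image (fun y => (x, y)))).card +
        (Y.filter (fun x => ∃ i, x = r i)).card ≤ 2 * Y.card := by
      have h1 : (Y.biUnion (fun x => (inn k x).image (fun y => (x, y)))).card ≤
          ∑ x ∈ Y, (inn k x).card :=
        Finset.card_biUnion_le.trans (Finset.sum_le_sum fun x _ => Finset.card_image_le)
      have h3 : ∀ x ∈ Y.filter (fun x => ∃ i, x = r i), (inn k x).card = 1 := by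
        intro x hx
        obtain ⟨i, rfl⟩ := (Finset.mem_filter.1 hx).2
        simp [inn]
      have h4 : ∑ x ∈ Y.filter (fun x => ¬ ∃ i, x = r i), (inn k x).card ≤
          ∑ x ∈ Y.filter (fun x => ¬ ∃ i, x = r i), 2 :=
        Finset.sum_le_sum fun x _ => card_inn_le x
      rw [← Finset.sum_filter_add_sum_filter_not Y (fun x => ∃ i, x = r i),
        Finset.sum_congr rfl h3, Finset.sum_const] at h1
      rw [Finset.sum_const] at h4
      simp only [smul_eq_mul] at h1 h4
      omega
    have h5 := (Finset.card_le_card hsub).trans (Finset.card_union_le _ _)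
    have h6 : (A.image (fun t => (w t k, if k = 0 then r 0 else w t (k - 1)))).card ≤ k :=
      Finset.card_image_le.trans hAk
    omega

end Pool.Agent.H598R2.Cnt
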