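import Mathlib
import Pool.Agent.H598R2.Gadget2
import Pool.Agent.H598R2.Expand

/-!
The reduction from cliques to small edge sets destroying rigidity, abstract form.
-/

namespace Pool.Agent.H598R2.Cnt

open Vx

variable {VH : Finset ℕ} {EH : Finset (ℕ × ℕ)} {k : ℕ}

theorem choose_gap : ∀ {k : ℕ}, 4 ≤ k → ∀ {a : ℕ}, a < k →
    a.choose 2 + (k - a) < k.choose 2 := by
  intro k hk
  induction k, hk using Nat.le_induction with
  | base =>
    intro a ha
    interval_cases a <;> decide
  | succ k hk ih =>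
    intro a ha
    have h1 : (k + 1).choose 2 = k.choose 2 + k := by
      rw [Nat.choose_succ_succ' k 1, Nat.choose_one_right]; ring
    rcases Nat.lt_or_ge a k with h | h
    · have := ih h
      omega
    · have : a = k := by omega
      subst this
      omega

theorem eIn_le (hH : GoodH VH EH k) (A : Finset ℕ) : eIn EH A ≤ A.card.choose 2 := by
  rw [← Finset.card_powersetCard]
  apply Finset.card_le_card_of_injOn (fun e => ({e.1, e.2} : Finset ℕ))
  · intro e he
    have h1 := Finset.mem_filter.1 he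
    refine Finset.mem_powersetCard.2 ⟨?_, ?_⟩
    · intro x hx
      simp only [Finset.mem_insert, Finset.mem_singleton] at hx
      rcases hx with rfl | rfl
      · exact h1.2.1
      · exact h1.2.2
    · rw [Finset.card_pair (hH.lt e h1.1).ne]
  · intro e he f hf hef
    have h1 := hH.lt e (Finset.mem_filter.1 he).1
    have h2 := hH.lt f (Finset.mem_filter.1 hf).1
    have h3 : ({e.1, e.2} : Finset ℕ) = {f.1, f.2} := hef
    have h4 : e.1 ∈ ({f.1, f.2} : Finset ℕ) := h3 ▸ (by simp)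
    have h5 : e.2 ∈ ({f.1, f.2} : Finset ℕ) := h3 ▸ (by simp)
    simp only [Finset.mem_insert, Finset.mem_singleton] at h4 h5
    apply Prod.ext <;> omega

/-- the big graph -/
abbrev GG (VH : Finset ℕ) (EH : Finset (ℕ × ℕ)) (k W : ℕ) :
    Finset (Finset (Vx ⊕ ((Vx × Vx) × ℕ))) := bigG (Lt EH) (arcs VH EH k) pr W

/-- its vertex set -/
abbrev UU (VH : Finset ℕ) (EH : Finset (ℕ × ℕ)) (k W : ℕ) :
    Finset (Vx ⊕ ((Vx × Vx) × ℕ)) := bigU (US VH EH k) (arcs VH EH k) W

theorem lt_subset (hH : GoodH VH EH k) {p : Finset Vx} (hp : p ∈ Lt EH) : p ⊆ US VH EH k :=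
  HL_subset hH (Finset.mem_union_right _ hp)

theorem arc_subset (hH : GoodH VH EH k) {a : Vx × Vx} (ha : a ∈ arcs VH EH k) :
    pr a ⊆ US VH EH k :=
  HL_subset hH (Finset.mem_union_left _ (Finset.mem_image_of_mem _ ha))

theorem arc_card {a : Vx × Vx} (ha : a ∈ arcs VH EH k) : (pr a).card = 2 :=
  card_pr (ht_inn (mem_arcs.1 ha).2)

theorem pairs_Lt (EH : Finset (ℕ × ℕ)) : Pairs (Lt EH) := fun p hp =>
  pairs_HL ∅ EH 0 p (Finset.mem_union_right _ hp)

theorem key_lower (hH : GoodH VH EH k) (hk : 4 ≤ k) {W : ℕ} (hW : 1 ≤ W)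
    {F : Finset (Finset (Vx ⊕ ((Vx × Vx) × ℕ)))} (hFW : F.card ≤ W - 1)
    (hR : ¬ Rig (GG VH EH k W \ F) (UU VH EH k W)) :
    (EH.card ≤ F.card + k.choose 2) ∧
    (EH.card = F.card + k.choose 2 ∨ F.card + k.choose 2 ≤ EH.card →
      ∃ A ⊆ VH, A.card = k ∧ k.choose 2 ≤ eIn EH A) := by
  set Fl := (Lt EH).filter (fun p => up p ∈ F) with hFl
  have h1 : ¬ Rig (Hv VH EH k ∪ (Lt EH \ Fl)) (US VH EH k) := by
    intro h
    apply hR
    apply expand_rigid (pairs_Lt EH) (fun p hp => lt_subset hH hp) (fun a ha => arc_subset hH ha)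
      (fun a ha => arc_card ha) hW hFW
    have : (Lt EH).filter (fun p => up p ∉ F) = Lt EH \ Fl := by
      ext p
      simp only [hFl, Finset.mem_filter, Finset.mem_sdiff]
      tauto
    rw [this]
    exact h
  obtain ⟨A, hA, hAk, hM⟩ := lower hH Fl h1
  have h2 : (Lt EH ∩ Fl).card ≤ F.card := by
    rw [← Finset.card_image_of_injective (Lt EH ∩ Fl) (up_injective (κ := (Vx × Vx)))]
    apply Finset.card_le_card
    intro p hp
    obtain ⟨q, hq, rfl⟩ := Finset.mem_image.1 hp
    exact (Finset.mem_filter.1 (Finset.mem_inter.1 hq).2).2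
  have h3 := eIn_le hH A
  rcases Nat.lt_or_ge A.card k with h | h
  · have h4 := choose_gap hk h
    refine ⟨by omega, fun h5 => ?_⟩
    exfalso
    omega
  · have h4 : A.card = k := le_antisymm hAk h
    rw [h4] at h3 hM
    refine ⟨by omega, fun h5 => ⟨A, hA, h4, by omega⟩⟩

theorem key_upper (hH : GoodH VH EH k) {W : ℕ} {A : Finset ℕ} (hAk : A.card ≤ k) :
    ∃ F ⊆ GG VH EH k W, F.card + eIn EH A = EH.card ∧
      ¬ Rig (GG VH EH k W \ F) (UU VH EH k W) := by
  classical
  obtain ⟨Y, hYU, hYg, hYl, hYc⟩ := upper (VH := VH) (EH := EH) hAk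
  set E0 := EH.filter (fun e => ¬ (e.1 ∈ A ∧ e.2 ∈ A)) with hE0
  refine ⟨(E0.image lp).image up, ?_, ?_, ?_⟩
  · intro p hp
    obtain ⟨q, hq, rfl⟩ := Finset.mem_image.1 hp
    obtain ⟨e, he, rfl⟩ := Finset.mem_image.1 hq
    exact Finset.mem_union_left _ (Finset.mem_image_of_mem _
      (Finset.mem_image_of_mem _ (Finset.mem_filter.1 he).1))
  · rw [Finset.card_image_of_injective _ up_injective, Finset.card_image_of_injective _ lp_inj,
      add_comm]
    exact Finset.card_filter_add_card_filter_not _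
  · refine expand_flexible (Y := Y) (fun p hp => lt_subset hH hp) (fun a ha => arc_subset hH ha)
      (fun a ha => arc_card ha) hYU ?_ hYc ?_
    · have h1 : gp ⊆ US VH EH k \ Y := by
        intro x hx
        refine Finset.mem_sdiff.2 ⟨?_, Finset.disjoint_left.1 hYg hx⟩
        simp only [gp, Finset.mem_insert, Finset.mem_singleton] at hx
        rcases hx with rfl | rfl <;> simp [mem_US]
      have h2 : gp.card = 2 := by simp [gp]
      rw [← h2]
      exact Finset.card_le_card h1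
    · intro p hp hpF
      obtain ⟨e, he, rfl⟩ := Finset.mem_image.1 hp
      by_cases h : e.1 ∈ A ∧ e.2 ∈ A
      · exact hYl e he h.1 h.2
      · exact absurd (Finset.mem_image_of_mem _ (Finset.mem_image_of_mem _
          (Finset.mem_filter.2 ⟨he, h⟩))) hpF

/-- the big graph is rigid -/
theorem big_rigid (hH : GoodH VH EH k) (hk : 4 ≤ k) (hM : k.choose 2 < EH.card) {W : ℕ}
    (hW : 1 ≤ W) : Rig (GG VH EH k W) (UU VH EH k W) := by
  by_contra hR
  have h1 := (key_lower hH hk hW (F := ∅) (by simp) (by rwa [Finset.sdiff_empty])).1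
  rw [Finset.card_empty] at h1
  omega

/-- cliques correspond to small edge sets destroying rigidity -/
theorem clique_iff (hH : GoodH VH EH k) (hk : 4 ≤ k) (hM : k.choose 2 < EH.card) {W : ℕ}
    (hW : EH.card ≤ W) :
    (∃ A ⊆ VH, A.card = k ∧ k.choose 2 ≤ eIn EH A) ↔
      ∃ F ⊆ GG VH EH k W, F.card ≤ EH.card - k.choose 2 ∧
        ¬ Rig (GG VH EH k W \ F) (UU VH EH k W) := by
  constructor
  · rintro ⟨A, _, hAk, hA⟩
    obtain ⟨F, hF, hFc, hR⟩ := key_upper (W := W) hH hAk.le
    exact ⟨F, hF, by omega, hR⟩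
  · rintro ⟨F, _, hFc, hR⟩
    have hpos : 0 < k.choose 2 := Nat.choose_pos (by omega)
    exact (key_lower hH hk (by omega) (by omega) hR).2 (Or.inr (by omega))

end Pool.Agent.H598R2.Cnt
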