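import Mathlib
import Pool.Agent.H598R2.Count2

/-!
Rigidity is invariant under renaming of the vertices.
-/

namespace Pool.Agent.H598R2.Cnt

variable {V V' : Type*} [DecidableEq V] [DecidableEq V']

theorem image_injOn {φ : V → V'} {X : Finset V} (hφ : Set.InjOn φ X) {p q : Finset V}
    (hp : p ⊆ X) (hq : q ⊆ X) (h : p.image φ = q.image φ) : p = q := by
  have key : ∀ {p q : Finset V}, p ⊆ X → q ⊆ X → p.image φ = q.image φ → p ⊆ q := by
    intro p q hp hq h x hx
    have : φ x ∈ q.image φ := h ▸ Finset.mem_image_of_mem _ hx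
    obtain ⟨y, hy, hxy⟩ := Finset.mem_image.1 this
    rw [← hφ (hq hy) (hp hx) hxy]
    exact hy
  exact Finset.Subset.antisymm (key hp hq h) (key hq hp h.symm)

theorem Rig.map {Γ : Finset (Finset V)} {X : Finset V} (φ : V → V')
    (hφ : Set.InjOn φ (X : Set V)) (hp : Pairs Γ) (h : Rig Γ X) :
    Rig (Γ.image (Finset.image φ)) (X.image φ) := by
  classical
  obtain ⟨I, hI, hS, hX, hc⟩ := h
  have hinj : Set.InjOn (Finset.image φ) (I : Set (Finset V)) := fun p hp q hq hpq =>
    image_injOn hφ (hX p hp) (hX q hq) hpq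
  refine ⟨I.image (Finset.image φ), Finset.image_subset_image hI, ?_, ?_, ?_⟩
  · intro Y hY
    set Z := X.filter (fun x => φ x ∈ Y) with hZ
    have h1 : ins (I.image (Finset.image φ)) Y ≤ ins I Z := by
      unfold ins
      have : (I.image (Finset.image φ)).filter (· ⊆ Y) ⊆
          (I.filter (· ⊆ Z)).image (Finset.image φ) := by
        intro p hp
        obtain ⟨hp1, hp2⟩ := Finset.mem_filter.1 hp
        obtain ⟨q, hq, rfl⟩ := Finset.mem_image.1 hp1
        refine Finset.mem_image_of_mem _ (Finset.mem_filter.2 ⟨hq, ?_⟩)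
        intro x hx
        exact Finset.mem_filter.2 ⟨hX q hq hx, hp2 (Finset.mem_image_of_mem _ hx)⟩
      exact (Finset.card_le_card this).trans Finset.card_image_le
    have h2 : Z.card ≤ Y.card := by
      apply Finset.card_le_card_of_injOn φ
      · intro x hx
        exact (Finset.mem_filter.1 hx).2
      · intro x hx y hy hxy
        exact hφ (Finset.mem_filter.1 hx).1 (Finset.mem_filter.1 hy).1 hxy
    rcases Nat.lt_or_ge Z.card 2 with h3 | h3
    · have h4 : ins I Z = 0 := by
        unfold ins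
        rw [Finset.card_eq_zero, Finset.filter_eq_empty_iff]
        intro p hpI hpZ
        have := Finset.card_le_card hpZ
        rw [hp p (hI hpI)] at this
        omega
      omega
    · have := hS Z h3
      omega
  · intro p hp
    obtain ⟨q, hq, rfl⟩ := Finset.mem_image.1 hp
    exact Finset.image_subset_image (hX q hq)
  · rw [Finset.card_image_of_injOn hinj, Finset.card_image_of_injOn hφ]
    exact hc

theorem Rig.map_iff {Γ : Finset (Finset V)} {X : Finset V} (φ : V → V')
    (hφ : Set.InjOn φ (X : Set V)) (hp : Pairs Γ) (hX : ∀ p ∈ Γ, p ⊆ X) :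
    Rig (Γ.image (Finset.image φ)) (X.image φ) ↔ Rig Γ X := by
  classical
  refine ⟨fun h => ?_, fun h => h.map φ hφ hp⟩
  rcases X.eq_empty_or_nonempty with rfl | ⟨x0, hx0⟩
  · obtain ⟨I, _, _, _, hc⟩ := h
    simp at hc
  · have : Nonempty V := ⟨x0⟩
    set ψ := Function.invFunOn φ (X : Set V) with hψ
    have h1 : ∀ x ∈ X, ψ (φ x) = x := fun x hx => hφ.leftInvOn_invFunOn hx
    have h2 : Set.InjOn ψ ((X.image φ : Finset V') : Set V') := by
      intro a ha b hb hab
      obtain ⟨x, hx, rfl⟩ := Finset.mem_image.1 ha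
      obtain ⟨y, hy, rfl⟩ := Finset.mem_image.1 hb
      rw [h1 x hx, h1 y hy] at hab
      rw [hab]
    have h3 : Pairs (Γ.image (Finset.image φ)) := by
      intro p hp'
      obtain ⟨q, hq, rfl⟩ := Finset.mem_image.1 hp'
      rw [Finset.card_image_of_injOn (hφ.mono (by exact_mod_cast hX q hq))]
      exact hp q hq
    have h4 : ∀ p ⊆ X, (p.image φ).image ψ = p := by
      intro p hp
      rw [Finset.image_image]
      ext x
      simp only [Finset.mem_image, Function.comp]
      constructor
      · rintro ⟨y, hy, rfl⟩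
        rw [h1 y (hp hy)]; exact hy
      · intro hx
        exact ⟨x, hx, h1 x (hp hx)⟩
    have h5 := h.map ψ h2 h3
    rw [h4 X subset_rfl] at h5
    have h6 : (Γ.image (Finset.image φ)).image (Finset.image ψ) = Γ := by
      rw [Finset.image_image]
      ext p
      simp only [Finset.mem_image, Function.comp]
      constructor
      · rintro ⟨q, hq, rfl⟩
        rw [h4 q (hX q hq)]; exact hq
      · intro hp
        exact ⟨p, hp, h4 p (hX p hp)⟩
    rwa [h6] at h5

/-- the existence of a small set destroying rigidity is invariant under renaming -/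
theorem exists_cut_map_iff {Γ : Finset (Finset V)} {X : Finset V} (φ : V → V')
    (hφ : Set.InjOn φ (X : Set V)) (hp : Pairs Γ) (hX : ∀ p ∈ Γ, p ⊆ X) (s : ℕ) :
    (∃ F ⊆ Γ.image (Finset.image φ), F.card ≤ s ∧
        ¬ Rig (Γ.image (Finset.image φ) \ F) (X.image φ)) ↔
      ∃ F ⊆ Γ, F.card ≤ s ∧ ¬ Rig (Γ \ F) X := by
  classical
  have hinj : Set.InjOn (Finset.image φ) (Γ : Set (Finset V)) := fun p hp q hq hpq =>
    image_injOn hφ (hX p hp) (hX q hq) hpq
  have key : ∀ F ⊆ Γ, (Rig (Γ.image (Finset.image φ) \ F.image (Finset.image φ)) (X.image φ) ↔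
      Rig (Γ \ F) X) := by
    intro F hF
    have h1 : Γ.image (Finset.image φ) \ F.image (Finset.image φ) =
        (Γ \ F).image (Finset.image φ) := by
      ext p
      simp only [Finset.mem_sdiff, Finset.mem_image]
      constructor
      · rintro ⟨⟨q, hq, rfl⟩, h⟩
        exact ⟨q, ⟨hq, fun hqF => h ⟨q, hqF, rfl⟩⟩, rfl⟩
      · rintro ⟨q, ⟨hq, hqF⟩, rfl⟩
        refine ⟨⟨q, hq, rfl⟩, ?_⟩
        rintro ⟨q', hq', h⟩
        rw [hinj (hF hq') hq h] at hq'
        exact hqF hq'
    rw [h1]
    exact Rig.map_iff φ hφ (fun p h => hp p (Finset.mem_sdiff.1 h).1)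
      (fun p h => hX p (Finset.mem_sdiff.1 h).1)
  constructor
  · rintro ⟨F', hF', hc, hR⟩
    obtain ⟨F, hF, rfl⟩ := Finset.subset_image_iff.1 hF'
    refine ⟨F, by exact_mod_cast hF, ?_, ?_⟩
    · rwa [Finset.card_image_of_injOn (hinj.mono (by exact_mod_cast hF))] at hc
    · rwa [key F (by exact_mod_cast hF)] at hR
  · rintro ⟨F, hF, hc, hR⟩
    exact ⟨F.image (Finset.image φ), Finset.image_subset_image hF,
      Finset.card_image_le.trans hc, by rwa [key F hF]⟩

end Pool.Agent.H598R2.Cnt
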