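import Mathlib
import Pool.Agent.H598R2.Transfer
import Pool.Agent.H634R2.Clique
import Pool.Agent.NPC.Sat2

/-!
From graphs with vertices of an arbitrary encodable type, given by lists, to simple graphs with the
vertices `0, …, n-1`.
-/

namespace Pool.Agent.NPC.H598R2

open Pool.Agent.H598R2.Cnt

section

variable {V : Type} [TEnc V]

/-- removing repetitions -/
noncomputable def dd (l : List V) : List V :=
  (l.zipIdx.filter (fun p => decide (index l p.1 = p.2))).map Prod.fst

omit [TEnc V] in
theorem mem_dd {l : List V} {v : V} : v ∈ dd l ↔ v ∈ l := by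
  unfold dd
  rw [List.mem_map]
  constructor
  · rintro ⟨⟨w, i⟩, h, rfl⟩
    have h1 := (List.mem_filter.1 h).1
    rw [List.mem_zipIdx_iff_getElem?] at h1
    exact List.mem_of_getElem? h1
  · intro h
    refine ⟨(v, index l v), List.mem_filter.2 ⟨?_, by simp⟩, rfl⟩
    rw [List.mem_zipIdx_iff_getElem?]
    exact getElem?_index h

omit [TEnc V] in
theorem nodup_dd (l : List V) : (dd l).Nodup := by
  unfold dd
  refine List.Nodup.map_on ?_ (List.Nodup.filter _ ?_)
  · rintro ⟨v, i⟩ hv ⟨w, j⟩ hw h
    have h1 := of_decide_eq_true (List.mem_filter.1 hv).2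
    have h2 := of_decide_eq_true (List.mem_filter.1 hw).2
    simp only at h h1 h2
    subst h
    rw [← h1, ← h2]
  · refine List.Nodup.of_map Prod.snd ?_
    have : (l.zipIdx).map Prod.snd = List.range l.length := by
      apply List.ext_getElem
      · simp
      · intro i h1 h2
        simp
    rw [this]
    exact List.nodup_range

theorem dd_poly {α : Type} [TEnc α] {l : α → List V} (hl : Poly l) :
    Poly (fun a => dd (l a)) := by
  refine Poly.map (F := fun _ (p : V × ℕ) => p.1)
    (l := fun a => (l a).zipIdx.filter (fun p => decide (index (l a) p.1 = p.2))) ?_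
    (Poly.fst (Poly.snd Poly.id))
  refine Poly.filter (p := fun a (p : V × ℕ) => decide (index (l a) p.1 = p.2))
    (Poly.zipIdx hl) ?_
  exact Poly.decide_eq (Poly.index (hl.comp (Poly.fst Poly.id)) (Poly.fst (Poly.snd Poly.id)))
    (Poly.snd (Poly.snd Poly.id))

open Classical in
/-- the edges of the renamed graph -/
noncomputable def ad (l : List V) (el : List (V × V)) : List (ℕ × ℕ) :=
  l.zipIdx.flatMap (fun p => (l.zipIdx.filter (fun q => decide (p.2 < q.2) &&
    (decide ((p.1, q.1) ∈ el) || decide ((q.1, p.1) ∈ el)))).map (fun q => (p.2, q.2)))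

omit [TEnc V] in
theorem mem_ad {l : List V} {el : List (V × V)} {i j : ℕ} : (i, j) ∈ ad l el ↔
    ∃ v w, l[i]? = some v ∧ l[j]? = some w ∧ i < j ∧ ((v, w) ∈ el ∨ (w, v) ∈ el) := by
  unfold ad
  simp only [List.mem_flatMap, List.mem_map, List.mem_filter, List.mem_zipIdx_iff_getElem?,
    Bool.and_eq_true, Bool.or_eq_true, decide_eq_true_eq, Prod.mk.injEq]
  constructor
  · rintro ⟨⟨v, i'⟩, h1, ⟨w, j'⟩, ⟨h2, h3, h4⟩, rfl, rfl⟩
    exact ⟨v, w, h1, h2, h3, h4⟩
  · rintro ⟨v, w, h1, h2, h3, h4⟩
    exact ⟨(v, i), h1, (w, j), ⟨h2, h3, h4⟩, rfl, rfl⟩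

theorem ad_poly {α : Type} [TEnc α] {l : α → List V} {el : α → List (V × V)} (hl : Poly l)
    (hel : Poly el) : Poly (fun a => ad (l a) (el a)) := by
  classical
  refine Poly.flatMap (F := fun a (p : V × ℕ) => (((l a).zipIdx.filter
    (fun q => decide (p.2 < q.2) && (decide ((p.1, q.1) ∈ el a) ||
      decide ((q.1, p.1) ∈ el a)))).map (fun q => (p.2, q.2)))) (Poly.zipIdx hl) ?_
  refine Poly.map (F := fun (x : α × (V × ℕ)) (q : V × ℕ) => (x.2.2, q.2)) ?_
    (Poly.pair (Poly.snd (Poly.snd (Poly.fst Poly.id))) (Poly.snd (Poly.snd Poly.id)))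
  refine Poly.filter (p := fun (x : α × (V × ℕ)) (q : V × ℕ) => decide (x.2.2 < q.2) &&
    (decide ((x.2.1, q.1) ∈ el x.1) || decide ((q.1, x.2.1) ∈ el x.1)))
    (Poly.zipIdx (hl.comp (Poly.fst Poly.id))) ?_
  have h1 : Poly (fun y : (α × (V × ℕ)) × (V × ℕ) => el y.1.1) :=
    hel.comp (Poly.fst (Poly.fst Poly.id))
  exact Poly.and (Poly.decide_lt (Poly.snd (Poly.snd (Poly.fst Poly.id)))
    (Poly.snd (Poly.snd Poly.id))) (Poly.or
      ((Poly.decide_mem (Poly.pair (Poly.fst (Poly.snd (Poly.fst Poly.id)))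
        (Poly.fst (Poly.snd Poly.id))) h1).congr fun _ => decide_eq_decide.2 Iff.rfl)
      ((Poly.decide_mem (Poly.pair (Poly.fst (Poly.snd Poly.id))
        (Poly.fst (Poly.snd (Poly.fst Poly.id)))) h1).congr fun _ => decide_eq_decide.2 Iff.rfl))

omit [TEnc V] in
theorem zipIdx_snd_nodup (l : List V) : (l.zipIdx.map Prod.snd).Nodup := by
  have : (l.zipIdx).map Prod.snd = List.range l.length := by
    apply List.ext_getElem
    · simp
    · intro i h1 h2
      simp
  rw [this]
  exact List.nodup_range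

omit [TEnc V] in
theorem ad_nodup (l : List V) (el : List (V × V)) : (ad l el).Nodup := by
  classical
  unfold ad
  rw [List.nodup_flatMap]
  constructor
  · intro p hp
    refine List.Nodup.of_map Prod.snd ?_
    rw [List.map_map]
    have : (Prod.snd ∘ fun q : V × ℕ => (p.2, q.2)) = Prod.snd := rfl
    rw [this]
    exact (zipIdx_snd_nodup l).sublist (List.Sublist.map _ List.filter_sublist)
  · have h := zipIdx_snd_nodup l
    rw [List.nodup_iff_pairwise_ne, List.pairwise_map] at h
    refine h.imp ?_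
    intro a b hab x hxa hxb
    simp only [List.mem_map] at hxa hxb
    obtain ⟨c, _, rfl⟩ := hxa
    obtain ⟨d, _, hd⟩ := hxb
    simp only [Prod.mk.injEq] at hd
    exact hab hd.1.symm

/-- the pairs of a list of edges -/
def PV [DecidableEq V] (el : List (V × V)) : Finset (Finset V) :=
  (el.map (fun e => ({e.1, e.2} : Finset V))).toFinset

omit [TEnc V] in
theorem mem_PV [DecidableEq V] {el : List (V × V)} {p : Finset V} :
    p ∈ PV el ↔ ∃ e ∈ el, ({e.1, e.2} : Finset V) = p := by
  simp [PV]

omit [TEnc V] in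
theorem getElem?_iff_index {l : List V} (hl : l.Nodup) {i : ℕ} {v : V} :
    l[i]? = some v ↔ v ∈ l ∧ index l v = i := by
  constructor
  · intro h
    have hv := List.mem_of_getElem? h
    refine ⟨hv, ?_⟩
    have h2 := getElem?_index hv
    have hi : i < l.length := by
      by_contra hc
      rw [List.getElem?_eq_none (by omega)] at h
      simp at h
    have hj := index_lt hv
    rw [List.getElem?_eq_getElem hi] at h
    rw [List.getElem?_eq_getElem hj] at h2
    exact (List.Nodup.getElem_inj_iff hl).1 ((Option.some.inj h2).trans (Option.some.inj h).symm)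
  · rintro ⟨hv, rfl⟩
    exact getElem?_index hv

omit [TEnc V] in
theorem PV_ad [DecidableEq V] {l : List V} (hl : l.Nodup) {el : List (V × V)}
    (hel : ∀ e ∈ el, e.1 ∈ l ∧ e.2 ∈ l ∧ e.1 ≠ e.2) :
    PV (ad l el) = (PV el).image (Finset.image (index l)) := by
  ext p
  rw [mem_PV, Finset.mem_image]
  constructor
  · rintro ⟨⟨i, j⟩, h, rfl⟩
    obtain ⟨v, w, h1, h2, h3, h4⟩ := mem_ad.1 h
    rw [getElem?_iff_index hl] at h1 h2
    refine ⟨{v, w}, ?_, ?_⟩
    · rw [mem_PV]
      rcases h4 with h4 | h4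
      · exact ⟨(v, w), h4, rfl⟩
      · exact ⟨(w, v), h4, Finset.pair_comm _ _⟩
    · rw [Finset.image_insert, Finset.image_singleton, h1.2, h2.2]
  · rintro ⟨q, hq, rfl⟩
    obtain ⟨⟨v, w⟩, h, rfl⟩ := mem_PV.1 hq
    obtain ⟨h1, h2, h3⟩ := hel _ h
    simp only at h1 h2 h3
    have h4 : index l v ≠ index l w := fun he => h3 (index_inj h1 h2 he)
    rcases lt_or_gt_of_ne h4 with h5 | h5
    · refine ⟨(index l v, index l w), mem_ad.2 ⟨v, w, getElem?_index h1, getElem?_index h2, h5,
        Or.inl h⟩, ?_⟩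
      simp [Finset.image_insert]
    · refine ⟨(index l w, index l v), mem_ad.2 ⟨w, v, getElem?_index h2, getElem?_index h1, h5,
        Or.inr h⟩, ?_⟩
      simp [Finset.image_insert, Finset.pair_comm]

omit [TEnc V] in
theorem image_index [DecidableEq V] {l : List V} (hl : l.Nodup) :
    l.toFinset.image (index l) = Finset.range l.length := by
  ext i
  simp only [Finset.mem_image, List.mem_toFinset, Finset.mem_range]
  constructor
  · rintro ⟨v, hv, rfl⟩
    exact index_lt hv
  · intro hi
    have h : l[i]? = some l[i] := List.getElem?_eq_getElem hi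
    rw [getElem?_iff_index hl] at h
    exact ⟨_, h⟩

end

end Pool.Agent.NPC.H598R2
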