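import Mathlib
import Pool.Agent.H598R2.Naming
import Pool.Agent.H598R2.Main1

/-!
List versions of the graph of the reduction.
-/

namespace Pool.Agent.NPC.H598R2

open Pool.Agent.H598R2.Cnt Vx

/-- codes of the vertices of the gadget -/
def vcode : Vx → ℕ × (ℕ × ℕ)
  | b i => (if i then 1 else 0, (0, 0))
  | r i => (2, (i, 0))
  | w t j => (3, (t, j))
  | z u v => (4, (u, v))
  | g u v => (5, (u, v))

theorem vcode_inj : Function.Injective vcode := by
  intro x y h
  cases x with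
  | b i => cases y with
    | b j => cases i <;> cases j <;> simp [vcode] at h ⊢
    | _ => cases i <;> simp [vcode] at h
  | r i => cases y with
    | b j => cases j <;> simp [vcode] at h
    | _ => simp [vcode] at h ⊢; try exact h
  | w t j => cases y with
    | b j => cases j <;> simp [vcode] at h
    | _ => simp [vcode] at h ⊢; try exact h
  | z t j => cases y with
    | b j => cases j <;> simp [vcode] at h
    | _ => simp [vcode] at h ⊢; try exact h
  | g t j => cases y with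
    | b j => cases j <;> simp [vcode] at h
    | _ => simp [vcode] at h ⊢; try exact h

instance : TEnc Vx := ⟨fun x => toT (vcode x), fun _ _ h => vcode_inj (TEnc.inj h)⟩

section

variable {α : Type} [TEnc α]

theorem Vx.pR {f : α → ℕ} (hf : Poly f) : Poly (fun a => r (f a)) :=
  Poly.of_toT (Poly.toT' (Poly.pair (Poly.const 2) (Poly.pair hf (Poly.const 0))))

theorem Vx.pW {f h : α → ℕ} (hf : Poly f) (hh : Poly h) : Poly (fun a => w (f a) (h a)) :=
  Poly.of_toT (Poly.toT' (Poly.pair (Poly.const 3) (Poly.pair hf hh)))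

theorem Vx.pZ {f h : α → ℕ} (hf : Poly f) (hh : Poly h) : Poly (fun a => z (f a) (h a)) :=
  Poly.of_toT (Poly.toT' (Poly.pair (Poly.const 4) (Poly.pair hf hh)))

theorem Vx.pG {f h : α → ℕ} (hf : Poly f) (hh : Poly h) : Poly (fun a => g (f a) (h a)) :=
  Poly.of_toT (Poly.toT' (Poly.pair (Poly.const 5) (Poly.pair hf hh)))

end

/-- the vertices of the gadget -/
def uL (N : ℕ) (E : List (ℕ × ℕ)) (k : ℕ) : List Vx :=
  [b false, b true] ++ ((List.range (k + 1)).map r ++
    ((List.range N).flatMap (fun t => (List.range (k + 1)).map (fun j => w t j)) ++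
      (E.map (fun e => z e.1 e.2) ++ E.map (fun e => g e.1 e.2))))

theorem mem_uL {N : ℕ} {E : List (ℕ × ℕ)} {k : ℕ} {x : Vx} :
    x ∈ uL N E k ↔ x ∈ US (Finset.range N) E.toFinset k := by
  rw [mem_US]
  cases x with
  | b i => cases i <;> simp [uL]
  | r i => simp [uL, Nat.lt_succ_iff]
  | w t j => simp [uL, Nat.lt_succ_iff]
  | z u v => simp [uL]
  | g u v => simp [uL]

theorem uL_poly {α : Type} [TEnc α] {N k : α → ℕ} {E : α → List (ℕ × ℕ)} (hN : UPoly N)
    (hk : UPoly k) (hE : Poly E) : Poly (fun a => uL (N a) (E a) (k a)) := by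
  have hr : Poly (fun a => List.range (k a + 1)) := UPoly.range (hk.add (UPoly.const 1))
  refine Poly.append (Poly.const _) (Poly.append ?_ (Poly.append ?_ (Poly.append ?_ ?_)))
  · exact Poly.map (F := fun _ i => r i) hr (Vx.pR (Poly.snd Poly.id))
  · refine Poly.flatMap (F := fun a t => (List.range (k a + 1)).map (fun j => w t j))
      (UPoly.range hN) ?_
    exact Poly.map (F := fun (x : α × ℕ) j => w x.2 j) (hr.comp (Poly.fst Poly.id))
      (Vx.pW (Poly.snd (Poly.fst Poly.id)) (Poly.snd Poly.id))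
  · exact Poly.map (F := fun _ (e : ℕ × ℕ) => z e.1 e.2) hE
      (Vx.pZ (Poly.fst (Poly.snd Poly.id)) (Poly.snd (Poly.snd Poly.id)))
  · exact Poly.map (F := fun _ (e : ℕ × ℕ) => g e.1 e.2) hE
      (Vx.pG (Poly.fst (Poly.snd Poly.id)) (Poly.snd (Poly.snd Poly.id)))

/-- the two arcs of a vertex `w` -/
def wArcs (k t j : ℕ) : List (Vx × Vx) :=
  [(w t j, if j = 0 then r 0 else w t (j - 1)), (w t j, if j < k then r (j + 1) else b true)]

/-- the heavy arcs of the gadget -/
def aL (N : ℕ) (E : List (ℕ × ℕ)) (k : ℕ) : List (Vx × Vx) :=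
  [(b true, b false)] ++ ((List.range (k + 1)).map (fun i => (r i, b false)) ++
    ((List.range N).flatMap (fun t => (List.range (k + 1)).flatMap (fun j => wArcs k t j)) ++
      (E.flatMap (fun e => [(z e.1 e.2, w e.1 k), (z e.1 e.2, w e.2 k)]) ++
        E.flatMap (fun e => [(g e.1 e.2, b false), (g e.1 e.2, b true)]))))

theorem mem_aL {N : ℕ} {E : List (ℕ × ℕ)} {k : ℕ} {a : Vx × Vx} :
    a ∈ aL N E k ↔ a ∈ arcs (Finset.range N) E.toFinset k := by
  obtain ⟨x, y⟩ := a
  rw [mem_arcs, mem_US]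
  simp only
  cases x with
  | b i => cases i <;> simp [aL, inn, wArcs]
  | r i => simp [aL, inn, Nat.lt_succ_iff, wArcs, eq_comm]
  | w t j =>
    simp only [aL, inn, wArcs, List.mem_append, List.mem_singleton, List.mem_map,
      List.mem_flatMap, List.mem_cons, List.not_mem_nil, or_false, List.mem_range,
      Prod.mk.injEq, reduceCtorEq, false_and, and_false, exists_false, false_or, w.injEq,
      Finset.mem_insert, Finset.mem_singleton, Finset.mem_range, exists_const]
    constructor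
    · rintro ⟨t', ht, j', hj, h⟩
      rcases h with ⟨⟨rfl, rfl⟩, h⟩ | ⟨⟨rfl, rfl⟩, h⟩
      · exact ⟨⟨ht, by omega⟩, Or.inl h⟩
      · exact ⟨⟨ht, by omega⟩, Or.inr h⟩
    · rintro ⟨⟨ht, hj⟩, h⟩
      refine ⟨t, ht, j, by omega, ?_⟩
      rcases h with h | h
      · exact Or.inl ⟨⟨rfl, rfl⟩, h⟩
      · exact Or.inr ⟨⟨rfl, rfl⟩, h⟩
  | z u v =>
    simp only [aL, inn, wArcs, List.mem_append, List.mem_singleton, List.mem_map,
      List.mem_flatMap, List.mem_cons, List.not_mem_nil, or_false, List.mem_range,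
      Prod.mk.injEq, reduceCtorEq, false_and, and_false, exists_false, false_or, z.injEq,
      Finset.mem_insert, Finset.mem_singleton, List.mem_toFinset, or_self]
    constructor
    · rintro ⟨e, he, h⟩
      rcases h with ⟨⟨rfl, rfl⟩, h⟩ | ⟨⟨rfl, rfl⟩, h⟩
      · exact ⟨he, Or.inl h⟩
      · exact ⟨he, Or.inr h⟩
    · rintro ⟨he, h⟩
      refine ⟨(u, v), he, ?_⟩
      rcases h with h | h
      · exact Or.inl ⟨⟨rfl, rfl⟩, h⟩
      · exact Or.inr ⟨⟨rfl, rfl⟩, h⟩
  | g u v =>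
    simp only [aL, inn, wArcs, List.mem_append, List.mem_singleton, List.mem_map,
      List.mem_flatMap, List.mem_cons, List.not_mem_nil, or_false, List.mem_range,
      Prod.mk.injEq, reduceCtorEq, false_and, and_false, exists_false, false_or, g.injEq,
      Finset.mem_insert, Finset.mem_singleton, List.mem_toFinset, or_self]
    constructor
    · rintro ⟨e, he, h⟩
      rcases h with ⟨⟨rfl, rfl⟩, h⟩ | ⟨⟨rfl, rfl⟩, h⟩
      · exact ⟨he, Or.inl h⟩
      · exact ⟨he, Or.inr h⟩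
    · rintro ⟨he, h⟩
      refine ⟨(u, v), he, ?_⟩
      rcases h with h | h
      · exact Or.inl ⟨⟨rfl, rfl⟩, h⟩
      · exact Or.inr ⟨⟨rfl, rfl⟩, h⟩

theorem aL_poly {α : Type} [TEnc α] {N k : α → ℕ} {E : α → List (ℕ × ℕ)} (hN : UPoly N)
    (hk : UPoly k) (hE : Poly E) : Poly (fun a => aL (N a) (E a) (k a)) := by
  have hk' : Poly k := hk.toPoly
  have hr : Poly (fun a => List.range (k a + 1)) := UPoly.range (hk.add (UPoly.const 1))
  refine Poly.append (Poly.const _) (Poly.append ?_ (Poly.append ?_ (Poly.append ?_ ?_)))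
  · exact Poly.map (F := fun _ i => (r i, b false)) hr
      (Poly.pair (Vx.pR (Poly.snd Poly.id)) (Poly.const _))
  · refine Poly.flatMap (F := fun a t => (List.range (k a + 1)).flatMap (fun j => wArcs (k a) t j))
      (UPoly.range hN) ?_
    refine Poly.flatMap (F := fun (x : α × ℕ) j => wArcs (k x.1) x.2 j)
      (hr.comp (Poly.fst Poly.id)) ?_
    have h1 : Poly (fun y : (α × ℕ) × ℕ => w y.1.2 y.2) :=
      Vx.pW (Poly.snd (Poly.fst Poly.id)) (Poly.snd Poly.id)
    have h2 : Poly (fun y : (α × ℕ) × ℕ => k y.1.1) := hk'.comp (Poly.fst (Poly.fst Poly.id))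
    refine Poly.cons (Poly.pair h1 ?_) (Poly.cons (Poly.pair h1 ?_) (Poly.const []))
    · exact Poly.ite (p := fun y : (α × ℕ) × ℕ => y.2 = 0)
        (Poly.decide_eq (Poly.snd Poly.id) (Poly.const 0)) (Poly.const _)
        (Vx.pW (Poly.snd (Poly.fst Poly.id)) (Poly.sub (Poly.snd Poly.id) (Poly.const 1)))
    · exact Poly.ite (p := fun y : (α × ℕ) × ℕ => y.2 < k y.1.1)
        (Poly.decide_lt (Poly.snd Poly.id) h2) (Vx.pR (Poly.succ (Poly.snd Poly.id)))
        (Poly.const _)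
  · refine Poly.flatMap (F := fun a (e : ℕ × ℕ) => [(z e.1 e.2, w e.1 (k a)),
      (z e.1 e.2, w e.2 (k a))]) hE ?_
    have h1 : Poly (fun y : α × (ℕ × ℕ) => z y.2.1 y.2.2) :=
      Vx.pZ (Poly.fst (Poly.snd Poly.id)) (Poly.snd (Poly.snd Poly.id))
    have h2 : Poly (fun y : α × (ℕ × ℕ) => k y.1) := hk'.comp (Poly.fst Poly.id)
    exact Poly.cons (Poly.pair h1 (Vx.pW (Poly.fst (Poly.snd Poly.id)) h2))
      (Poly.cons (Poly.pair h1 (Vx.pW (Poly.snd (Poly.snd Poly.id)) h2)) (Poly.const []))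
  · refine Poly.flatMap (F := fun _ (e : ℕ × ℕ) => [(g e.1 e.2, b false),
      (g e.1 e.2, b true)]) hE ?_
    have h1 : Poly (fun y : α × (ℕ × ℕ) => g y.2.1 y.2.2) :=
      Vx.pG (Poly.fst (Poly.snd Poly.id)) (Poly.snd (Poly.snd Poly.id))
    exact Poly.cons (Poly.pair h1 (Poly.const _)) (Poly.cons (Poly.pair h1 (Poly.const _))
      (Poly.const []))

/-- type of the vertices of the big graph -/
abbrev BV : Type := Vx ⊕ ((Vx × Vx) × ℕ)

/-- the vertices of a cluster -/
def clL (W : ℕ) (a : Vx × Vx) : List BV :=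
  Sum.inl a.1 :: Sum.inl a.2 :: (List.range W).map (fun j => Sum.inr (a, j))

/-- all vertices -/
def bV (N : ℕ) (E : List (ℕ × ℕ)) (k W : ℕ) : List BV :=
  (uL N E k).map Sum.inl ++ (aL N E k).flatMap (fun a => (List.range W).map
    (fun j => Sum.inr (a, j)))

/-- all pairs of different members of a list -/
def pairsOf (l : List BV) : List (BV × BV) :=
  l.flatMap (fun x => (l.filter (fun y => !decide (x = y))).map (fun y => (x, y)))

/-- all edges -/
def bE (N : ℕ) (E : List (ℕ × ℕ)) (k W : ℕ) : List (BV × BV) :=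
  E.map (fun e => (Sum.inl (z e.1 e.2), Sum.inl (g e.1 e.2))) ++
    (aL N E k).flatMap (fun a => pairsOf (clL W a))

theorem mem_clL {W : ℕ} {a : Vx × Vx} {x : BV} : x ∈ clL W a ↔ x ∈ clus pr W a := by
  simp only [clL, clus, List.mem_cons, List.mem_map, List.mem_range, Finset.mem_union, mem_up,
    mem_inner, pr, Finset.mem_insert, Finset.mem_singleton]
  constructor
  · rintro (rfl | rfl | ⟨j, hj, rfl⟩)
    · exact Or.inl ⟨a.1, Or.inl rfl, rfl⟩
    · exact Or.inl ⟨a.2, Or.inr rfl, rfl⟩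
    · exact Or.inr ⟨j, hj, rfl⟩
  · rintro (⟨y, rfl | rfl, rfl⟩ | ⟨j, hj, rfl⟩)
    · exact Or.inl rfl
    · exact Or.inr (Or.inl rfl)
    · exact Or.inr (Or.inr ⟨j, hj, rfl⟩)

theorem mem_pairsOf {l : List BV} {x y : BV} : (x, y) ∈ pairsOf l ↔ x ∈ l ∧ y ∈ l ∧ x ≠ y := by
  simp only [pairsOf, List.mem_flatMap, List.mem_map, List.mem_filter, Bool.not_eq_true',
    decide_eq_false_iff_not, Prod.mk.injEq]
  constructor
  · rintro ⟨x', hx, y', ⟨hy, hxy⟩, rfl, rfl⟩
    exact ⟨hx, hy, hxy⟩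
  · rintro ⟨hx, hy, hxy⟩
    exact ⟨x, hx, y, ⟨hy, hxy⟩, rfl, rfl⟩

theorem mem_bV {N : ℕ} {E : List (ℕ × ℕ)} {k W : ℕ} {x : BV} :
    x ∈ bV N E k W ↔ x ∈ UU (Finset.range N) E.toFinset k W := by
  simp only [bV, UU, bigU, List.mem_append, List.mem_map, List.mem_flatMap, Finset.mem_union,
    mem_up, Finset.mem_biUnion, mem_inner, mem_uL, mem_aL, List.mem_range, eq_comm]

theorem toFinset_bV {N : ℕ} {E : List (ℕ × ℕ)} {k W : ℕ} :
    (bV N E k W).toFinset = UU (Finset.range N) E.toFinset k W := by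
  ext x
  rw [List.mem_toFinset, mem_bV]

theorem PV_bE {N : ℕ} {E : List (ℕ × ℕ)} {k W : ℕ} :
    PV (bE N E k W) = GG (Finset.range N) E.toFinset k W := by
  ext p
  rw [mem_PV]
  simp only [bE, GG, bigG, List.mem_append, List.mem_map, List.mem_flatMap, Finset.mem_union,
    Finset.mem_image, Finset.mem_biUnion, Finset.mem_powersetCard, mem_aL]
  constructor
  · rintro ⟨⟨x, y⟩, (⟨e, he, h⟩ | ⟨a, ha, h⟩), rfl⟩
    · left
      simp only [Prod.mk.injEq] at h
      obtain ⟨rfl, rfl⟩ := h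
      refine ⟨Pool.Agent.H598R2.Cnt.lp e, Finset.mem_image_of_mem _ (List.mem_toFinset.2 he), ?_⟩
      simp [up, Pool.Agent.H598R2.Cnt.lp, Finset.image_insert]
    · right
      obtain ⟨h1, h2, h3⟩ := mem_pairsOf.1 h
      refine ⟨a, ha, ?_, Finset.card_pair h3⟩
      intro u hu
      simp only [Finset.mem_insert, Finset.mem_singleton] at hu
      rcases hu with rfl | rfl
      · exact mem_clL.1 h1
      · exact mem_clL.1 h2
  · rintro (⟨q, hq, rfl⟩ | ⟨a, ha, h1, h2⟩)
    · obtain ⟨e, he, rfl⟩ := Finset.mem_image.1 hq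
      refine ⟨(Sum.inl (z e.1 e.2), Sum.inl (g e.1 e.2)), Or.inl ⟨e, List.mem_toFinset.1 he, rfl⟩,
        ?_⟩
      simp [up, Pool.Agent.H598R2.Cnt.lp, Finset.image_insert]
    · obtain ⟨x, y, hxy, rfl⟩ := Finset.card_eq_two.1 h2
      refine ⟨(x, y), Or.inr ⟨a, ha, mem_pairsOf.2 ⟨mem_clL.2 (h1 (by simp)),
        mem_clL.2 (h1 (by simp)), hxy⟩⟩, rfl⟩

theorem clL_poly {α : Type} [TEnc α] {W : α → ℕ} {a : α → Vx × Vx} (hW : UPoly W) (ha : Poly a) :
    Poly (fun x => clL (W x) (a x)) := by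
  refine Poly.cons (Poly.inl (Poly.fst ha)) (Poly.cons (Poly.inl (Poly.snd ha)) ?_)
  exact Poly.map (F := fun x j => (Sum.inr (a x, j) : BV)) (UPoly.range hW)
    (Poly.inr (Poly.pair (ha.comp (Poly.fst Poly.id)) (Poly.snd Poly.id)))

theorem bV_poly {α : Type} [TEnc α] {N k W : α → ℕ} {E : α → List (ℕ × ℕ)} (hN : UPoly N)
    (hk : UPoly k) (hE : Poly E) (hW : UPoly W) : Poly (fun a => bV (N a) (E a) (k a) (W a)) := by
  refine Poly.append ?_ ?_
  · exact Poly.map (F := fun _ x => (Sum.inl x : BV)) (uL_poly hN hk hE)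
      (Poly.inl (Poly.snd Poly.id))
  · refine Poly.flatMap (F := fun x a => (List.range (W x)).map (fun j => (Sum.inr (a, j) : BV)))
      (aL_poly hN hk hE) ?_
    exact Poly.map (F := fun (x : α × (Vx × Vx)) j => (Sum.inr (x.2, j) : BV))
      ((UPoly.range hW).comp (Poly.fst Poly.id))
      (Poly.inr (Poly.pair (Poly.snd (Poly.fst Poly.id)) (Poly.snd Poly.id)))

theorem pairsOf_poly {α : Type} [TEnc α] {l : α → List BV} (hl : Poly l) :
    Poly (fun a => pairsOf (l a)) := by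
  refine Poly.flatMap (F := fun a x => ((l a).filter (fun y => !decide (x = y))).map
    (fun y => (x, y))) hl ?_
  refine Poly.map (F := fun (p : α × BV) y => (p.2, y)) ?_
    (Poly.pair (Poly.snd (Poly.fst Poly.id)) (Poly.snd Poly.id))
  refine Poly.filter (p := fun (p : α × BV) y => !decide (p.2 = y)) (hl.comp (Poly.fst Poly.id)) ?_
  exact Poly.not (Poly.decide_eq (Poly.snd (Poly.fst Poly.id)) (Poly.snd Poly.id))

theorem bE_poly {α : Type} [TEnc α] {N k W : α → ℕ} {E : α → List (ℕ × ℕ)} (hN : UPoly N)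
    (hk : UPoly k) (hE : Poly E) (hW : UPoly W) : Poly (fun a => bE (N a) (E a) (k a) (W a)) := by
  refine Poly.append ?_ ?_
  · refine Poly.map (F := fun _ (e : ℕ × ℕ) => ((Sum.inl (z e.1 e.2), Sum.inl (g e.1 e.2)) :
      BV × BV)) hE ?_
    have h1 := Poly.fst (Poly.snd (Poly.id (α := α × (ℕ × ℕ))))
    have h2 := Poly.snd (Poly.snd (Poly.id (α := α × (ℕ × ℕ))))
    exact Poly.pair (Poly.inl (Vx.pZ h1 h2)) (Poly.inl (Vx.pG h1 h2))
  · refine Poly.flatMap (F := fun x a => pairsOf (clL (W x) a)) (aL_poly hN hk hE) ?_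
    exact pairsOf_poly (clL_poly (hW.comp (Poly.fst Poly.id)) (Poly.snd Poly.id))

end Pool.Agent.NPC.H598R2
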