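import Mathlib
import Pool.Agent.H598R2.Lists

/-!
Deciding whether a rigid simple graph can be made non-rigid by deleting few edges is NP-hard, in the
combinatorial form (count matroid).
-/

namespace Pool.Agent.NPC.H598R2

open Pool.Agent.H598R2.Cnt Vx
open Pool.Agent.NPC.H634R2 (Cl3 gV gE lits compat mem_gE mem_gV gE_lt gV_eq gE_nodup isGraph_g
  hasClique_g hasClique_iff HasClique inside gE_poly gV_poly mem_lits IsGraph)

/-- the pairs of the edges -/
def PS (E : List (ℕ × ℕ)) : Finset (Finset ℕ) := (E.map (fun e => ({e.1, e.2} : Finset ℕ))).toFinset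

/-- a simple graph with the vertices `0, …, n-1`, given by the list of its edges -/
def Simp (n : ℕ) (E : List (ℕ × ℕ)) : Prop :=
  2 ≤ n ∧ (∀ e ∈ E, e.1 < e.2 ∧ e.2 < n) ∧ E.Nodup

/-! ### Padded formulas -/

/-- a clause that always holds -/
def taut : Cl3 := ((true, 0), (false, 0), (true, 0))

/-- the padded formula -/
def padn (φ : List Cl3) : List Cl3 := (φ.map (fun _ => taut) ++ [taut, taut, taut, taut]) ++ φ

theorem sat3_padn (φ : List Cl3) : SAT3 (padn φ) ↔ SAT3 φ := by
  constructor
  · rintro ⟨v, hv⟩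
    exact ⟨v, fun c hc => hv c (List.mem_append_right _ hc)⟩
  · rintro ⟨v, hv⟩
    refine ⟨v, fun c hc => ?_⟩
    rcases List.mem_append.1 hc with h | h
    · have : c = taut := by
        rcases List.mem_append.1 h with h | h
        · obtain ⟨_, _, rfl⟩ := List.mem_map.1 h
          rfl
        · simpa using h
      subst this
      simp only [taut]
      cases v 0 <;> simp
    · exact hv c h

theorem length_padn (φ : List Cl3) : (padn φ).length = 2 * φ.length + 4 := by
  simp [padn]; omega

theorem padn_taut {φ : List Cl3} {j : ℕ} (hj : j < φ.length + 4) : (padn φ)[j]? = some taut := by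
  unfold padn
  rw [List.getElem?_append_left (by simpa using hj)]
  rcases Nat.lt_or_ge j φ.length with h | h
  · rw [List.getElem?_append_left (by simpa using h)]
    rw [List.getElem?_map, List.getElem?_eq_getElem h]
    rfl
  · rw [List.getElem?_append_right (by simpa using h)]
    have h1 : j - (φ.map (fun _ => taut)).length < 4 := by simp; omega
    interval_cases (j - (φ.map (fun _ => taut)).length) <;> rfl

/-- positions of the compatible literals -/
def five : Finset (ℕ × ℕ) := {(0, 0), (0, 2), (2, 0), (2, 2), (1, 1)}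

theorem padn_edges (φ : List Cl3) :
    5 * ((φ.length + 4) * (φ.length + 3) / 2) ≤ (gE (padn φ)).length := by
  set d := φ.length + 4 with hd
  have h1 : (gE (padn φ)).length = (gE (padn φ)).toFinset.card :=
    (List.toFinset_card_of_nodup (gE_nodup _)).symm
  rw [h1]
  have h2 : ((Finset.range d).sigma (fun j' => Finset.range j')).card = d * (d - 1) / 2 := by
    rw [Finset.card_sigma]
    simp only [Finset.card_range]
    exact Finset.sum_range_id d
  have h3 : (((Finset.range d).sigma (fun j' => Finset.range j')) ×ˢ five).card =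
      5 * (d * (φ.length + 3) / 2) := by
    rw [Finset.card_product, h2]
    have : five.card = 5 := by decide
    rw [this, hd]
    have : φ.length + 4 - 1 = φ.length + 3 := by omega
    rw [this]; ring
  rw [← h3]
  apply Finset.card_le_card_of_injOn
    (fun x : (Σ _ : ℕ, ℕ) × (ℕ × ℕ) => ((3 * x.1.2 + x.2.1, 3 * x.1.1 + x.2.2) : ℕ × ℕ))
  · rintro ⟨⟨j', j⟩, ⟨p, p'⟩⟩ hx
    have hx' := Finset.mem_product.1 hx
    obtain ⟨h4, h5⟩ := hx'
    simp only [Finset.mem_sigma, Finset.mem_range] at h4
    simp only at h5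
    simp only [Finset.mem_coe, List.mem_toFinset]
    have hpp : p < 3 ∧ p' < 3 ∧ (p = 1 ↔ p' = 1) := by
      simp only [five, Finset.mem_insert, Finset.mem_singleton, Prod.mk.injEq] at h5
      omega
    have hlit : ∀ i q, i < d → q < 3 → ((if q = 1 then false else true, 0), 3 * i + q) ∈
        lits (padn φ) := by
      intro i q hi hq
      rw [mem_lits]
      refine ⟨taut, ?_, ?_⟩
      · rw [show (3 * i + q) / 3 = i by omega]
        exact padn_taut hi
      · rw [show (3 * i + q) % 3 = q by omega]
        interval_cases q <;> rfl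
    rw [mem_gE]
    refine ⟨_, _, hlit j p (by omega) hpp.1, hlit j' p' (by omega) hpp.2.1, ?_⟩
    unfold compat
    simp only [Bool.and_eq_true, decide_eq_true_eq]
    refine ⟨by omega, ?_⟩
    by_cases hp : p = 1
    · have := hpp.2.2.1 hp
      simp [hp, this]
    · have : ¬ p' = 1 := fun h => hp (hpp.2.2.2 h)
      simp [hp, this]
  · rintro ⟨⟨j', j⟩, ⟨p, p'⟩⟩ hx ⟨⟨i', i⟩, ⟨q, q'⟩⟩ hy hxy
    have hx' := (Finset.mem_product.1 hx).2
    have hy' := (Finset.mem_product.1 hy).2
    simp only [five, Finset.mem_insert, Finset.mem_singleton, Prod.mk.injEq] at hx' hy' hxy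
    have e1 : j = i ∧ p = q := by omega
    have e2 : j' = i' ∧ p' = q' := by omega
    rw [e1.1, e1.2, e2.1, e2.2]

theorem choose_lt_edges (φ : List Cl3) :
    (padn φ).length.choose 2 < (gE (padn φ)).length := by
  refine lt_of_lt_of_le ?_ (padn_edges φ)
  rw [length_padn, Nat.choose_two_right]
  set n := φ.length
  have h1 : (2 * n + 4) * (2 * n + 4 - 1) / 2 = (n + 2) * (2 * n + 3) := by
    have : (2 * n + 4) * (2 * n + 4 - 1) = 2 * ((n + 2) * (2 * n + 3)) := by
      rw [show 2 * n + 4 - 1 = 2 * n + 3 by omega]; ring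
    rw [this, Nat.mul_div_cancel_left _ (by norm_num)]
  rw [h1]
  have h2 : (n + 4) * (n + 3) = n * n + 7 * n + 12 := by ring
  have h3 : (n + 2) * (2 * n + 3) = 2 * (n * n) + 7 * n + 6 := by ring
  rw [h2, h3]
  omega

/-! ### The reduction -/

/-- the vertices of the constructed graph, before renaming -/
noncomputable def vs (φ : List Cl3) : List BV :=
  dd (bV (3 * (padn φ).length) (gE (padn φ)) (padn φ).length (gE (padn φ)).length)

/-- the edges of the constructed graph, before renaming -/
def es (φ : List Cl3) : List (BV × BV) :=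
  bE (3 * (padn φ).length) (gE (padn φ)) (padn φ).length (gE (padn φ)).length

/-- the instance -/
noncomputable def red (φ : List Cl3) : (ℕ × List (ℕ × ℕ)) × ℕ :=
  (((vs φ).length, ad (vs φ) (es φ)), (gE (padn φ)).length -
    (padn φ).length * ((padn φ).length - 1) / 2)

theorem padn_poly : Poly padn :=
  Poly.append (Poly.append (Poly.map (F := fun _ _ => taut) Poly.id (Poly.const _))
    (Poly.const _)) Poly.id

theorem vs_poly : Poly vs := by
  have h1 : UPoly (fun φ : List Cl3 => (padn φ).length) := UPoly.length padn_poly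
  exact dd_poly (bV_poly ((UPoly.const 3).mul h1) h1 (gE_poly.comp padn_poly)
    (UPoly.length (gE_poly.comp padn_poly)))

theorem es_poly : Poly es := by
  have h1 : UPoly (fun φ : List Cl3 => (padn φ).length) := UPoly.length padn_poly
  exact bE_poly ((UPoly.const 3).mul h1) h1 (gE_poly.comp padn_poly)
    (UPoly.length (gE_poly.comp padn_poly))

theorem red_poly : Poly red := by
  have h1 : Poly (fun φ : List Cl3 => (padn φ).length) := Poly.length padn_poly
  refine Poly.pair (Poly.pair (Poly.length vs_poly) (ad_poly vs_poly es_poly)) ?_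
  exact Poly.sub (Poly.length (gE_poly.comp padn_poly))
    (Poly.div (Poly.mul h1 (Poly.sub h1 (Poly.const 1))) (Poly.const 2))

theorem goodH_padn (φ : List Cl3) : GoodH (Finset.range (3 * (padn φ).length))
    (gE (padn φ)).toFinset (padn φ).length := by
  refine ⟨?_, ?_, ?_, ?_⟩
  · rintro ⟨i, j⟩ h
    exact gE_lt (List.mem_toFinset.1 h)
  · rintro e h
    have := ((isGraph_g (padn φ)).2.1 e (List.mem_toFinset.1 h)).1
    rw [gV_eq, List.mem_range] at this
    exact Finset.mem_range.2 this
  · rintro e h
    have := ((isGraph_g (padn φ)).2.1 e (List.mem_toFinset.1 h)).2.1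
    rw [gV_eq, List.mem_range] at this
    exact Finset.mem_range.2 this
  · rw [length_padn]; omega

theorem inside_eq_eIn (φ : List Cl3) (A : Finset ℕ) :
    inside (gE (padn φ)) A = eIn (gE (padn φ)).toFinset A := by
  unfold inside eIn
  rw [List.countP_eq_length_filter, ← List.toFinset_card_of_nodup ((gE_nodup _).filter _)]
  congr 1
  ext e
  simp [Finset.mem_filter]

theorem sat_iff (φ : List Cl3) : SAT3 φ ↔ ∃ A ⊆ Finset.range (3 * (padn φ).length),
    A.card = (padn φ).length ∧ (padn φ).length.choose 2 ≤ eIn (gE (padn φ)).toFinset A := by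
  have h1 : 2 ≤ (padn φ).length := by rw [length_padn]; omega
  rw [← sat3_padn, ← hasClique_g, hasClique_iff (isGraph_g _) h1]
  have hle : ∀ A : Finset ℕ, (padn φ).length.choose 2 ≤ eIn (gE (padn φ)).toFinset A →
      A.card ≤ (padn φ).length → A.card = (padn φ).length := by
    intro A hA hc
    by_contra hne
    have h2 := eIn_le (goodH_padn φ) A
    have h3 := choose_gap (k := (padn φ).length) (by rw [length_padn]; omega)
      (lt_of_le_of_ne hc hne)
    omega
  constructor
  · rintro ⟨A, hA, hc, hi⟩
    rw [inside_eq_eIn] at hi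
    refine ⟨A, ?_, hle A hi hc, hi⟩
    intro v hv
    have := hA v hv
    rw [gV_eq, List.mem_range] at this
    exact Finset.mem_range.2 this
  · rintro ⟨A, hA, hc, hi⟩
    refine ⟨A, ?_, hc.le, by rwa [inside_eq_eIn]⟩
    intro v hv
    rw [gV_eq, List.mem_range]
    exact Finset.mem_range.1 (hA hv)

theorem vs_toFinset (φ : List Cl3) : (vs φ).toFinset =
    UU (Finset.range (3 * (padn φ).length)) (gE (padn φ)).toFinset (padn φ).length
      (gE (padn φ)).length := by
  rw [← toFinset_bV]
  ext x
  rw [List.mem_toFinset, List.mem_toFinset]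
  exact mem_dd

theorem pairs_GG {VH : Finset ℕ} {EH : Finset (ℕ × ℕ)} {k W : ℕ} : Pairs (GG VH EH k W) := by
  intro p hp
  rcases Finset.mem_union.1 hp with h | h
  · obtain ⟨q, hq, rfl⟩ := Finset.mem_image.1 h
    rw [card_up]
    exact pairs_Lt _ q hq
  · obtain ⟨a, _, h⟩ := Finset.mem_biUnion.1 h
    exact (Finset.mem_powersetCard.1 h).2

theorem GG_subset {VH : Finset ℕ} {EH : Finset (ℕ × ℕ)} {k W : ℕ} (hH : GoodH VH EH k) :
    ∀ p ∈ GG VH EH k W, p ⊆ UU VH EH k W := by
  intro p hp
  rcases Finset.mem_union.1 hp with h | h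
  · obtain ⟨q, hq, rfl⟩ := Finset.mem_image.1 h
    exact (up_subset.2 (lt_subset hH hq)).trans Finset.subset_union_left
  · obtain ⟨a, ha, h⟩ := Finset.mem_biUnion.1 h
    refine (Finset.mem_powersetCard.1 h).1.trans (Finset.union_subset_union
      (up_subset.2 (arc_subset hH ha)) ?_)
    exact Finset.subset_biUnion_of_mem (inner (α := Vx) W) ha

theorem es_mem (φ : List Cl3) : ∀ e ∈ es φ, e.1 ∈ vs φ ∧ e.2 ∈ vs φ ∧ e.1 ≠ e.2 := by
  rintro ⟨x, y⟩ he
  have h1 : ({x, y} : Finset BV) ∈ PV (es φ) := mem_PV.2 ⟨(x, y), he, rfl⟩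
  have h2 : PV (es φ) = GG (Finset.range (3 * (padn φ).length)) (gE (padn φ)).toFinset
    (padn φ).length (gE (padn φ)).length := PV_bE
  rw [h2] at h1
  have h3 := GG_subset (goodH_padn φ) _ h1
  rw [← vs_toFinset] at h3
  refine ⟨List.mem_toFinset.1 (h3 (by simp)), List.mem_toFinset.1 (h3 (by simp)), ?_⟩
  intro hxy
  simp only at hxy
  subst hxy
  have := pairs_GG _ h1
  simp at this

theorem PS_red (φ : List Cl3) : PS (ad (vs φ) (es φ)) =
    (GG (Finset.range (3 * (padn φ).length)) (gE (padn φ)).toFinset
      (padn φ).length (gE (padn φ)).length).image (Finset.image (index (vs φ))) := by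
  have h := PV_ad (l := vs φ) (nodup_dd _) (es_mem φ)
  have h2 : PV (es φ) = GG (Finset.range (3 * (padn φ).length)) (gE (padn φ)).toFinset
    (padn φ).length (gE (padn φ)).length := PV_bE
  rw [h2] at h
  exact h

theorem range_red (φ : List Cl3) : Finset.range (vs φ).length =
    (UU (Finset.range (3 * (padn φ).length)) (gE (padn φ)).toFinset (padn φ).length
      (gE (padn φ)).length).image (index (vs φ)) := by
  rw [← vs_toFinset]
  exact (image_index (l := vs φ) (nodup_dd _)).symm

theorem index_injOn (φ : List Cl3) : Set.InjOn (index (vs φ))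
    (UU (Finset.range (3 * (padn φ).length)) (gE (padn φ)).toFinset (padn φ).length
      (gE (padn φ)).length : Set BV) := by
  intro x hx y hy h
  rw [Finset.mem_coe, ← vs_toFinset, List.mem_toFinset] at hx hy
  exact index_inj hx hy h

/-- **Core theorem.** Deciding whether deleting at most `s` edges can make a rigid simple graph
non-rigid is NP-hard. -/
theorem hardPr_core : HardPr
    (fun I : (ℕ × List (ℕ × ℕ)) × ℕ => Simp I.1.1 I.1.2 ∧
      Rig (PS I.1.2) (Finset.range I.1.1))
    (fun I => ∃ F ⊆ PS I.1.2, F.card ≤ I.2 ∧ ¬ Rig (PS I.1.2 \ F) (Finset.range I.1.1)) := by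
  refine (hardI_SAT3.toHardPr).trans (f := red) red_poly ?_ ?_
  · intro φ _
    have hk : 4 ≤ (padn φ).length := by rw [length_padn]; omega
    have hM := choose_lt_edges φ
    rw [← List.toFinset_card_of_nodup (gE_nodup _)] at hM
    have hR := big_rigid (goodH_padn φ) hk hM (W := (gE (padn φ)).length)
      (by have := choose_lt_edges φ; omega)
    have hR' := hR.map (index (vs φ)) (index_injOn φ) pairs_GG
    rw [← PS_red, ← range_red] at hR'
    refine ⟨⟨?_, ?_, ad_nodup _ _⟩, hR'⟩
    · obtain ⟨I, _, _, _, hc⟩ := hR'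
      rw [Finset.card_range] at hc
      change 2 ≤ (vs φ).length
      omega
    · rintro ⟨i, j⟩ h
      obtain ⟨v, w, h1, h2, h3, _⟩ := mem_ad.1 h
      refine ⟨h3, ?_⟩
      by_contra hc
      change ¬ j < (vs φ).length at hc
      rw [List.getElem?_eq_none (by omega)] at h2
      simp at h2
  · intro φ _
    have hk : 4 ≤ (padn φ).length := by rw [length_padn]; omega
    have hM := choose_lt_edges φ
    have hcard := List.toFinset_card_of_nodup (gE_nodup (padn φ))
    rw [← hcard] at hM
    rw [sat_iff, clique_iff (goodH_padn φ) hk hM (W := (gE (padn φ)).length) hcard.le]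
    rw [← exists_cut_map_iff (index (vs φ)) (index_injOn φ) pairs_GG (GG_subset (goodH_padn φ)),
      ← PS_red, ← range_red, hcard, Nat.choose_two_right]
    rfl

end Pool.Agent.NPC.H598R2
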