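import Mathlib

/-!
Derivations of a field extension dual to a transcendence basis (characteristic zero).
-/

open MvPolynomial TensorProduct

namespace Pool.Agent.H598R2

section General

variable {K L : Type*} [Field K] [Field L] [Algebra K L]

/-- the derivation `adjoin K (range v) → L` dual to `v i` -/
theorem exists_derivation_adjoin {ι : Type*} [DecidableEq ι] {v : ι → L}
    (hv : AlgebraicIndependent K v) (i : ι) :
    ∃ D : Derivation K (Algebra.adjoin K (Set.range v)) L,
      ∀ j, D ⟨v j, Algebra.subset_adjoin ⟨j, rfl⟩⟩ = if j = i then 1 else 0 := by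
  let e := hv.aevalEquiv
  have he : ∀ p, ((e p : Algebra.adjoin K (Set.range v)) : L) = aeval v p := fun p => by
    simp [e]
  refine ⟨Derivation.mk' ⟨⟨fun a => aeval v (pderiv i (e.symm a)), fun a b => by simp⟩,
    fun c a => by simp⟩ ?_, ?_⟩
  · intro a b
    obtain ⟨p, rfl⟩ := e.surjective a
    obtain ⟨q, rfl⟩ := e.surjective b
    simp only [LinearMap.coe_mk, AddHom.coe_mk, ← map_mul, AlgEquiv.symm_apply_apply]
    rw [Derivation.leibniz]
    simp only [smul_eq_mul, map_add, map_mul]
    rw [← he p, ← he q]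
    rfl
  · intro j
    have : (⟨v j, Algebra.subset_adjoin ⟨j, rfl⟩⟩ : Algebra.adjoin K (Set.range v)) = e (X j) := by
      apply Subtype.ext
      rw [he]
      simp
    rw [this]
    simp only [Derivation.coe_mk', LinearMap.coe_mk, AddHom.coe_mk, AlgEquiv.symm_apply_apply,
      pderiv_X, Pi.single_apply]
    split_ifs <;> simp_all

open scoped IntermediateField.algebraAdjoinAdjoin in
theorem exists_derivation [CharZero K] {ι : Type*} [DecidableEq ι] {v : ι → L}
    (hv : IsTranscendenceBasis K v) (i : ι) :
    ∃ D : Derivation K L L, ∀ j, D (v j) = if j = i then 1 else 0 := by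
  obtain ⟨d, hd⟩ := exists_derivation_adjoin hv.1 i
  have : Algebra.FormallyEtale (Algebra.adjoin K (Set.range v))
    (IntermediateField.adjoin K (Set.range v)) := .of_isLocalization (nonZeroDivisors _)
  have : Algebra.IsAlgebraic (IntermediateField.adjoin K (Set.range v)) L :=
    hv.isAlgebraic_field
  have : CharZero (IntermediateField.adjoin K (Set.range v)) :=
    charZero_of_injective_algebraMap (algebraMap K _).injective
  have : Algebra.FormallyEtale (IntermediateField.adjoin K (Set.range v)) L :=
    Algebra.FormallyEtale.of_isSeparable _ L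
  have : Algebra.FormallyEtale (Algebra.adjoin K (Set.range v)) L :=
    .comp _ (IntermediateField.adjoin K (Set.range v)) L
  let E := KaehlerDifferential.tensorKaehlerEquivOfFormallyEtale K
    (Algebra.adjoin K (Set.range v)) L
  let φ := d.liftKaehlerDifferential.liftBaseChange L
  refine ⟨(φ ∘ₗ E.symm.toLinearMap).compDer (KaehlerDifferential.D K L), fun j => ?_⟩
  have h1 := KaehlerDifferential.tensorKaehlerEquivOfFormallyEtale_symm_D_algebraMap K
    (Algebra.adjoin K (Set.range v)) L
    (⟨v j, Algebra.subset_adjoin ⟨j, rfl⟩⟩ : Algebra.adjoin K (Set.range v))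
  have h2 : algebraMap (Algebra.adjoin K (Set.range v)) L
    (⟨v j, Algebra.subset_adjoin ⟨j, rfl⟩⟩ : Algebra.adjoin K (Set.range v)) = v j := rfl
  rw [h2] at h1
  rw [← hd j]
  change φ (E.symm (KaehlerDifferential.D K L (v j))) = _
  rw [h1]
  simp only [φ, LinearMap.liftBaseChange_tmul, one_smul]
  exact d.liftKaehlerDifferential_comp_D _

end General

/-- The complex numbers have, for every countable set `S`, numbers `v c` and derivations `D c`
which kill `S`, with `D c (v c') = δ` and `D c (conj (v c')) = 0`. -/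
theorem exists_dual_system (ι : Type) [Finite ι] [DecidableEq ι] (S : Set ℂ) (hS : S.Countable) :
    ∃ (v : ι → ℂ) (D : ι → Derivation ℚ ℂ ℂ), (∀ c, ∀ s ∈ S, D c s = 0) ∧
      (∀ c c', D c (v c') = if c' = c then 1 else 0) ∧
      (∀ c c', D c (starRingEnd ℂ (v c')) = 0) := by
  classical
  let K : IntermediateField ℚ ℂ := IntermediateField.adjoin ℚ (S ∪ {Complex.I})
  have hI : Complex.I ∈ K := IntermediateField.subset_adjoin _ _ (Or.inr rfl)
  have hK : Countable K := by
    have h1 : Cardinal.mk K ≤ Cardinal.aleph0 := by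
      refine (Subfield.cardinalMk_closure_le_max _).trans (max_le ?_ le_rfl)
      rw [Cardinal.mk_le_aleph0_iff]
      exact ((Set.countable_range _).union (hS.union (Set.countable_singleton _))).to_subtype
    exact Cardinal.mk_le_aleph0_iff.1 h1
  let s : Set ℂ := Set.range (fun x : ℝ => (x : ℂ))
  have : Algebra.IsAlgebraic (Algebra.adjoin K s) ℂ := by
    have htop : Algebra.adjoin K s = ⊤ := by
      rw [eq_top_iff]
      rintro z -
      rw [← Complex.re_add_im z]
      refine add_mem (Algebra.subset_adjoin ⟨_, rfl⟩) (mul_mem (Algebra.subset_adjoin ⟨_, rfl⟩) ?_)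
      exact (Algebra.adjoin K s).algebraMap_mem (⟨Complex.I, hI⟩ : K)
    rw [htop]
    refine ⟨fun z => ?_⟩
    exact isAlgebraic_algebraMap (⟨z, Algebra.mem_top⟩ : (⊤ : Subalgebra K ℂ))
  obtain ⟨t, hts, ht⟩ := exists_isTranscendenceBasis_subset (R := K) s
  have htunc : ¬ t.Countable := by
    intro htc
    have h1 := IsAlgClosed.cardinal_le_max_transcendence_basis' _ ht
    have h2 : Cardinal.mk K ≤ Cardinal.aleph0 := Cardinal.mk_le_aleph0_iff.2 hK
    have h3 : Cardinal.mk t ≤ Cardinal.aleph0 := Cardinal.mk_le_aleph0_iff.2 htc.to_subtype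
    have h4 : Cardinal.mk ℂ ≤ Cardinal.aleph0 := h1.trans (max_le (max_le h2 h3) le_rfl)
    rw [Cardinal.mk_complex] at h4
    exact absurd h4 (not_le.2 Cardinal.aleph0_lt_continuum)
  have hinf : Infinite t := by
    by_contra h
    rw [not_infinite_iff_finite] at h
    exact htunc (Set.Finite.countable h)
  obtain ⟨j⟩ : Nonempty (ι × Bool ↪ t) := by
    have := Fintype.ofFinite ι
    exact ⟨(Fintype.equivFin (ι × Bool)).toEmbedding.trans
      ((Fin.valEmbedding).trans (Infinite.natEmbedding t))⟩
  have hD := fun b : t => exists_derivation ht b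
  choose d hd using hD
  have hreal : ∀ b : t, starRingEnd ℂ (b : ℂ) = b := by
    rintro ⟨b, hb⟩
    obtain ⟨x, rfl⟩ := hts hb
    simp
  refine ⟨fun c => (j (c, false) : ℂ) + Complex.I * (j (c, true) : ℂ),
    fun c => ((1 / 2 : ℂ) • (d (j (c, false)) - Complex.I • d (j (c, true)))).restrictScalars ℚ,
    ?_, ?_, ?_⟩
  · intro c x hx
    have h0 : ∀ b : t, d b x = 0 := fun b =>
      (d b).map_algebraMap (⟨x, IntermediateField.subset_adjoin _ _ (Or.inl hx)⟩ : K)
    simp [h0]
  · intro c c'
    have hId : ∀ b : t, d b Complex.I = 0 := fun b => (d b).map_algebraMap (⟨_, hI⟩ : K)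
    have hj : ∀ a b : ι × Bool, d (j a) (j b : ℂ) = if b = a then 1 else 0 := by
      intro a b
      rw [hd]
      simp [j.injective.eq_iff]
    simp [hId, hj, Derivation.leibniz]
    split_ifs
    · norm_num
    · simp
  · intro c c'
    have hId : ∀ b : t, d b Complex.I = 0 := fun b => (d b).map_algebraMap (⟨_, hI⟩ : K)
    have hj : ∀ a b : ι × Bool, d (j a) (j b : ℂ) = if b = a then 1 else 0 := by
      intro a b
      rw [hd]
      simp [j.injective.eq_iff]
    simp [hId, hj, Derivation.leibniz, hreal]
    split_ifs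
    · norm_num
    · simp

end Pool.Agent.H598R2
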