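import Mathlib

/-!
Kronecker substitution and counting of subsets of roots of unity at which a polynomial vanishes.
-/

open MvPolynomial

namespace Pool.Agent.H598R2

theorem digits_inj {B : ℕ} : ∀ {m : ℕ} {a b : Fin m → ℕ}, (∀ k, a k < B) → (∀ k, b k < B) →
    ∑ k : Fin m, B ^ (k : ℕ) * a k = ∑ k : Fin m, B ^ (k : ℕ) * b k → a = b := by
  intro m
  induction m with
  | zero => intro a b _ _ _; exact Subsingleton.elim _ _
  | succ m ih =>
    intro a b ha hb h
    rw [Fin.sum_univ_succ, Fin.sum_univ_succ] at h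
    simp only [Fin.val_zero, pow_zero, one_mul, Fin.val_succ, pow_succ] at h
    have h1 : ∀ c : Fin (m + 1) → ℕ, ∑ k : Fin m, B ^ (k : ℕ) * B * c k.succ =
        B * ∑ k : Fin m, B ^ (k : ℕ) * c k.succ := by
      intro c
      rw [Finset.mul_sum]
      exact Finset.sum_congr rfl fun k _ => by ring
    rw [h1, h1] at h
    have h0 : a 0 = b 0 := by
      have := congrArg (· % B) h
      simpa [Nat.add_mul_mod_self_left, Nat.mod_eq_of_lt (ha 0), Nat.mod_eq_of_lt (hb 0)] using this
    have hB : 0 < B := lt_of_le_of_lt (Nat.zero_le _) (ha 0)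
    rw [h0] at h
    have h2 := Nat.eq_of_mul_eq_mul_left hB (Nat.add_left_cancel h)
    have h3 := ih (a := fun k => a k.succ) (b := fun k => b k.succ) (fun k => ha _)
      (fun k => hb _) h2
    funext k
    refine Fin.cases h0 (fun k => ?_) k
    exact congrFun h3 k

/-- exponent vector after Kronecker substitution -/
noncomputable def kronExp (B : ℕ) {m : ℕ} (s : Fin m × Fin m →₀ ℕ) : Fin m →₀ ℕ :=
  Finsupp.equivFunOnFinite.symm (fun j => ∑ k : Fin m, B ^ (k : ℕ) * s (j, k))

/-- Kronecker substitution -/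
noncomputable def kron (B : ℕ) {m : ℕ} (H : MvPolynomial (Fin m × Fin m) ℂ) :
    MvPolynomial (Fin m) ℂ :=
  aeval (fun p : Fin m × Fin m => (X p.1 : MvPolynomial (Fin m) ℂ) ^ (B ^ (p.2 : ℕ))) H

theorem kron_monomial (B : ℕ) {m : ℕ} (s : Fin m × Fin m →₀ ℕ) (c : ℂ) :
    kron B (monomial s c) = monomial (kronExp B s) c := by
  rw [kron, aeval_monomial, monomial_eq, algebraMap_eq]
  congr 1
  rw [Finsupp.prod_fintype _ _ (fun i => by simp), Finsupp.prod_fintype _ _ (fun i => by simp),
    Fintype.prod_prod_type]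
  refine Finset.prod_congr rfl fun j _ => ?_
  simp only [kronExp, Finsupp.equivFunOnFinite_symm_apply_apply, ← pow_mul]
  rw [Finset.prod_pow_eq_pow_sum]

theorem kron_ne_zero {B m : ℕ} {H : MvPolynomial (Fin m × Fin m) ℂ} (hH : H ≠ 0)
    (hB : ∀ s ∈ H.support, ∀ p, s p < B) : kron B H ≠ 0 := by
  obtain ⟨s0, hs0⟩ := support_nonempty.2 hH
  intro h
  have h1 : kron B H = ∑ s ∈ H.support, monomial (kronExp B s) (coeff s H) := by
    conv_lhs => rw [H.as_sum]
    rw [kron, map_sum]
    exact Finset.sum_congr rfl fun s _ => kron_monomial B s _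
  have h2 : coeff (kronExp B s0) (kron B H) = coeff s0 H := by
    rw [h1, coeff_sum, Finset.sum_eq_single s0]
    · simp
    · intro s hs hne
      rw [coeff_monomial, if_neg]
      intro he
      apply hne
      ext ⟨j, k⟩
      have h3 := DFunLike.congr_fun he j
      simp only [kronExp, Finsupp.equivFunOnFinite_symm_apply_apply] at h3
      have h4 := digits_inj (a := fun k => s (j, k)) (b := fun k => s0 (j, k))
        (fun k => hB s hs _) (fun k => hB s0 hs0 _) h3
      exact congrFun h4 k
    · intro hn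
      exact absurd hs0 hn
  rw [h, coeff_zero] at h2
  exact (mem_support_iff.1 hs0) h2.symm

theorem eval_kron (B : ℕ) {m : ℕ} (H : MvPolynomial (Fin m × Fin m) ℂ) (z : Fin m → ℂ) :
    eval z (kron B H) = eval (fun p : Fin m × Fin m => z p.1 ^ (B ^ (p.2 : ℕ))) H := by
  rw [kron]
  induction H using MvPolynomial.induction_on with
  | C c => simp
  | add p q hp hq => rw [map_add, map_add, hp, hq, map_add]
  | mul_X p i hp => rw [map_mul, map_mul, hp, map_mul, aeval_X, eval_X, map_pow, eval_X]

/-- the standard primitive `d`-th root of unity, as used in the Fourier matrix -/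
noncomputable def om (d : ℕ) : ℂ := Complex.exp (-(2 * Real.pi * Complex.I / d))

theorem om_isPrimitiveRoot {d : ℕ} (hd : d ≠ 0) : IsPrimitiveRoot (om d) d := by
  rw [om, Complex.exp_neg]
  exact (Complex.isPrimitiveRoot_exp d hd).inv

/-- Few `m`-subsets of `Fin d` give zeros of a nonzero polynomial. -/
theorem count_bad {m : ℕ} {G : MvPolynomial (Fin m) ℂ} (hG : G ≠ 0) {d : ℕ} (hd : d ≠ 0)
    [DecidablePred fun R : Finset (Fin d) => ∃ h : R.card = m,
        eval (fun j => om d ^ (R.orderEmbOfFin h j : ℕ)) G = 0] :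
    (((Finset.univ : Finset (Fin d)).powersetCard m).filter (fun R => ∃ h : R.card = m,
        eval (fun j => om d ^ (R.orderEmbOfFin h j : ℕ)) G = 0)).card * d ≤
      G.totalDegree * d ^ m := by
  classical
  have hprim := om_isPrimitiveRoot hd
  have hinj : Function.Injective (fun r : Fin d => om d ^ (r : ℕ)) := by
    intro a b hab
    exact Fin.ext (hprim.pow_inj a.2 b.2 hab)
  let S : Finset ℂ := Finset.univ.image (fun r : Fin d => om d ^ (r : ℕ))
  have hS : S.card = d := by
    rw [Finset.card_image_of_injective _ hinj, Finset.card_univ, Fintype.card_fin]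
  have hsz := schwartz_zippel_totalDegree hG S
  rw [hS] at hsz
  have hd' : (0 : ℚ≥0) < d := by
    exact_mod_cast Nat.pos_of_ne_zero hd
  rw [div_le_div_iff₀ (by positivity) hd'] at hsz
  have hsz' : (Finset.filter (fun f => eval f G = 0) (Fintype.piFinset fun _ : Fin m => S)).card * d
      ≤ G.totalDegree * d ^ m := by exact_mod_cast hsz
  refine le_trans (Nat.mul_le_mul_right _ ?_) hsz'
  let φ : Finset (Fin d) → (Fin m → ℂ) := fun R =>
    if h : R.card = m then (fun j => om d ^ (R.orderEmbOfFin h j : ℕ)) else 0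
  apply Finset.card_le_card_of_injOn φ
  · intro R hR
    simp only [Finset.coe_filter, Finset.mem_powersetCard, Finset.subset_univ, true_and,
      Set.mem_ofPred_eq] at hR
    obtain ⟨h, _, h2⟩ := hR
    simp only [Finset.coe_filter, Fintype.mem_piFinset, Set.mem_ofPred_eq, φ, dif_pos h]
    exact ⟨fun j => Finset.mem_image.2 ⟨_, Finset.mem_univ _, rfl⟩, h2⟩
  · intro R hR R' hR' he
    simp only [Finset.coe_filter, Finset.mem_powersetCard, Finset.subset_univ, true_and,
      Set.mem_ofPred_eq] at hR hR'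
    obtain ⟨h, -, -⟩ := hR
    obtain ⟨h', -, -⟩ := hR'
    simp only [φ, dif_pos h, dif_pos h'] at he
    have h3 : ∀ j, R.orderEmbOfFin h j = R'.orderEmbOfFin h' j := fun j => hinj (congrFun he j)
    have h4 : Set.range (R.orderEmbOfFin h) = Set.range (R'.orderEmbOfFin h') := by
      congr 1
      funext j
      exact h3 j
    rw [Finset.range_orderEmbOfFin, Finset.range_orderEmbOfFin] at h4
    exact_mod_cast h4

end Pool.Agent.H598R2
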