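import Mathlib
import Pool.Agent.H598R2.Naming
import Pool.Agent.NPC.Dec

/-!
Graphs on the positions of a list, given by a test; collapse of `NP` for search problems.
-/

namespace Pool.Agent.NPC.H598R2

section

variable {V : Type}

/-- the edges of the graph on the positions of `l` given by the test `t` -/
def adT (l : List V) (t : V → V → Bool) : List (ℕ × ℕ) :=
  l.zipIdx.flatMap (fun p => (l.zipIdx.filter (fun q => decide (p.2 < q.2) && t p.1 q.1)).map
    (fun q => (p.2, q.2)))

theorem mem_adT {l : List V} {t : V → V → Bool} {i j : ℕ} : (i, j) ∈ adT l t ↔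
    ∃ v w, l[i]? = some v ∧ l[j]? = some w ∧ i < j ∧ t v w = true := by
  unfold adT
  simp only [List.mem_flatMap, List.mem_map, List.mem_filter, List.mem_zipIdx_iff_getElem?,
    Bool.and_eq_true, decide_eq_true_eq, Prod.mk.injEq]
  constructor
  · rintro ⟨⟨v, i'⟩, h1, ⟨w, j'⟩, ⟨h2, h3, h4⟩, rfl, rfl⟩
    exact ⟨v, w, h1, h2, h3, h4⟩
  · rintro ⟨v, w, h1, h2, h3, h4⟩
    exact ⟨(v, i), h1, (w, j), ⟨h2, h3, h4⟩, rfl, rfl⟩

theorem adT_bound {l : List V} {t : V → V → Bool} {i j : ℕ} (h : (i, j) ∈ adT l t) :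
    i < j ∧ j < l.length := by
  obtain ⟨v, w, h1, h2, h3, _⟩ := mem_adT.1 h
  refine ⟨h3, ?_⟩
  by_contra hc
  rw [List.getElem?_eq_none (by omega)] at h2
  simp at h2

theorem adT_nodup (l : List V) (t : V → V → Bool) : (adT l t).Nodup := by
  unfold adT
  rw [List.nodup_flatMap]
  constructor
  · intro p hp
    refine List.Nodup.of_map Prod.snd ?_
    rw [List.map_map]
    have : (Prod.snd ∘ fun q : V × ℕ => (p.2, q.2)) = Prod.snd := rfl
    rw [this]
    exact (zipIdx_snd_nodup l).sublist (List.Sublist.map _ List.filter_sublist)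
  · have h := zipIdx_snd_nodup l
    rw [List.nodup_iff_pairwise_ne, List.pairwise_map] at h
    refine h.imp ?_
    intro a b hab x hxa hxb
    simp only [List.mem_map] at hxa hxb
    obtain ⟨c, _, rfl⟩ := hxa
    obtain ⟨d, _, hd⟩ := hxb
    simp only [Prod.mk.injEq] at hd
    exact hab hd.1.symm

variable [TEnc V]

theorem adT_poly {α : Type} [TEnc α] {l : α → List V} {t : α → V → V → Bool} (hl : Poly l)
    (ht : Poly (fun x : α × (V × V) => t x.1 x.2.1 x.2.2)) :
    Poly (fun a => adT (l a) (t a)) := by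
  refine Poly.flatMap (F := fun a (p : V × ℕ) => (((l a).zipIdx.filter
    (fun q => decide (p.2 < q.2) && t a p.1 q.1)).map (fun q => (p.2, q.2)))) (Poly.zipIdx hl) ?_
  refine Poly.map (F := fun (x : α × (V × ℕ)) (q : V × ℕ) => (x.2.2, q.2)) ?_
    (Poly.pair (Poly.snd (Poly.snd (Poly.fst Poly.id))) (Poly.snd (Poly.snd Poly.id)))
  refine Poly.filter (p := fun (x : α × (V × ℕ)) (q : V × ℕ) => decide (x.2.2 < q.2) &&
    t x.1 x.2.1 q.1) (Poly.zipIdx (hl.comp (Poly.fst Poly.id))) ?_
  refine Poly.and (Poly.decide_lt (Poly.snd (Poly.snd (Poly.fst Poly.id)))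
    (Poly.snd (Poly.snd Poly.id))) ?_
  exact ht.comp (Poly.pair (Poly.fst (Poly.fst Poly.id))
    (Poly.pair (Poly.fst (Poly.snd (Poly.fst Poly.id))) (Poly.fst (Poly.snd Poly.id))))

end

/-- If a promise problem with instances `(a, s)` is hard, and some polynomial-time function on bit
strings computes from `a` an output from which, together with `s`, the answer can be found in
polynomial time, then every language in `NP` is in `P`. -/
theorem collapse_out {α β : Type} [TEnc α] [TEnc β] [TDec β] {Pr Q : α × ℕ → Prop}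
    (h : HardPr Pr Q) {A : List Bool → List Bool} (hA : PolyTime A) {d : β × ℕ → Bool}
    (hd : Poly d)
    (hc : ∀ I, Pr I → ∃ b : β, A (bits I.1) = bits b ∧ (Q I ↔ d (b, I.2) = true)) :
    ∀ L, InNP L → InP L := by
  intro L hL
  obtain ⟨f, hf, hpr, hfL⟩ := h L hL
  have h1 : PolyTime (fun x => bits (f x).1) := PC.toPolyTime
    (show PC (fun x : List Bool => x) (bits : α → List Bool) (fun x => (f x).1) from
      PC.comp (g := fun I : α × ℕ => I.1) (f := f) (Poly.fst Poly.id) hf)
  have h2 : PolyTime (fun x => A (bits (f x).1)) := H642R2.TMSim.polyTime_comp hA h1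
  have h3 : PC (fun x : List Bool => x) (fun x : List Bool => x) (fun x => A (bits (f x).1)) :=
    H642R2.TMSim.polyTime_toPC h2
  have h4 : PC (fun x : List Bool => x) (bits : List Bool → List Bool)
      (fun x => A (bits (f x).1)) :=
    PC.comp (g := fun x => x) (f := fun x => A (bits (f x).1)) PC.rawIn h3
  have h5 : PC (fun x : List Bool => x) (bits : ℕ → List Bool) (fun x => (f x).2) :=
    PC.comp (g := fun I : α × ℕ => I.2) (f := f) (Poly.snd Poly.id) hf
  have h6 : PC (fun x : List Bool => x) (bits : List Bool × ℕ → List Bool)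
      (fun x => (A (bits (f x).1), (f x).2)) := PC.node h4 h5
  let d' : List Bool × ℕ → Bool := fun p => match unbits β p.1 with
    | none => false
    | some m => d (m, p.2)
  have h7 : Poly d' := (Poly.optCases (o := fun p : List Bool × ℕ => unbits β p.1)
    (g := fun _ => false) (h := fun p m => d (m, p.2))
    (poly_unbits.comp (Poly.fst Poly.id)) (Poly.const false)
    (hd.comp (Poly.pair (Poly.snd Poly.id) (Poly.snd (Poly.fst Poly.id))))).congr fun p => by
      simp only [d']; cases unbits β p.1 <;> rfl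
  have h8 : PC (fun x : List Bool => x) (bits : Bool → List Bool)
      (fun x => d' (A (bits (f x).1), (f x).2)) :=
    PC.comp (g := d') (f := fun x => (A (bits (f x).1), (f x).2)) h7 h6
  refine ⟨fun x => [d' (A (bits (f x).1), (f x).2)], PC.toPolyTime
    (PC.comp (g := fun b => [b]) (f := fun x => d' (A (bits (f x).1), (f x).2)) PC.rawBool h8),
    fun x => ?_⟩
  obtain ⟨b, hb, hQ⟩ := hc _ (hpr x)
  rw [hfL x, hQ]
  simp only [d', hb, unbits_bits, List.cons.injEq, and_true]

end Pool.Agent.NPC.H598R2
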