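import Mathlib

/-!
# Graphs and their induced nonseparating cycles

Definitions used in the statement of the hand-in on shortest induced nonseparating cycles.
-/

namespace Pool.Agent.H598R2.Ns

/-- The code of a finite simple graph: the number `n` of vertices, which are `0, …, n-1`, and the
list of the edges, each given by its two ends. -/
abbrev Graph : Type := ℕ × List (ℕ × ℕ)

/-- The ends of the edges are different vertices, and no edge is listed twice. -/
def IsGraph (G : Graph) : Prop :=
  (∀ e ∈ G.2, e.1 < G.1 ∧ e.2 < G.1 ∧ e.1 ≠ e.2) ∧ (G.2.map (fun e => s(e.1, e.2))).Nodup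

/-- The graph with the code `G`. -/
def toG (G : Graph) : SimpleGraph (Fin G.1) :=
  SimpleGraph.fromRel (fun x y => (x.val, y.val) ∈ G.2)

/-- `G` is 3-connected: it has at least four vertices, and deleting at most two vertices leaves a
connected graph. -/
def ThreeConnected {V : Type} [Fintype V] (G : SimpleGraph V) : Prop :=
  4 ≤ Fintype.card V ∧ ∀ S : Finset V, S.card ≤ 2 → (G.induce (S : Set V)ᶜ).Connected

/-- `l` lists the vertices of a cycle of `G` through the edge `ab` in their cyclic order, starting
with `a` and ending with `b` (so that the edges of the cycle join consecutive members of `l`, and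
`b` with `a`).  Its length is `l.length`. -/
structure IsCycleThrough {V : Type} (G : SimpleGraph V) (a b : V) (l : List V) : Prop where
  first : l.head? = some a
  last : l.getLast? = some b
  nodup : l.Nodup
  chain : l.IsChain G.Adj
  three : 3 ≤ l.length
  closing : G.Adj a b

/-- The edges of the cycle with vertices `l` (in cyclic order). -/
def cycleEdges {V : Type} (l : List V) : List (Sym2 V) :=
  List.zipWith (fun x y => s(x, y)) l (l.rotate 1)

/-- The chords of the cycle `l`: edges of `G` that are not edges of the cycle and have both ends on
the cycle. -/
def chords {V : Type} (G : SimpleGraph V) (l : List V) : Set (Sym2 V) :=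
  {e | e ∈ G.edgeSet ∧ (∀ x ∈ e, x ∈ l) ∧ e ∉ cycleEdges l}

/-- The number of bridges of the cycle `l`: the number of chords plus the number of connected
components of `G` minus the vertices of the cycle. -/
noncomputable def numBridges {V : Type} (G : SimpleGraph V) (l : List V) : ℕ :=
  (chords G l).ncard + Nat.card (G.induce {x | x ∉ l}).ConnectedComponent

/-- `l` is an induced nonseparating cycle of `G` through the edge `ab`. -/
def IsIndNonsep {V : Type} (G : SimpleGraph V) (a b : V) (l : List V) : Prop :=
  IsCycleThrough G a b l ∧ numBridges G l = 1

end Pool.Agent.H598R2.Ns
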