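import Mathlib
import Pool.Agent.H598R2.NsComb
import Pool.Agent.H598R2.NsDefs

/-!
Short induced nonseparating cycles in the labelled graph.
-/

namespace Pool.Agent.H598R2.Ns

variable {N : ℕ} {A : ℕ → ℕ × ℕ → Prop} {n : ℕ} {G : SimpleGraph (Fin n)} {f : Fin n → L}

/-- among three different vertices one is outside a set with at most two members -/
theorem exists_notMem {S : Finset (Fin n)} (hS : S.card ≤ 2) (g : Fin 3 → Fin n)
    (hg : Function.Injective g) : ∃ k, g k ∉ S := by
  by_contra hc
  push Not at hc
  have h1 : (Finset.univ.image g).card ≤ S.card := Finset.card_le_card (by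
    intro x hx
    obtain ⟨k, _, rfl⟩ := Finset.mem_image.1 hx
    exact hc k)
  rw [Finset.card_image_of_injective _ hg, Finset.card_univ, Fintype.card_fin] at h1
  omega

theorem threeConnected (h : Lab N A G f)
    (h3 : ∀ c s, A c s → ∃ g : Fin 3 → ℕ × ℕ, Function.Injective g ∧ ∀ k, A c (g k)) :
    ThreeConnected G := by
  have hA0 : A 0 (0, 0) := (h.hub _).2 (Or.inl rfl)
  -- the twins at a position
  have tw : ∀ c s t, A c s → t < N + 2 → ∃ g : Fin 3 → Fin n, Function.Injective g ∧
      ∀ k, f (g k) = Sum.inr ((c, s), (t, k.1)) := by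
    intro c s t hA ht
    have : ∀ k : Fin 3, ∃ i, f i = Sum.inr ((c, s), (t, k.1)) := fun k =>
      h.surj _ ⟨hA, ht, k.2⟩
    choose g hg using this
    refine ⟨g, ?_, hg⟩
    intro a b hab
    have h4 := hg a
    rw [hab, hg b] at h4
    simp only [Sum.inr.injEq, Prod.mk.injEq, true_and] at h4
    exact Fin.ext h4.symm
  constructor
  · obtain ⟨g, hg, hgf⟩ := tw 0 (0, 0) 0 hA0 (by omega)
    obtain ⟨u, hu⟩ := h.surj (Sum.inl (0, 0)) (Or.inl rfl)
    have hu' : u ∉ Finset.univ.image g := by
      intro hu'
      obtain ⟨k, _, hk⟩ := Finset.mem_image.1 hu'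
      rw [← hk, hgf k] at hu
      simp at hu
    have h5 : (insert u (Finset.univ.image g)).card = 4 := by
      rw [Finset.card_insert_of_notMem hu', Finset.card_image_of_injective _ hg,
        Finset.card_univ, Fintype.card_fin]
    rw [← h5]
    exact Finset.card_le_univ _
  · intro S hS
    refine conn h ?_ ?_
    · intro c s t hA ht
      obtain ⟨g, hg, hgf⟩ := tw c s t hA ht
      obtain ⟨k, hk⟩ := exists_notMem hS g hg
      exact ⟨g k, by simpa using hk, k.1, k.2, hgf k⟩
    · intro c s hA
      obtain ⟨g, hg, hgA⟩ := h3 c s hA
      have : ∀ k : Fin 3, ∃ i, f i = Sum.inl (g k) := fun k => h.surj _ (h.sg c _ (hgA k))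
      choose g' hg' using this
      have hinj : Function.Injective g' := by
        intro a b hab
        have h4 := hg' a
        rw [hab, hg' b] at h4
        simp only [Sum.inl.injEq] at h4
        exact hg h4.symm
      obtain ⟨k, hk⟩ := exists_notMem hS g' hinj
      exact ⟨g k, g' k, hgA k, by simpa using hk, hg' k⟩

theorem exists_cycle (h : Lab N A G f) {u v : Fin n} (hu : f u = Sum.inl (0, 0))
    (hv : f v = Sum.inl (N + 1, 0)) (hN : 1 ≤ N) {p : ℕ → ℕ} (hp : ∀ i ≤ N + 1, Sg N (i, p i))
    (hc : ∀ c s, A c s → ∃ s', A c s' ∧ s'.2 ≠ p s'.1) :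
    ∃ l, IsIndNonsep G u v l ∧ l.length = N + 2 := by
  have hex : ∀ i, ∃ x, i ≤ N + 1 → f x = Sum.inl (i, p i) := by
    intro i
    by_cases hi : i ≤ N + 1
    · obtain ⟨x, hx⟩ := h.surj (Sum.inl (i, p i)) (hp i hi)
      exact ⟨x, fun _ => hx⟩
    · exact ⟨u, fun hi' => absurd hi' hi⟩
  choose g hg using hex
  have hp0 : p 0 = 0 := by
    rcases hp 0 (by omega) with h' | h' | h'
    · exact congrArg Prod.snd h'
    · exact congrArg Prod.snd h'
    · simp only at h'; omega
  have hpN : p (N + 1) = 0 := by
    rcases hp (N + 1) le_rfl with h' | h' | h'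
    · exact congrArg Prod.snd h'
    · exact congrArg Prod.snd h'
    · simp only at h'; omega
  have hg0 : g 0 = u := h.inj (by rw [hg 0 (by omega), hp0, hu])
  have hgN : g (N + 1) = v := h.inj (by rw [hg (N + 1) le_rfl, hpN, hv])
  have hginj : ∀ i j, i ≤ N + 1 → j ≤ N + 1 → g i = g j → i = j := by
    intro i j hi hj hij
    have h1 := hg i hi
    rw [hij, hg j hj] at h1
    simp only [Sum.inl.injEq, Prod.mk.injEq] at h1
    exact h1.1.symm
  set l := (List.range (N + 2)).map g with hl
  have hlen : l.length = N + 2 := by simp [hl]
  have hmem : ∀ x, x ∈ l ↔ ∃ i ≤ N + 1, g i = x := by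
    intro x
    simp only [hl, List.mem_map, List.mem_range]
    constructor
    · rintro ⟨i, hi, rfl⟩; exact ⟨i, by omega, rfl⟩
    · rintro ⟨i, hi, rfl⟩; exact ⟨i, by omega, rfl⟩
  have hget : ∀ i (hi : i < l.length), l[i] = g i := by
    intro i hi
    simp [hl]
  have huv : G.Adj u v := by
    rw [h.adj]
    refine ⟨fun he => ?_, ?_⟩
    · rw [he, hv] at hu
      simp at hu
    · rw [hu, hv]
      exact Or.inr (Or.inr (Or.inl ⟨rfl, rfl⟩))
  have hcyc : IsCycleThrough G u v l := by
    refine ⟨?_, ?_, ?_, ?_, by omega, huv⟩
    · rw [hl, List.range_succ_eq_map, List.map_cons, List.head?_cons, hg0]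
    · rw [hl, List.range_succ, List.map_append, List.map_singleton,
        List.getLast?_append, List.getLast?_singleton, hgN]
      rfl
    · refine List.Nodup.map_on ?_ List.nodup_range
      intro i hi j hj hij
      rw [List.mem_range] at hi hj
      exact hginj i j (by omega) (by omega) hij
    · rw [List.isChain_iff_getElem]
      intro i hi
      rw [hlen] at hi
      rw [hget, hget, h.adj]
      refine ⟨fun he => ?_, ?_⟩
      · have := hginj i (i + 1) (by omega) (by omega) he
        omega
      · rw [hg i (by omega), hg (i + 1) (by omega)]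
        exact Or.inr (Or.inl rfl)
  refine ⟨l, ⟨hcyc, ?_⟩, hlen⟩
  have hch : chords G l = ∅ := by
    rw [Set.eq_empty_iff_forall_notMem]
    intro e he
    obtain ⟨he1, he2, he3⟩ := he
    induction e using Sym2.ind with
    | _ x y =>
      rw [SimpleGraph.mem_edgeSet, h.adj] at he1
      obtain ⟨i, hi, rfl⟩ := (hmem x).1 (he2 x (by simp))
      obtain ⟨j, hj, rfl⟩ := (hmem y).1 (he2 y (by simp))
      obtain ⟨_, ha⟩ := he1
      rw [hg i hi, hg j hj] at ha
      simp only [adjL] at ha
      have cons : ∀ i < N + 2, s(g i, g ((i + 1) % (N + 2))) ∈ cycleEdges l := by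
        intro i hi
        unfold cycleEdges
        rw [List.mem_iff_getElem]
        refine ⟨i, by simp [hlen, hi], ?_⟩
        rw [List.getElem_zipWith, List.getElem_rotate, hget, hget, hlen]
      apply he3
      rcases ha with ha | ha | ⟨ha, hb⟩ | ⟨ha, hb⟩
      · have := cons j (by omega)
        rw [Nat.mod_eq_of_lt (by omega), ← ha] at this
        rw [Sym2.eq_swap]; exact this
      · have := cons i (by omega)
        rwa [Nat.mod_eq_of_lt (by omega), ← ha] at this
      · have := cons (N + 1) (by omega)
        rw [Nat.mod_self] at this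
        rw [ha, hb, Sym2.eq_swap]; exact this
      · have := cons (N + 1) (by omega)
        rw [Nat.mod_self] at this
        rw [ha, hb]; exact this
  have hcn : (G.induce {x | x ∉ l}).Connected := by
    have := conn h (S := {x | x ∈ l}) ?_ ?_
    · exact this
    · intro c s t hA ht
      obtain ⟨i, hi⟩ := h.surj (Sum.inr ((c, s), (t, 0))) ⟨hA, ht, by simp⟩
      refine ⟨i, ?_, 0, by omega, hi⟩
      intro hil
      obtain ⟨j, hj, rfl⟩ := (hmem i).1 hil
      rw [hg j hj] at hi
      simp at hi
    · intro c s hA
      obtain ⟨s', hA', hne⟩ := hc c s hA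
      obtain ⟨i, hi⟩ := h.surj (Sum.inl s') (h.sg c s' hA')
      refine ⟨s', i, hA', ?_, hi⟩
      intro hil
      obtain ⟨j, hj, rfl⟩ := (hmem i).1 hil
      rw [hg j hj] at hi
      simp only [Sum.inl.injEq] at hi
      rw [← hi] at hne
      exact hne rfl
  unfold numBridges
  rw [hch, Set.ncard_empty, zero_add, Nat.card_eq_one_iff_unique]
  refine ⟨hcn.preconnected.subsingleton_connectedComponent, ?_⟩
  obtain ⟨x⟩ := hcn.nonempty
  exact ⟨SimpleGraph.connectedComponentMk _ x⟩

/-- the layer of a label -/
def lay : L → ℕ
  | Sum.inl s => s.1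
  | Sum.inr x => x.1.2.1

/-- the distance of a label from the single vertices -/
def dep : L → ℕ
  | Sum.inl _ => 0
  | Sum.inr x => x.2.1

theorem dep_le {x y : L} (h : adjL N x y) : dep y ≤ dep x + 1 := by
  cases x with
  | inl s => cases y with
    | inl s' => simp [dep]
    | inr y => simp only [adjL] at h; simp only [dep]; omega
  | inr x => cases y with
    | inl s' => simp [dep]
    | inr y =>
      simp only [adjL] at h
      simp only [dep]
      omega

theorem lay_eq {x y : L} (h : adjL N x y) (hx : dep x < N + 1) (hs : ∀ s, x ≠ Sum.inl s) :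
    lay y = lay x := by
  cases x with
  | inl s => exact absurd rfl (hs s)
  | inr x => cases y with
    | inl s' =>
      simp only [adjL] at h
      simp only [lay]
      rw [h.1]
    | inr y =>
      simp only [adjL] at h
      simp only [dep] at hx
      rcases h.2 with h' | h'
      · simp only [lay]
        rw [h'.1]
      · omega

theorem lay_le {x y : L} (h : adjL N x y) (hx : dep x < N + 1)
    (hn : ¬ (lay x = 0 ∧ lay y = N + 1)) : lay y ≤ lay x + 1 := by
  by_cases hs : ∀ s, x ≠ Sum.inl s
  · rw [lay_eq h hx hs]
    omega
  · push Not at hs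
    obtain ⟨s, rfl⟩ := hs
    cases y with
    | inl s' => simp only [adjL] at h; simp only [lay] at hn ⊢; omega
    | inr y =>
      simp only [adjL] at h
      simp only [lay]
      rw [← h.1]
      omega

theorem of_cycle (h : Lab N A G f) {u v : Fin n} (hu : f u = Sum.inl (0, 0))
    (hv : f v = Sum.inl (N + 1, 0)) (hN : 1 ≤ N) {l : List (Fin n)} (hl : IsIndNonsep G u v l)
    (hlen : l.length ≤ N + 2) :
    ∃ p : ℕ → ℕ, (∀ i ≤ N + 1, Sg N (i, p i)) ∧ ∀ c s, A c s → ∃ s', A c s' ∧ s'.2 ≠ p s'.1 := by
  obtain ⟨hcyc, hbr⟩ := hl
  have hl3 := hcyc.three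
  have hadj : ∀ i (hi : i + 1 < l.length), adjL N (f l[i]) (f l[i + 1]) := by
    intro i hi
    have := (List.isChain_iff_getElem.1 hcyc.chain) i hi
    exact ((h.adj _ _).1 this).2
  have h0 : l[0]'(by omega) = u := by
    have := hcyc.first
    rw [List.head?_eq_getElem?, List.getElem?_eq_getElem (by omega)] at this
    exact Option.some.inj this
  have hlast : l[l.length - 1]'(by omega) = v := by
    have := hcyc.last
    rw [List.getLast?_eq_getElem?, List.getElem?_eq_getElem (by omega)] at this
    exact Option.some.inj this
  -- depths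
  have hdep : ∀ i (hi : i < l.length), dep (f l[i]) ≤ i := by
    intro i
    induction i with
    | zero => intro hi; rw [h0, hu]; simp [dep]
    | succ i ih =>
      intro hi
      have := dep_le (hadj i hi)
      have := ih (by omega)
      omega
  -- different positions carry different vertices
  have hne : ∀ i j (hi : i < l.length) (hj : j < l.length), l[i] = l[j] → i = j := by
    intro i j hi hj hij
    exact (List.Nodup.getElem_inj_iff hcyc.nodup).1 hij
  -- layer 0 is `u` or legs, so the closing edge is not used
  have hlay : ∀ i (hi : i < l.length), lay (f l[i]) ≤ i := by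
    intro i
    induction i with
    | zero => intro hi; rw [h0, hu]; simp [lay]
    | succ i ih =>
      intro hi
      have h1 := ih (by omega)
      have h2 := hdep i (by omega)
      have h3 := lay_le (hadj i hi) (by omega) ?_
      · omega
      · rintro ⟨ha, hb⟩
        -- both would be the end vertices of the edge
        have hA := hadj i hi
        cases hx : f l[i] with
        | inl s =>
          cases hy : f l[i + 1] with
          | inl s' =>
            rw [hx] at ha
            rw [hy] at hb
            simp only [lay] at ha hb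
            have vx := h.val l[i]
            rw [hx] at vx
            have vy := h.val l[i + 1]
            rw [hy] at vy
            have ex : s = (0, 0) := by
              rcases vx with e | e | e
              · exact e
              · rw [e] at ha; simp at ha
              · omega
            have ey : s' = (N + 1, 0) := by
              rcases vy with e | e | e
              · rw [e] at hb; simp at hb
              · exact e
              · omega
            have e1 : l[i] = l[0]'(by omega) := by
              rw [h0]; apply h.inj; rw [hx, hu, ex]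
            have e2 : l[i + 1] = l[l.length - 1]'(by omega) := by
              rw [hlast]; apply h.inj; rw [hy, hv, ey]
            have e3 := hne _ _ _ _ e1
            have e4 := hne _ _ _ _ e2
            omega
          | inr y =>
            rw [hx, hy] at hA
            simp only [adjL] at hA
            rw [hx] at ha
            rw [hy] at hb
            simp only [lay] at ha hb
            rw [← hA.1] at hb
            omega
        | inr x =>
          have := lay_eq hA (by omega) (by rw [hx]; intro s; simp)
          omega
  have hlen2 : l.length = N + 2 := by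
    have := hlay (l.length - 1) (by omega)
    rw [hlast, hv] at this
    simp only [lay] at this
    omega
  -- all layers are exact
  have hlay2 : ∀ i (hi : i < l.length), lay (f l[i]) = i := by
    have key : ∀ k i (hi : i < l.length), i + k = N + 1 → lay (f l[i]) = i := by
      intro k
      induction k with
      | zero =>
        intro i hi hk
        have : l[i] = v := by
          rw [← hlast]; congr 1; omega
        rw [this, hv]
        simp only [lay]
        omega
      | succ k ih =>
        intro i hi hk
        have h1 := ih (i + 1) (by omega) (by omega)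
        have h2 := hlay i hi
        have hA := hadj i (by omega)
        have h4 := hdep i hi
        by_contra hc
        have h5 : lay (f l[i]) < i := by omega
        have h3 := lay_le hA (by omega) (by
          rintro ⟨ha, hb⟩
          rw [h1] at hb
          -- i = N, and then the previous bound is violated
          have hi1 : i = N := by omega
          cases hx : f l[i] with
          | inl s =>
            rw [hx] at ha
            simp only [lay] at ha
            have vx := h.val l[i]
            rw [hx] at vx
            have ex : s = (0, 0) := by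
              rcases vx with e | e | e
              · exact e
              · rw [e] at ha; simp at ha
              · omega
            have e1 : l[i] = l[0]'(by omega) := by
              rw [h0]; apply h.inj; rw [hx, hu, ex]
            have e3 := hne _ _ _ _ e1
            omega
          | inr x =>
            have := lay_eq hA (by omega) (by rw [hx]; intro s; simp)
            omega)
        omega
    intro i hi
    exact key (N + 1 - i) i hi (by omega)
  -- all vertices are single
  have hsing : ∀ i (hi : i < l.length), ∃ s, f l[i] = Sum.inl s := by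
    intro i hi
    by_cases hiN : i = N + 1
    · have : l[i] = v := by
        rw [← hlast]; congr 1; omega
      exact ⟨_, by rw [this, hv]⟩
    · cases hx : f l[i] with
      | inl s => exact ⟨s, rfl⟩
      | inr x =>
        exfalso
        have hA := hadj i (by omega)
        have h4 := hdep i hi
        have := lay_eq hA (by omega) (by rw [hx]; intro s; simp)
        rw [hlay2 i hi, hlay2 (i + 1) (by omega)] at this
        omega
  have hp : ∀ i, ∃ q, ∀ (hi : i < l.length), f l[i] = Sum.inl (i, q) := by
    intro i
    by_cases hi : i < l.length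
    · obtain ⟨⟨a, q⟩, hs⟩ := hsing i hi
      have := hlay2 i hi
      rw [hs] at this
      simp only [lay] at this
      exact ⟨q, fun _ => by rw [hs, this]⟩
    · exact ⟨0, fun hi' => absurd hi' hi⟩
  choose p hp using hp
  have hsg : ∀ i ≤ N + 1, Sg N (i, p i) := by
    intro i hi
    have := h.val (l[i]'(by omega))
    rw [hp i (by omega)] at this
    exact this
  refine ⟨p, hsg, ?_⟩
  intro c s hA
  by_cases hc0 : c = 0
  · subst hc0
    by_cases hp1 : p 1 = 0
    · exact ⟨(1, 1), (h.hub _).2 (Or.inr (Or.inr ⟨le_rfl, hN, by simp⟩)), by simp [hp1]⟩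
    · exact ⟨(1, 0), (h.hub _).2 (Or.inr (Or.inr ⟨le_rfl, hN, by simp⟩)), by
        simpa [eq_comm] using hp1⟩
  by_contra hcon
  push Not at hcon
  -- two components
  have hA0 : A 0 (0, 0) := (h.hub _).2 (Or.inl rfl)
  have hnotl : ∀ i x, f i = Sum.inr x → i ∉ l := by
    intro i x hi hil
    obtain ⟨j, hj, rfl⟩ := List.mem_iff_getElem.1 hil
    obtain ⟨s, hs⟩ := hsing j hj
    rw [hs] at hi
    simp at hi
  obtain ⟨b, hb⟩ := h.surj (Sum.inr ((0, (0, 0)), (0, 0))) ⟨hA0, by simp, by simp⟩
  obtain ⟨a, ha⟩ := h.surj (Sum.inr ((c, s), (0, 0))) ⟨hA, by simp, by simp⟩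
  have hfin : Nat.card (G.induce {x | x ∉ l}).ConnectedComponent ≤ 1 := by
    unfold numBridges at hbr
    omega
  rw [Finite.card_le_one_iff_subsingleton] at hfin
  have hreach : (G.induce {x | x ∉ l}).Reachable ⟨a, hnotl a _ ha⟩ ⟨b, hnotl b _ hb⟩ :=
    SimpleGraph.ConnectedComponent.eq.1 (Subsingleton.elim _ _)
  have hclosed : ∀ x y : {x | x ∉ l}, (G.induce {x | x ∉ l}).Walk x y →
      (∃ z, f x = Sum.inr z ∧ z.1.1 = c) → ∃ z, f y = Sum.inr z ∧ z.1.1 = c := by
    intro x y w
    induction w with
    | nil => exact id
    | @cons x z y hxz _ ih =>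
      intro hx
      apply ih
      obtain ⟨q, hq, hqc⟩ := hx
      rw [SimpleGraph.induce_adj, h.adj] at hxz
      obtain ⟨_, hxz⟩ := hxz
      rw [hq] at hxz
      cases hz : f z with
      | inl s' =>
        exfalso
        rw [hz] at hxz
        simp only [adjL] at hxz
        have hv' := h.val x
        rw [hq] at hv'
        obtain ⟨hA', _, _⟩ := hv'
        rw [hqc, ← hxz.1] at hA'
        have h6 := hcon s' hA'
        have hs' := h.sg _ _ hA'
        have h7 : s'.1 ≤ N + 1 := by
          rcases hs' with e | e | e
          · rw [e]; simp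
          · rw [e]
          · omega
        have h8 : (z : Fin n) = l[s'.1]'(by omega) := by
          apply h.inj
          rw [hz, hp s'.1 (by omega), ← h6]
        exact z.2 (h8 ▸ List.getElem_mem _)
      | inr z' =>
        rw [hz] at hxz
        simp only [adjL] at hxz
        exact ⟨z', rfl, by rw [← hqc]; exact hxz.1.symm⟩
  obtain ⟨w⟩ := hreach
  obtain ⟨z, hz, hzc⟩ := hclosed _ _ w ⟨_, ha, rfl⟩
  rw [hb] at hz
  simp only [Sum.inr.injEq] at hz
  rw [← hz] at hzc
  exact hc0 hzc.symm

end Pool.Agent.H598R2.Ns
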