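import Mathlib
import Pool.Agent.H598R2.NsMain
import Pool.Agent.H598R2.Naming2

/-!
The reduction from 3SAT to short induced nonseparating cycles, on lists.
-/

namespace Pool.Agent.NPC.H598R2.NsL

open Pool.Agent.H598R2.Ns
open Pool.Agent.NPC.H634R2 (Cl3)

/-- the single vertices -/
def sgL (N : ℕ) : List (ℕ × ℕ) :=
  [(0, 0), (N + 1, 0)] ++ (List.range N).flatMap (fun x => [(x + 1, 0), (x + 1, 1)])

/-- the leg of the centre `c` attached to `s` -/
def legL (N c : ℕ) (s : ℕ × ℕ) : List L :=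
  (List.range (N + 2)).flatMap (fun t => [Sum.inr ((c, s), (t, 0)), Sum.inr ((c, s), (t, 1)),
    Sum.inr ((c, s), (t, 2))])

/-- the single vertex of a literal -/
def sl (l : Lit ℕ) : ℕ × ℕ := (l.2 + 1, if l.1 then 1 else 0)

/-- the number of variables -/
def nv (φ : List Cl3) : ℕ := 3 * φ.length

/-- the legs of the centre of a clause -/
def clL (N : ℕ) (p : Cl3 × ℕ) : List L :=
  [sl p.1.1, sl p.1.2.1, sl p.1.2.2].flatMap (fun s => legL N (p.2 + 1) s)

/-- all vertices -/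
def vL (φ : List Cl3) : List L :=
  (sgL (nv φ)).map Sum.inl ++ ((sgL (nv φ)).flatMap (fun s => legL (nv φ) 0 s) ++
    φ.zipIdx.flatMap (fun p => clL (nv φ) p))

/-- the centre `c` has a leg attached to `s` -/
def Att (φ : List Cl3) (c : ℕ) (s : ℕ × ℕ) : Prop :=
  (c = 0 ∧ Sg (nv φ) s) ∨ ∃ j cl, c = j + 1 ∧ φ[j]? = some cl ∧
    (s = sl cl.1 ∨ s = sl cl.2.1 ∨ s = sl cl.2.2)

theorem mem_sgL {N : ℕ} {s : ℕ × ℕ} : s ∈ sgL N ↔ Sg N s := by
  obtain ⟨a, b⟩ := s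
  simp only [sgL, Sg, List.mem_append, List.mem_cons, List.not_mem_nil, or_false,
    List.mem_flatMap, List.mem_range, Prod.mk.injEq]
  constructor
  · rintro ((h | h) | ⟨x, hx, h | h⟩)
    · exact Or.inl h
    · exact Or.inr (Or.inl h)
    · right; right; omega
    · right; right; omega
  · rintro (h | h | ⟨h1, h2, h3⟩)
    · exact Or.inl (Or.inl h)
    · exact Or.inl (Or.inr h)
    · right
      refine ⟨a - 1, by omega, ?_⟩
      omega

theorem mem_legL {N c : ℕ} {s : ℕ × ℕ} {x : L} : x ∈ legL N c s ↔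
    ∃ t < N + 2, ∃ q < 3, x = Sum.inr ((c, s), (t, q)) := by
  simp only [legL, List.mem_flatMap, List.mem_range, List.mem_cons, List.not_mem_nil, or_false]
  constructor
  · rintro ⟨t, ht, h | h | h⟩
    · exact ⟨t, ht, 0, by norm_num, h⟩
    · exact ⟨t, ht, 1, by norm_num, h⟩
    · exact ⟨t, ht, 2, by norm_num, h⟩
  · rintro ⟨t, ht, q, hq, h⟩
    refine ⟨t, ht, ?_⟩
    interval_cases q
    · exact Or.inl h
    · exact Or.inr (Or.inl h)
    · exact Or.inr (Or.inr h)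

theorem mem_vL {φ : List Cl3} {x : L} : x ∈ vL φ ↔ Val (nv φ) (Att φ) x := by
  simp only [vL, List.mem_append, List.mem_map, List.mem_flatMap, mem_sgL, mem_legL, clL,
    List.mem_zipIdx_iff_getElem?]
  cases x with
  | inl s =>
    simp only [Val]
    constructor
    · rintro (⟨s', h, h'⟩ | ⟨s', _, t, _, q, _, h⟩ | ⟨p, _, s', _, t, _, q, _, h⟩)
      · simp only [Sum.inl.injEq] at h'; rw [← h']; exact h
      · simp at h
      · simp at h
    · intro h
      exact Or.inl ⟨s, h, rfl⟩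
  | inr x =>
    obtain ⟨⟨c, s⟩, ⟨t, q⟩⟩ := x
    simp only [Val, Att]
    constructor
    · rintro (⟨s', h, h'⟩ | ⟨s', hs', t', ht, q', hq, h⟩ |
        ⟨⟨cl, j⟩, hp, s', hs', t', ht, q', hq, h⟩)
      · simp at h'
      · simp only [Sum.inr.injEq, Prod.mk.injEq] at h
        obtain ⟨⟨rfl, rfl⟩, rfl, rfl⟩ := h
        exact ⟨Or.inl ⟨rfl, hs'⟩, ht, hq⟩
      · simp only [Sum.inr.injEq, Prod.mk.injEq] at h hp hs'
        obtain ⟨⟨rfl, rfl⟩, rfl, rfl⟩ := h
        refine ⟨Or.inr ⟨j, cl, rfl, hp, ?_⟩, ht, hq⟩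
        simpa using hs'
    · rintro ⟨h | ⟨j, cl, rfl, hj, hs⟩, ht, hq⟩
      · obtain ⟨rfl, hs⟩ := h
        exact Or.inr (Or.inl ⟨s, hs, t, ht, q, hq, rfl⟩)
      · refine Or.inr (Or.inr ⟨(cl, j), hj, s, ?_, t, ht, q, hq, rfl⟩)
        simpa using hs

/-- the adjacency test -/
def tb (N : ℕ) (x y : L) : Bool :=
  match x with
  | Sum.inl s => match y with
    | Sum.inl s' => (decide (s.1 = s'.1 + 1) || decide (s'.1 = s.1 + 1)) ||
        ((decide (s.1 = 0) && decide (s'.1 = N + 1)) ||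
          (decide (s.1 = N + 1) && decide (s'.1 = 0)))
    | Sum.inr y => decide (s = y.1.2) && decide (y.2.1 = 0)
  | Sum.inr x => match y with
    | Sum.inl s' => decide (s' = x.1.2) && decide (x.2.1 = 0)
    | Sum.inr y => decide (x.1.1 = y.1.1) &&
        ((decide (x.1.2 = y.1.2) && (decide (x.2.1 ≤ y.2.1 + 1) && decide (y.2.1 ≤ x.2.1 + 1))) ||
          (!decide (x.1.2 = y.1.2) && (decide (x.2.1 = N + 1) && decide (y.2.1 = N + 1))))

theorem tb_iff {N : ℕ} {x y : L} : tb N x y = true ↔ adjL N x y := by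
  cases x with
  | inl s => cases y with
    | inl s' =>
      simp only [tb, adjL, Bool.or_eq_true, Bool.and_eq_true, decide_eq_true_eq]
      tauto
    | inr y => simp only [tb, adjL, Bool.and_eq_true, decide_eq_true_eq]
  | inr x => cases y with
    | inl s' => simp only [tb, adjL, Bool.and_eq_true, decide_eq_true_eq]
    | inr y =>
      simp only [tb, adjL, Bool.or_eq_true, Bool.and_eq_true, decide_eq_true_eq,
        Bool.not_eq_true', decide_eq_false_iff_not, ne_eq]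

theorem sgL_poly {α : Type} [TEnc α] {N : α → ℕ} (hN : UPoly N) : Poly (fun a => sgL (N a)) := by
  have hN' : Poly N := hN.toPoly
  refine Poly.append (Poly.cons (Poly.const _) (Poly.cons (Poly.pair (Poly.succ hN')
    (Poly.const 0)) (Poly.const []))) ?_
  refine Poly.flatMap (F := fun (_ : α) x => [(x + 1, 0), (x + 1, 1)]) (UPoly.range hN) ?_
  have h1 : Poly (fun p : α × ℕ => p.2 + 1) := Poly.succ (Poly.snd Poly.id)
  exact Poly.cons (Poly.pair h1 (Poly.const 0)) (Poly.cons (Poly.pair h1 (Poly.const 1))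
    (Poly.const []))

theorem legL_poly {α : Type} [TEnc α] {N c : α → ℕ} {s : α → ℕ × ℕ} (hN : UPoly N) (hc : Poly c)
    (hs : Poly s) : Poly (fun a => legL (N a) (c a) (s a)) := by
  refine Poly.flatMap (F := fun (a : α) t => ([Sum.inr ((c a, s a), (t, 0)),
    Sum.inr ((c a, s a), (t, 1)), Sum.inr ((c a, s a), (t, 2))] : List L))
    (UPoly.range (hN.add (UPoly.const 2))) ?_
  have h1 : Poly (fun p : α × ℕ => (c p.1, s p.1)) :=
    Poly.pair (hc.comp (Poly.fst Poly.id)) (hs.comp (Poly.fst Poly.id))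
  have h2 : ∀ q : ℕ, Poly (fun p : α × ℕ => (Sum.inr ((c p.1, s p.1), (p.2, q)) : L)) :=
    fun q => Poly.inr (Poly.pair h1 (Poly.pair (Poly.snd Poly.id) (Poly.const q)))
  exact Poly.cons (h2 0) (Poly.cons (h2 1) (Poly.cons (h2 2) (Poly.const [])))

theorem sl_poly {α : Type} [TEnc α] {l : α → Lit ℕ} (hl : Poly l) : Poly (fun a => sl (l a)) :=
  Poly.pair (Poly.succ (Poly.snd hl)) (Poly.ite (p := fun a => (l a).1 = true)
    (Poly.decide_bool (Poly.fst hl)) (Poly.const 1) (Poly.const 0))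

theorem nv_upoly : UPoly nv := (UPoly.const 3).mul (UPoly.length Poly.id)

theorem vL_poly : Poly vL := by
  have hs : Poly (fun φ : List Cl3 => sgL (nv φ)) := sgL_poly nv_upoly
  refine Poly.append ?_ (Poly.append ?_ ?_)
  · exact Poly.map (F := fun _ (s : ℕ × ℕ) => (Sum.inl s : L)) hs (Poly.inl (Poly.snd Poly.id))
  · exact Poly.flatMap (F := fun (φ : List Cl3) s => legL (nv φ) 0 s) hs
      (legL_poly (nv_upoly.comp (Poly.fst Poly.id)) (Poly.const 0) (Poly.snd Poly.id))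
  · refine Poly.flatMap (F := fun (φ : List Cl3) (p : Cl3 × ℕ) => clL (nv φ) p)
      (Poly.zipIdx Poly.id) ?_
    refine Poly.flatMap (F := fun (x : List Cl3 × (Cl3 × ℕ)) s => legL (nv x.1) (x.2.2 + 1) s)
      (l := fun x => [sl x.2.1.1, sl x.2.1.2.1, sl x.2.1.2.2]) ?_ ?_
    · have h1 : Poly (fun x : List Cl3 × (Cl3 × ℕ) => x.2.1) := Poly.fst (Poly.snd Poly.id)
      exact Poly.cons (sl_poly (Poly.fst h1)) (Poly.cons (sl_poly (Poly.fst (Poly.snd h1)))
        (Poly.cons (sl_poly (Poly.snd (Poly.snd h1))) (Poly.const [])))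
    · exact legL_poly (nv_upoly.comp (Poly.fst (Poly.fst Poly.id)))
        (Poly.succ (Poly.snd (Poly.snd (Poly.fst Poly.id)))) (Poly.snd Poly.id)

theorem tb_poly {α : Type} [TEnc α] {N : α → ℕ} (hN : Poly N) :
    Poly (fun x : α × (L × L) => tb (N x.1) x.2.1 x.2.2) := by
  -- the four cases
  have c1 : Poly (fun y : ((α × (L × L)) × (ℕ × ℕ)) × (ℕ × ℕ) =>
      (decide (y.1.2.1 = y.2.1 + 1) || decide (y.2.1 = y.1.2.1 + 1)) ||
        ((decide (y.1.2.1 = 0) && decide (y.2.1 = N y.1.1.1 + 1)) ||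
          (decide (y.1.2.1 = N y.1.1.1 + 1) && decide (y.2.1 = 0)))) := by
    have a1 : Poly (fun y : ((α × (L × L)) × (ℕ × ℕ)) × (ℕ × ℕ) => y.1.2.1) :=
      Poly.fst (Poly.snd (Poly.fst Poly.id))
    have a2 : Poly (fun y : ((α × (L × L)) × (ℕ × ℕ)) × (ℕ × ℕ) => y.2.1) :=
      Poly.fst (Poly.snd Poly.id)
    have a3 : Poly (fun y : ((α × (L × L)) × (ℕ × ℕ)) × (ℕ × ℕ) => N y.1.1.1 + 1) :=
      Poly.succ (hN.comp (Poly.fst (Poly.fst (Poly.fst Poly.id))))
    exact Poly.or (Poly.or (Poly.decide_eq a1 (Poly.succ a2)) (Poly.decide_eq a2 (Poly.succ a1)))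
      (Poly.or (Poly.and (Poly.decide_eq a1 (Poly.const 0)) (Poly.decide_eq a2 a3))
        (Poly.and (Poly.decide_eq a1 a3) (Poly.decide_eq a2 (Poly.const 0))))
  have c2 : Poly (fun y : ((α × (L × L)) × (ℕ × ℕ)) × ((ℕ × (ℕ × ℕ)) × (ℕ × ℕ)) =>
      decide (y.1.2 = y.2.1.2) && decide (y.2.2.1 = 0)) :=
    Poly.and (Poly.decide_eq (Poly.snd (Poly.fst Poly.id)) (Poly.snd (Poly.fst (Poly.snd Poly.id))))
      (Poly.decide_eq (Poly.fst (Poly.snd (Poly.snd Poly.id))) (Poly.const 0))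
  have c3 : Poly (fun y : ((α × (L × L)) × ((ℕ × (ℕ × ℕ)) × (ℕ × ℕ))) × (ℕ × ℕ) =>
      decide (y.2 = y.1.2.1.2) && decide (y.1.2.2.1 = 0)) :=
    Poly.and (Poly.decide_eq (Poly.snd Poly.id) (Poly.snd (Poly.fst (Poly.snd (Poly.fst Poly.id)))))
      (Poly.decide_eq (Poly.fst (Poly.snd (Poly.snd (Poly.fst Poly.id)))) (Poly.const 0))
  have c4 : Poly (fun y : ((α × (L × L)) × ((ℕ × (ℕ × ℕ)) × (ℕ × ℕ))) ×
      ((ℕ × (ℕ × ℕ)) × (ℕ × ℕ)) => decide (y.1.2.1.1 = y.2.1.1) &&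
        ((decide (y.1.2.1.2 = y.2.1.2) && (decide (y.1.2.2.1 ≤ y.2.2.1 + 1) &&
          decide (y.2.2.1 ≤ y.1.2.2.1 + 1))) ||
          (!decide (y.1.2.1.2 = y.2.1.2) && (decide (y.1.2.2.1 = N y.1.1.1 + 1) &&
            decide (y.2.2.1 = N y.1.1.1 + 1))))) := by
    have b1 : Poly (fun y : ((α × (L × L)) × ((ℕ × (ℕ × ℕ)) × (ℕ × ℕ))) ×
      ((ℕ × (ℕ × ℕ)) × (ℕ × ℕ)) => y.1.2) := Poly.snd (Poly.fst Poly.id)
    have b2 : Poly (fun y : ((α × (L × L)) × ((ℕ × (ℕ × ℕ)) × (ℕ × ℕ))) ×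
      ((ℕ × (ℕ × ℕ)) × (ℕ × ℕ)) => y.2) := Poly.snd Poly.id
    have b3 : Poly (fun y : ((α × (L × L)) × ((ℕ × (ℕ × ℕ)) × (ℕ × ℕ))) ×
      ((ℕ × (ℕ × ℕ)) × (ℕ × ℕ)) => N y.1.1.1 + 1) :=
      Poly.succ (hN.comp (Poly.fst (Poly.fst (Poly.fst Poly.id))))
    have e1 := Poly.decide_eq (Poly.snd (Poly.fst b1)) (Poly.snd (Poly.fst b2))
    exact Poly.and (Poly.decide_eq (Poly.fst (Poly.fst b1)) (Poly.fst (Poly.fst b2)))
      (Poly.or (Poly.and e1 (Poly.and
        (Poly.decide_le (Poly.fst (Poly.snd b1)) (Poly.succ (Poly.fst (Poly.snd b2))))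
        (Poly.decide_le (Poly.fst (Poly.snd b2)) (Poly.succ (Poly.fst (Poly.snd b1))))))
        (Poly.and (Poly.not e1) (Poly.and (Poly.decide_eq (Poly.fst (Poly.snd b1)) b3)
          (Poly.decide_eq (Poly.fst (Poly.snd b2)) b3))))
  refine (Poly.sumCases (o := fun x : α × (L × L) => x.2.1)
    (g := fun x s => match x.2.2 with
      | Sum.inl s' => (decide (s.1 = s'.1 + 1) || decide (s'.1 = s.1 + 1)) ||
        ((decide (s.1 = 0) && decide (s'.1 = N x.1 + 1)) ||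
          (decide (s.1 = N x.1 + 1) && decide (s'.1 = 0)))
      | Sum.inr y => decide (s = y.1.2) && decide (y.2.1 = 0))
    (h := fun x z => match x.2.2 with
      | Sum.inl s' => decide (s' = z.1.2) && decide (z.2.1 = 0)
      | Sum.inr y => decide (z.1.1 = y.1.1) &&
        ((decide (z.1.2 = y.1.2) && (decide (z.2.1 ≤ y.2.1 + 1) && decide (y.2.1 ≤ z.2.1 + 1))) ||
          (!decide (z.1.2 = y.1.2) && (decide (z.2.1 = N x.1 + 1) && decide (y.2.1 = N x.1 + 1)))))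
    (Poly.fst (Poly.snd Poly.id)) ?_ ?_).congr ?_
  · refine (Poly.sumCases (o := fun x : (α × (L × L)) × (ℕ × ℕ) => x.1.2.2)
      (g := fun x s' => (decide (x.2.1 = s'.1 + 1) || decide (s'.1 = x.2.1 + 1)) ||
        ((decide (x.2.1 = 0) && decide (s'.1 = N x.1.1 + 1)) ||
          (decide (x.2.1 = N x.1.1 + 1) && decide (s'.1 = 0))))
      (h := fun x y => decide (x.2 = y.1.2) && decide (y.2.1 = 0))
      (Poly.snd (Poly.snd (Poly.fst Poly.id))) c1 c2).congr ?_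
    intro x
    cases x.1.2.2 <;> rfl
  · refine (Poly.sumCases (o := fun x : (α × (L × L)) × ((ℕ × (ℕ × ℕ)) × (ℕ × ℕ)) => x.1.2.2)
      (g := fun x s' => decide (s' = x.2.1.2) && decide (x.2.2.1 = 0))
      (h := fun x y => decide (x.2.1.1 = y.1.1) &&
        ((decide (x.2.1.2 = y.1.2) && (decide (x.2.2.1 ≤ y.2.1 + 1) &&
          decide (y.2.1 ≤ x.2.2.1 + 1))) ||
          (!decide (x.2.1.2 = y.1.2) && (decide (x.2.2.1 = N x.1.1 + 1) &&
            decide (y.2.1 = N x.1.1 + 1)))))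
      (Poly.snd (Poly.snd (Poly.fst Poly.id))) c3 c4).congr ?_
    intro x
    cases x.1.2.2 <;> rfl
  · rintro ⟨a, x, y⟩
    cases x <;> cases y <;> rfl

end Pool.Agent.NPC.H598R2.NsL
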