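import Mathlib
import Pool.Agent.H598R2.NsList

/-!
The reduction from 3SAT to short induced nonseparating cycles: correctness.
-/

namespace Pool.Agent.NPC.H598R2.NsL

open Pool.Agent.H598R2.Ns
open Pool.Agent.NPC.H634R2 (Cl3)

/-- the promise on formulas -/
def Pf (φ : List Cl3) : Prop := Distinct3 φ ∧ Bounded3 φ ∧ φ ≠ []

/-- the graph of the reduction -/
noncomputable def gr (φ : List Cl3) : Graph := ((dd (vL φ)).length, adT (dd (vL φ)) (tb (nv φ)))

theorem isGraph_gr (φ : List Cl3) : IsGraph (gr φ) := by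
  constructor
  · rintro ⟨i, j⟩ h
    obtain ⟨h1, h2⟩ := adT_bound h
    exact ⟨h1.trans h2, h2, h1.ne⟩
  · refine List.Nodup.map_on ?_ (adT_nodup _ _)
    rintro ⟨i, j⟩ h1 ⟨i', j'⟩ h2 heq
    have h3 := (adT_bound h1).1
    have h4 := (adT_bound h2).1
    simp only [Sym2.eq_iff] at heq
    rcases heq with ⟨rfl, rfl⟩ | ⟨rfl, rfl⟩
    · rfl
    · omega

/-- the labels of the vertices -/
noncomputable def fl (φ : List Cl3) : Fin (gr φ).1 → L := fun i => (dd (vL φ))[i.1]'i.2

theorem sl_sg {φ : List Cl3} (hφ : Pf φ) {cl : Cl3} (hcl : cl ∈ φ) {s : ℕ × ℕ}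
    (hs : s = sl cl.1 ∨ s = sl cl.2.1 ∨ s = sl cl.2.2) : Sg (nv φ) s := by
  have hb := hφ.2.1 cl hcl
  have key : ∀ l : Lit ℕ, l.2 < 3 * φ.length → Sg (nv φ) (sl l) := by
    intro l hl
    right; right
    unfold sl nv
    refine ⟨by simp, by simp only; omega, ?_⟩
    simp only
    split_ifs <;> omega
  rcases hs with rfl | rfl | rfl
  · exact key _ hb.1
  · exact key _ hb.2.1
  · exact key _ hb.2.2

theorem lab {φ : List Cl3} (hφ : Pf φ) : Lab (nv φ) (Att φ) (toG (gr φ)) (fl φ) := by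
  refine ⟨?_, ?_, ?_, ?_, ?_, ?_⟩
  · intro i j hij
    exact Fin.ext ((List.Nodup.getElem_inj_iff (nodup_dd _)).1 hij)
  · intro i
    rw [← mem_vL, ← mem_dd]
    exact List.getElem_mem _
  · intro x hx
    rw [← mem_vL, ← mem_dd, List.mem_iff_getElem] at hx
    obtain ⟨i, hi, hix⟩ := hx
    exact ⟨⟨i, hi⟩, hix⟩
  · intro i j
    rw [toG, SimpleGraph.fromRel_adj]
    refine and_congr_right fun hne => ?_
    have hget : ∀ k : Fin (gr φ).1, (dd (vL φ))[k.1]? = some (fl φ k) := fun k =>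
      List.getElem?_eq_getElem _
    constructor
    · rintro (h | h)
      · obtain ⟨v, w, h1, h2, _, h4⟩ := mem_adT.1 h
        rw [hget] at h1 h2
        rw [Option.some.inj h1, Option.some.inj h2]
        exact tb_iff.1 h4
      · obtain ⟨v, w, h1, h2, _, h4⟩ := mem_adT.1 h
        rw [hget] at h1 h2
        rw [Option.some.inj h1, Option.some.inj h2]
        exact adjL_symm (tb_iff.1 h4)
    · intro h
      rcases lt_or_gt_of_ne (fun he => hne (Fin.ext he) : i.1 ≠ j.1) with hlt | hlt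
      · exact Or.inl (mem_adT.2 ⟨_, _, hget i, hget j, hlt, tb_iff.2 h⟩)
      · exact Or.inr (mem_adT.2 ⟨_, _, hget j, hget i, hlt, tb_iff.2 (adjL_symm h)⟩)
  · intro s
    unfold Att
    constructor
    · rintro (h | ⟨j, cl, h, _⟩)
      · exact h.2
      · omega
    · intro h; exact Or.inl ⟨rfl, h⟩
  · rintro c s (h | ⟨j, cl, _, hj, hs⟩)
    · exact h.2
    · exact sl_sg hφ (List.mem_of_getElem? hj) hs

theorem nv_pos {φ : List Cl3} (hφ : Pf φ) : 1 ≤ nv φ := by
  have : φ.length ≠ 0 := fun h => hφ.2.2 (List.length_eq_zero_iff.1 h)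
  unfold nv
  omega

theorem att_three {φ : List Cl3} (hφ : Pf φ) : ∀ c s, Att φ c s →
    ∃ g : Fin 3 → ℕ × ℕ, Function.Injective g ∧ ∀ k, Att φ c (g k) := by
  have hN := nv_pos hφ
  rintro c s (h | ⟨j, cl, rfl, hj, hs⟩)
  · refine ⟨![(0, 0), (nv φ + 1, 0), (1, 0)], ?_, ?_⟩
    · intro a b hab
      fin_cases a <;> fin_cases b <;> simp at hab ⊢ <;> omega
    · intro k
      fin_cases k
      · exact Or.inl ⟨h.1, Or.inl rfl⟩
      · exact Or.inl ⟨h.1, Or.inr (Or.inl rfl)⟩
      · exact Or.inl ⟨h.1, Or.inr (Or.inr ⟨le_rfl, hN, by simp⟩)⟩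
  · have hd := hφ.1 cl (List.mem_of_getElem? hj)
    refine ⟨![sl cl.1, sl cl.2.1, sl cl.2.2], ?_, ?_⟩
    · have e1 : (sl cl.1).1 ≠ (sl cl.2.1).1 := by
        intro h; unfold sl at h; simp only at h; exact hd.1 (by omega)
      have e2 : (sl cl.1).1 ≠ (sl cl.2.2).1 := by
        intro h; unfold sl at h; simp only at h; exact hd.2.1 (by omega)
      have e3 : (sl cl.2.1).1 ≠ (sl cl.2.2).1 := by
        intro h; unfold sl at h; simp only at h; exact hd.2.2 (by omega)
      intro a b hab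
      fin_cases a <;> fin_cases b
      · rfl
      · exact absurd (congrArg Prod.fst hab) e1
      · exact absurd (congrArg Prod.fst hab) e2
      · exact absurd (congrArg Prod.fst hab).symm e1
      · rfl
      · exact absurd (congrArg Prod.fst hab) e3
      · exact absurd (congrArg Prod.fst hab).symm e2
      · exact absurd (congrArg Prod.fst hab).symm e3
      · rfl
    · intro k
      fin_cases k
      · exact Or.inr ⟨j, cl, rfl, hj, Or.inl rfl⟩
      · exact Or.inr ⟨j, cl, rfl, hj, Or.inr (Or.inl rfl)⟩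
      · exact Or.inr ⟨j, cl, rfl, hj, Or.inr (Or.inr rfl)⟩

/-- satisfiability and choices of single vertices -/
theorem sat_iff_choice {φ : List Cl3} (hφ : Pf φ) : SAT3 φ ↔
    ∃ p : ℕ → ℕ, (∀ i ≤ nv φ + 1, Sg (nv φ) (i, p i)) ∧
      ∀ c s, Att φ c s → ∃ s', Att φ c s' ∧ s'.2 ≠ p s'.1 := by
  have hN := nv_pos hφ
  constructor
  · rintro ⟨τ, hτ⟩
    set p : ℕ → ℕ := fun i => if i = 0 ∨ i = nv φ + 1 then 0 else if τ (i - 1) then 0 else 1 with hp
    have hpx : ∀ x < nv φ, p (x + 1) = if τ x then 0 else 1 := by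
      intro x hx
      simp only [hp]
      rw [if_neg (by omega)]
      simp
    have hp2 : ∀ i, p i < 2 := by
      intro i
      simp only [hp]
      split_ifs <;> omega
    refine ⟨p, ?_, ?_⟩
    · intro i hi
      by_cases h0 : i = 0
      · left; subst h0; simp [hp]
      · by_cases h1 : i = nv φ + 1
        · right; left; subst h1; simp [hp]
        · right; right; exact ⟨by simp only; omega, by simp only; omega, hp2 i⟩
    · rintro c s (h | ⟨j, cl, rfl, hj, hs⟩)
      · by_cases hp1 : p 1 = 0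
        · exact ⟨(1, 1), Or.inl ⟨h.1, Or.inr (Or.inr ⟨le_rfl, hN, by simp⟩)⟩, by simp [hp1]⟩
        · exact ⟨(1, 0), Or.inl ⟨h.1, Or.inr (Or.inr ⟨le_rfl, hN, by simp⟩)⟩, by
            simpa [eq_comm] using hp1⟩
      · have hcl := List.mem_of_getElem? hj
        have hb := hφ.2.1 cl hcl
        have key : ∀ l : Lit ℕ, l.2 < 3 * φ.length → τ l.2 = l.1 → (sl l).2 ≠ p (sl l).1 := by
          intro l hl hlt
          unfold sl
          simp only
          rw [hpx l.2 hl, hlt]
          cases l.1 <;> simp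
        rcases hτ cl hcl with h | h | h
        · exact ⟨sl cl.1, Or.inr ⟨j, cl, rfl, hj, Or.inl rfl⟩, key _ hb.1 h⟩
        · exact ⟨sl cl.2.1, Or.inr ⟨j, cl, rfl, hj, Or.inr (Or.inl rfl)⟩, key _ hb.2.1 h⟩
        · exact ⟨sl cl.2.2, Or.inr ⟨j, cl, rfl, hj, Or.inr (Or.inr rfl)⟩, key _ hb.2.2 h⟩
  · rintro ⟨p, hp, hc⟩
    refine ⟨fun x => decide (p (x + 1) = 0), ?_⟩
    intro cl hcl
    have hb := hφ.2.1 cl hcl
    obtain ⟨j, hj, hjc⟩ := List.mem_iff_getElem.1 hcl
    have hj' : φ[j]? = some cl := by rw [List.getElem?_eq_getElem hj, hjc]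
    have key : ∀ l : Lit ℕ, l.2 < 3 * φ.length → (sl l).2 ≠ p (sl l).1 →
        decide (p (l.2 + 1) = 0) = l.1 := by
      intro l hl hne
      have h1 := hp (l.2 + 1) (by unfold nv; omega)
      have h2 : p (l.2 + 1) < 2 := by
        rcases h1 with e | e | e
        · simp at e
        · simp only [Prod.mk.injEq] at e; omega
        · exact e.2.2
      unfold sl at hne
      simp only at hne
      cases hl1 : l.1 with
      | true =>
        rw [hl1] at hne
        simp only [if_true] at hne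
        rw [decide_eq_true_eq]
        omega
      | false =>
        rw [hl1] at hne
        simp only [Bool.false_eq_true, if_false] at hne
        rw [decide_eq_false_iff_not]
        omega
    obtain ⟨s', hs', hne⟩ := hc (j + 1) (sl cl.1) (Or.inr ⟨j, cl, rfl, hj', Or.inl rfl⟩)
    rcases hs' with h | ⟨j', cl', h, hj2, hs'⟩
    · omega
    · have : j' = j := by omega
      subst this
      rw [hj'] at hj2
      have hcc := Option.some.inj hj2
      subst hcc
      rcases hs' with rfl | rfl | rfl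
      · exact Or.inl (key _ hb.1 hne)
      · exact Or.inr (Or.inl (key _ hb.2.1 hne))
      · exact Or.inr (Or.inr (key _ hb.2.2 hne))

/-- the position of a label -/
noncomputable def ix (φ : List Cl3) (x : L) : ℕ := index (dd (vL φ)) x

/-- the instance -/
noncomputable def red (φ : List Cl3) : (Graph × (ℕ × ℕ)) × ℕ :=
  ((gr φ, (ix φ (Sum.inl (0, 0)), ix φ (Sum.inl (nv φ + 1, 0)))), nv φ + 2)

theorem red_poly : Poly red := by
  have hv : Poly (fun φ : List Cl3 => dd (vL φ)) := dd_poly vL_poly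
  have hn : Poly nv := nv_upoly.toPoly
  refine Poly.pair (Poly.pair (Poly.pair (Poly.length hv) (adT_poly hv (tb_poly hn)))
    (Poly.pair (Poly.index hv (Poly.const _)) (Poly.index hv (Poly.inl (Poly.pair (Poly.succ hn)
      (Poly.const 0)))))) (Poly.add hn (Poly.const 2))

/-- The promise problem: a 3-connected graph with an edge; the question is whether there is an
induced nonseparating cycle of length at most `s` through the edge. -/
theorem hardPr_ns : HardPr
    (fun I : (Graph × (ℕ × ℕ)) × ℕ => IsGraph I.1.1 ∧ ThreeConnected (toG I.1.1) ∧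
      ∃ a b : Fin I.1.1.1, a.val = I.1.2.1 ∧ b.val = I.1.2.2 ∧ (toG I.1.1).Adj a b)
    (fun I => ∃ a b : Fin I.1.1.1, a.val = I.1.2.1 ∧ b.val = I.1.2.2 ∧
      ∃ l, IsIndNonsep (toG I.1.1) a b l ∧ l.length ≤ I.2) := by
  refine hardPr_SAT3b.trans (f := red) red_poly ?_ ?_
  all_goals
    intro φ hφ
    have hlab := lab hφ
    have hN := nv_pos hφ
    have hu : Sum.inl (0, 0) ∈ dd (vL φ) := mem_dd.2 (mem_vL.2 (Or.inl rfl))
    have hv : Sum.inl (nv φ + 1, 0) ∈ dd (vL φ) := mem_dd.2 (mem_vL.2 (Or.inr (Or.inl rfl)))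
    have hu2 : fl φ ⟨ix φ (Sum.inl (0, 0)), index_lt hu⟩ = Sum.inl (0, 0) := by
      have := getElem?_index hu
      rw [List.getElem?_eq_getElem (index_lt hu)] at this
      exact Option.some.inj this
    have hv2 : fl φ ⟨ix φ (Sum.inl (nv φ + 1, 0)), index_lt hv⟩ = Sum.inl (nv φ + 1, 0) := by
      have := getElem?_index hv
      rw [List.getElem?_eq_getElem (index_lt hv)] at this
      exact Option.some.inj this
  · have hadj : (toG (gr φ)).Adj ⟨ix φ (Sum.inl (0, 0)), index_lt hu⟩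
        ⟨ix φ (Sum.inl (nv φ + 1, 0)), index_lt hv⟩ := by
      refine (hlab.adj _ _).2 ⟨?_, ?_⟩
      · intro he
        have := congrArg (fl φ) he
        rw [hu2, hv2] at this
        simp at this
      · rw [hu2, hv2]
        exact Or.inr (Or.inr (Or.inl ⟨rfl, rfl⟩))
    exact ⟨isGraph_gr φ, threeConnected hlab (att_three hφ), _, _, rfl, rfl, hadj⟩
  · rw [sat_iff_choice hφ]
    constructor
    · rintro ⟨p, hp, hc⟩
      obtain ⟨l, hl, hlen⟩ := exists_cycle hlab hu2 hv2 hN hp hc
      exact ⟨_, _, rfl, rfl, l, hl, hlen.le⟩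
    · rintro ⟨a, b, ha, hb, l, hl, hlen⟩
      have ea : a = ⟨ix φ (Sum.inl (0, 0)), index_lt hu⟩ := Fin.ext ha
      have eb : b = ⟨ix φ (Sum.inl (nv φ + 1, 0)), index_lt hv⟩ := Fin.ext hb
      subst ea
      subst eb
      exact of_cycle hlab hu2 hv2 hN hl hlen

end Pool.Agent.NPC.H598R2.NsL
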